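import Pool.Agent.OVL.Pde

/-!
# Project OVL, module Bz: few common zeros; a generic perturbation of `Dy (Dy U)` is relatively prime to `U`

PLAN. `real_eval`: for `RealP P` the number `eval ![w, conj w] P` is real (its imaginary part is zero): `eval_eq_sum` with `l` = max of the degrees and `RealP`, exchange `i, j` in the double sum; so `Vf P w = 0` implies
`eval ![w, conj w] P = 0`.
`zeros_card`: `Pool.Agent.SHB.bezout l U W` with `deg0_eq`, `deg1_eq` (`hU.deg0_eq h0`), the finset `S.image (fun w => (w, conj w))` (injective), `m = k = 1`, `pow_one`, `mem_ptI_iff`.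
`coprime_perturb`: for every bad `ε` there is an irreducible `q_ε` dividing `U` and `A + C ε * B` (`WfDvdMonoid.isRelPrime_of_no_irreducible_factors` contraposed, `U ≠ 0`), associated to a member of the finite multiset
`UniqueFactorizationMonoid.factors U` (`UniqueFactorizationMonoid.exists_mem_factors_of_dvd`). If the set of bad `ε` were infinite, two different `ε, ε'` would have the same member `q`
(`Set.Infinite.exists_ne_map_eq_of_mapsTo` with the finite set of factors); then `q ∣ (A + C ε B) - (A + C ε' B) = C (ε - ε') * B`, `C (ε - ε')` is a unit, `q ∣ B`, `q ∣ U`: `q` is a unit by `h`, contradiction.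
`pert`: `IsRelPrime U (rotW U)` by `Spin.relPrime`, hence `IsRelPrime U (Dy U)` (`Dy U = C I * rotW U`, `C I` a unit: `isRelPrime_mul_unit_right_right` or directly). By `coprime_perturb` (`A = Dy (Dy U)`, `B = Dy U`) the interval
`(0, ε0)`, which is infinite (`Set.Ioo_infinite`), contains a good `ε`. `W = Dy (Dy U) + C ε * Dy U` is `RealP` (`realP_Dy`), has degrees `≤ l`, `Vf W w = Vf (Dy (Dy U)) w + ε * Vf (Dy U) w`; `zeros_card`.
-/

set_option autoImplicit false

namespace Pool.Agent.OVL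

open MvPolynomial Pool.Agent.SHB

theorem real_eval {P : P2} (h : RealP P) (w : ℂ) (h0 : Vf P w = 0) :
    eval ![w, (starRingEnd ℂ) w] P = 0 := by
  rw [h.eval_eq w, h0, Complex.ofReal_zero]

theorem zeros_card {l : ℕ} {U : P2} (hU : Spin l U) (hR : RealP U)
    (h0 : coeff (ex 0 0) U ≠ 0) (W : P2) (hW0 : degreeOf 0 W ≤ l) (hW1 : degreeOf 1 W ≤ l)
    (hWR : RealP W) (hrel : IsRelPrime U W) (S : Finset ℂ)
    (hS : ∀ w ∈ S, Vf U w = 0 ∧ Vf W w = 0) : S.card ≤ 2 * l ^ 2 := by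
  classical
  have hinj : Function.Injective (fun w : ℂ => (w, (starRingEnd ℂ) w)) := by
    intro w w' h
    exact congrArg Prod.fst h
  have h1 := bezout l U W (hU.deg0_eq h0) (hU.deg1_eq h0) hW0 hW1 hrel
    (S.image fun w => (w, (starRingEnd ℂ) w)) (fun _ => 1) (fun _ => 1) (by
      intro s hs
      obtain ⟨w, hw, rfl⟩ := Finset.mem_image.1 hs
      rw [pow_one, mem_ptI_iff]
      exact real_eval hR w (hS w hw).1) (by
      intro s hs
      obtain ⟨w, hw, rfl⟩ := Finset.mem_image.1 hs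
      rw [pow_one, mem_ptI_iff]
      exact real_eval hWR w (hS w hw).2)
  rw [Finset.sum_const, Finset.card_image_of_injective _ hinj] at h1
  simpa using h1

theorem coprime_perturb (U A B : P2) (hU : U ≠ 0) (h : IsRelPrime U B) :
    {ε : ℝ | ¬ IsRelPrime U (A + C (ε : ℂ) * B)}.Finite := by
  classical
  by_contra hinf
  have hinf' : {ε : ℝ | ¬ IsRelPrime U (A + C (ε : ℂ) * B)}.Infinite := hinf
  have hex : ∀ ε : ℝ, ¬ IsRelPrime U (A + C (ε : ℂ) * B) →
      ∃ q ∈ (UniqueFactorizationMonoid.factors U).toFinset, q ∣ U ∧ q ∣ A + C (ε : ℂ) * B ∧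
        Irreducible q := by
    intro ε hε
    by_contra hcon
    push Not at hcon
    apply hε
    apply WfDvdMonoid.isRelPrime_of_no_irreducible_factors
    · rintro ⟨h1, _⟩
      exact hU h1
    · intro q hq hqU hqW
      obtain ⟨q', hq', hass⟩ := UniqueFactorizationMonoid.exists_mem_factors_of_dvd hU hq hqU
      exact hcon q' (Multiset.mem_toFinset.2 hq') (hass.dvd_iff_dvd_left.1 hqU)
        (hass.dvd_iff_dvd_left.1 hqW) (hass.irreducible hq)
  choose! q hq1 hq2 hq3 hq4 using hex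
  obtain ⟨ε, hε, ε', hε', hne, heq⟩ := hinf'.exists_ne_map_eq_of_mapsTo
    (f := q) (t := ((UniqueFactorizationMonoid.factors U).toFinset : Set P2))
    (fun ε hε => hq1 ε hε) (Finset.finite_toSet _)
  have h1 : q ε ∣ A + C (ε : ℂ) * B := hq3 ε hε
  have h2 : q ε ∣ A + C (ε' : ℂ) * B := by
    rw [heq]
    exact hq3 ε' hε'
  have h3 : q ε ∣ C ((ε : ℂ) - ε') * B := by
    have h4 := dvd_sub h1 h2
    have h5 : A + C (ε : ℂ) * B - (A + C (ε' : ℂ) * B) = C ((ε : ℂ) - ε') * B := by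
      rw [map_sub]
      ring
    rwa [h5] at h4
  have h6 : (ε : ℂ) - ε' ≠ 0 := by
    rw [sub_ne_zero]
    exact fun h7 => hne (Complex.ofReal_injective h7)
  have h7 : IsUnit (C ((ε : ℂ) - ε') : P2) := (IsUnit.mk0 _ h6).map C
  have h8 : q ε ∣ B := (h7.dvd_mul_left).1 h3
  exact (hq4 ε hε).not_isUnit (h (hq2 ε hε) h8)

theorem relprime_Dy {l : ℕ} {U : P2} (hU : Spin l U) (hl : 1 ≤ l) (hR : RealP U)
    (h0 : coeff (ex 0 0) U ≠ 0) (h1 : coeff (ex 1 0) U ≠ 0) : IsRelPrime U (Dy U) := by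
  have h2 := hU.relPrime hl hR h0 h1
  have h3 : IsUnit (C Complex.I : P2) := (IsUnit.mk0 _ Complex.I_ne_zero).map C
  intro d hd1 hd2
  unfold Dy at hd2
  exact h2 hd1 ((h3.dvd_mul_left).1 hd2)

theorem pert {l : ℕ} {U : P2} (hU : Spin l U) (hl : 1 ≤ l) (hR : RealP U)
    (h0 : coeff (ex 0 0) U ≠ 0) (h1 : coeff (ex 1 0) U ≠ 0) (ε0 : ℝ) (hε : 0 < ε0) :
    ∃ ε : ℝ, 0 < ε ∧ ε < ε0 ∧ ∀ S : Finset ℂ,
      (∀ w ∈ S, Vf U w = 0 ∧ Vf (Dy (Dy U)) w + ε * Vf (Dy U) w = 0) → S.card ≤ 2 * l ^ 2 := by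
  have hU0 : U ≠ 0 := by
    rintro rfl
    exact h0 (coeff_zero _)
  have hfin := coprime_perturb U (Dy (Dy U)) (Dy U) hU0 (relprime_Dy hU hl hR h0 h1)
  obtain ⟨ε, hε1, hε2⟩ := ((Set.Ioo_infinite hε).diff hfin).nonempty
  refine ⟨ε, hε1.1, hε1.2, ?_⟩
  intro S hS
  have hrel : IsRelPrime U (Dy (Dy U) + C (ε : ℂ) * Dy U) := by
    by_contra hcon
    exact hε2 hcon
  have hd1 := deg_Dy hU.deg0 hU.deg1
  have hd2 := deg_Dy hd1.1 hd1.2
  have hdeg : ∀ k : Fin 2, degreeOf k (Dy (Dy U)) ≤ l → degreeOf k (Dy U) ≤ l →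
      degreeOf k (Dy (Dy U) + C (ε : ℂ) * Dy U) ≤ l := by
    intro k h2 h3
    refine (degreeOf_add_le _ _ _).trans (max_le h2 ?_)
    exact (degreeOf_C_mul_le _ _ _).trans h3
  have hR1 := realP_Dy hR
  have hR2 := realP_Dy hR1
  refine zeros_card hU hR h0 (Dy (Dy U) + C (ε : ℂ) * Dy U) (hdeg 0 hd2.1 hd1.1)
    (hdeg 1 hd2.2 hd1.2) ?_ hrel S ?_
  · intro i j
    rw [coeff_add, coeff_add, coeff_C_mul, coeff_C_mul, map_add, map_mul, hR2 i j, hR1 i j,
      Complex.conj_ofReal]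
  · intro w hw
    refine ⟨(hS w hw).1, ?_⟩
    rw [← (hS w hw).2]
    unfold Vf
    simp

end Pool.Agent.OVL
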