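import Pool.Agent.OVL.Defs

/-!
# Project OVL, module Gr: the graph of components and curves; closed components

PLAN. Facts on `cset V D`: these sets are open (`{V ≠ 0}` is open in `ℂ`, components of a locally connected space are open: `isOpen_connectedComponent` in the subtype, `IsOpenEmbedding`), preconnected, pairwise disjoint, nonempty, and every `z` with
`V z ≠ 0` lies in exactly one. If `z ∈ closure (cset V D)` and `V z ≠ 0` then `z ∈ cset V D` (the component of `z` is an open neighbourhood of `z`, so it meets `cset V D`).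
For a preconnected `K` of good zeros: `P`, `M` can be chosen constant on `K`: for `q ∈ K` call `(P, M)` a pair for `q` if the three properties of `Good` hold for some open `O ∋ q`; the pair is unique (`q ∈ closure (cset V P)`, so `O ∩ cset V P ≠ ∅`; a point of it has `V > 0`?
(it has `V ≠ 0`; if `V < 0` at a point of `O ∩ cset V P` then it is in `cset V M`, so `P = M`, impossible because `V` has constant sign on a component and ... ) -- simplest: define, for the set `A` of components below, the set `KA = {q ∈ K | q ∈ closure (⋃ D ∈ A, cset V D)}`.)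
MAIN ARGUMENT. For `A ⊆ 𝒟` put `Y A = closure (⋃ D ∈ A, cset V D)`. Say that `K ∈ 𝒦` is in `A`-position if `K ∩ Y A ≠ ∅`.
Claim (cut): let `A ⊆ 𝒟`, `A ≠ ∅`, `A ≠ univ` and suppose that for every `K ∈ 𝒦` the two components adjacent to `K` are both in `A` or both not in `A`; contradiction: `Y A` is closed, nonempty; it is open: a point `z ∈ Y A` with `V z ≠ 0` is in some
`cset V D`, `D ∈ A` (finite union: `closure_biUnion` for finite sets), open. A point with `V z = 0` is in `closure (cset V D)`, `D ∈ A ⊆ 𝒟`, so in some `K ∈ 𝒦`, `Good V z` with `O, P, M`; `O ∩ cset V D ≠ ∅` gives `D = P` or `D = M`, so `P, M ∈ A` and `O ⊆ Y A`. So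
`Y A = univ` (`ℂ` is connected, `IsClopen.eq_univ`), and every component meets `⋃ D ∈ A, cset V D`, so `A = univ`.
Adjacent components: for `K ∈ 𝒦` define `adj K = {D | K ⊆ closure (cset V D)}`. Lemma: if `q ∈ K` is good with `(O, P, M)` then `adj K = {P, M}`: for `D` with `q ∈ closure (cset V D)` the set `O ∩ cset V D` is nonempty so `D ∈ {P, M}`; conversely
`{q' ∈ K | q' ∈ closure (cset V P)}` is closed in `K`, open in `K` (if `q'` is in it, good with `(O', P', M')`, then `P ∈ {P', M'}` and `O' ∩ K ⊆ closure (cset V P)` by the third property), nonempty, `K` preconnected. So `adj K` has one or two elements.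
COUNT: for finite `A ⊆ 𝒟`, `A ≠ univ`: `A.ncard ≤ #{K ∈ 𝒦 | (adj K ∩ A).Nonempty}`, by induction on `A.ncard`: `A = ∅` trivial; otherwise by (cut) there is `K0` with `adj K0 = {a, b}`, `a ∈ A`, `b ∉ A`; `A' = A \ {a}`: by induction `A'.ncard ≤ #{K | adj K ∩ A' ≠ ∅}`, `K0` is not in
this set but in the set for `A`. If `𝒟 ≠ univ` this gives `𝒟.ncard ≤ 𝒦.card`; if `𝒟 = univ` and some `D0` exists apply it to `A = univ \ {D0}`.
`comp_subset`: as above: `comp V w ∩ closure (cset V D)` is closed, nonempty and open in `comp V w` (good points), and `comp V w` is preconnected.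
-/

set_option autoImplicit false

namespace Pool.Agent.OVL

open Pool.Agent.SHB

private theorem gr_isOpen (V : ℂ → ℝ) (hV : Continuous V) (D : Cc V) : IsOpen (cset V D) := by
  have hU : IsOpen {w : ℂ | V w ≠ 0} := isOpen_ne_fun hV continuous_const
  have hemb : Topology.IsOpenEmbedding (Subtype.val : {w : ℂ // V w ≠ 0} → ℂ) :=
    hU.isOpenEmbedding_subtypeVal
  have : LocallyConnectedSpace {w : ℂ // V w ≠ 0} := hemb.locallyConnectedSpace
  have h1 : IsOpen ((ConnectedComponents.mk : {w : ℂ // V w ≠ 0} → Cc V) ⁻¹' {D}) :=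
    (isOpen_discrete _).preimage ConnectedComponents.continuous_coe
  have h2 := hemb.isOpenMap _ h1
  have h3 : cset V D =
      Subtype.val '' ((ConnectedComponents.mk : {w : ℂ // V w ≠ 0} → Cc V) ⁻¹' {D}) := by
    ext w
    constructor
    · rintro ⟨h, e⟩
      exact ⟨⟨w, h⟩, e, rfl⟩
    · rintro ⟨⟨x, hx⟩, e, rfl⟩
      exact ⟨hx, e⟩
  rw [h3]
  exact h2

private theorem gr_uniq {V : ℂ → ℝ} {D D' : Cc V} {z : ℂ} (h : z ∈ cset V D)
    (h' : z ∈ cset V D') : D = D' := by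
  obtain ⟨_, e⟩ := h
  obtain ⟨_, e'⟩ := h'
  exact e.symm.trans e'

private theorem gr_mem {V : ℂ → ℝ} (hV : Continuous V) {D : Cc V} {s : ℂ}
    (hs : s ∈ closure (cset V D)) (h0 : V s ≠ 0) : s ∈ cset V D := by
  have hs' : s ∈ cset V (ConnectedComponents.mk ⟨s, h0⟩) := ⟨h0, rfl⟩
  obtain ⟨y, hy1, hy2⟩ := mem_closure_iff.1 hs _ (gr_isOpen V hV _) hs'
  rw [← gr_uniq hy1 hy2]
  exact hs'

private theorem gr_ne (V : ℂ → ℝ) (D : Cc V) : (cset V D).Nonempty := by
  obtain ⟨⟨w, hw⟩, rfl⟩ := ConnectedComponents.surjective_coe D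
  exact ⟨w, hw, rfl⟩

/-- the components adjacent to the points of a good neighbourhood -/
private theorem gr_adj {V : ℂ → ℝ} {O : Set ℂ} (hO : IsOpen O) {P M : Cc V}
    (hP : ∀ z ∈ O, 0 < V z → z ∈ cset V P) (hM : ∀ z ∈ O, V z < 0 → z ∈ cset V M)
    {D : Cc V} {q : ℂ} (hq : q ∈ O) (hD : q ∈ closure (cset V D)) : D = P ∨ D = M := by
  obtain ⟨z, hz1, hz2⟩ := mem_closure_iff.1 hD O hO hq
  obtain ⟨hz0, _⟩ := id hz2
  rcases lt_or_gt_of_ne hz0 with h | h
  · exact Or.inr (gr_uniq hz2 (hM z hz1 h))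
  · exact Or.inl (gr_uniq hz2 (hP z hz1 h))

private theorem gr_precon {X : Type} [TopologicalSpace X] {K Z : Set X} (hK : IsPreconnected K)
    (hZ : IsClosed Z) (hne : (K ∩ Z).Nonempty)
    (hloc : ∀ q ∈ K, q ∈ Z → ∃ O : Set X, IsOpen O ∧ q ∈ O ∧ O ∩ K ⊆ Z) : K ⊆ Z := by
  by_contra hcon
  rw [Set.not_subset] at hcon
  obtain ⟨x, hxK, hxZ⟩ := hcon
  have h1 := hK (⋃₀ {O : Set X | IsOpen O ∧ O ∩ K ⊆ Z}) Zᶜ
    (isOpen_sUnion fun O hO => hO.1) hZ.isOpen_compl ?_ ?_ ⟨x, hxK, hxZ⟩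
  · obtain ⟨y, hyK, ⟨O, hO, hyO⟩, hyZ⟩ := h1
    exact hyZ (hO.2 ⟨hyO, hyK⟩)
  · intro q hq
    by_cases h : q ∈ Z
    · obtain ⟨O, h1, h2, h3⟩ := hloc q hq h
      exact Or.inl ⟨O, ⟨h1, h3⟩, h2⟩
    · exact Or.inr h
  · obtain ⟨q, hq, hqZ⟩ := hne
    obtain ⟨O, h1, h2, h3⟩ := hloc q hq hqZ
    exact ⟨q, hq, O, ⟨h1, h3⟩, h2⟩

private theorem gr_const {V : ℂ → ℝ} {K : Set ℂ} (hK : IsPreconnected K)
    {D : Cc V} (hg : ∀ q ∈ K, q ∈ closure (cset V D) → Good V q) (h0 : ∀ q ∈ K, V q = 0)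
    (hD : (K ∩ closure (cset V D)).Nonempty) : K ⊆ closure (cset V D) := by
  refine gr_precon hK isClosed_closure hD fun q hq hqD => ?_
  obtain ⟨O, hO, hqO, P, M, hP, hM, hz⟩ := hg q hq hqD
  refine ⟨O, hO, hqO, ?_⟩
  rintro w ⟨hwO, hwK⟩
  have h1 := hz w hwO (h0 w hwK)
  rcases gr_adj hO hP hM hqO hqD with h | h
  · rw [h]
    exact h1.1
  · rw [h]
    exact h1.2

private theorem gr_cut {V : ℂ → ℝ} (hV : Continuous V) (hfin : Finite (Cc V))
    {𝒦 : Finset (Set ℂ)}
    (hK : ∀ K ∈ 𝒦, IsPreconnected K ∧ K.Nonempty ∧ ∀ q ∈ K, V q = 0 ∧ Good V q)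
    {A : Set (Cc V)}
    (hA : ∀ D ∈ A, ∀ w ∈ closure (cset V D), V w = 0 → ∃ K ∈ 𝒦, w ∈ K)
    (hne : A.Nonempty) (huniv : A ≠ Set.univ) :
    ∃ K ∈ 𝒦, ∃ a ∈ A, ∃ b, b ∉ A ∧ K ⊆ closure (cset V a) ∧ K ⊆ closure (cset V b) := by
  by_contra hcon
  push Not at hcon
  have hclosed : IsClosed (⋃ D ∈ A, closure (cset V D)) :=
    (Set.toFinite A).isClosed_biUnion fun D _ => isClosed_closure
  have hsub : (Set.univ : Set ℂ) ⊆ ⋃ D ∈ A, closure (cset V D) := by
    refine gr_precon isPreconnected_univ hclosed ?_ ?_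
    · obtain ⟨D, hD⟩ := hne
      obtain ⟨z, hz⟩ := gr_ne V D
      exact ⟨z, Set.mem_univ z, Set.mem_biUnion hD (subset_closure hz)⟩
    · intro z _ hz
      rw [Set.mem_iUnion₂] at hz
      obtain ⟨D, hD, hzD⟩ := hz
      by_cases h0 : V z = 0
      · obtain ⟨K, hKm, hzK⟩ := hA D hD z hzD h0
        obtain ⟨hKc, -, hKg⟩ := hK K hKm
        obtain ⟨O, hO, hzO, P, M, hP, hM, hc⟩ := (hKg z hzK).2
        have hadj : ∀ D' : Cc V, z ∈ closure (cset V D') → D' ∈ A := by
          intro D' hD'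
          by_contra hnot
          exact hcon K hKm D hD D' hnot
            (gr_const hKc (fun q hq _ => (hKg q hq).2) (fun q hq => (hKg q hq).1)
              ⟨z, hzK, hzD⟩)
            (gr_const hKc (fun q hq _ => (hKg q hq).2) (fun q hq => (hKg q hq).1)
              ⟨z, hzK, hD'⟩)
        have hPA := hadj P (hc z hzO h0).1
        have hMA := hadj M (hc z hzO h0).2
        refine ⟨O, hO, hzO, ?_⟩
        rintro w ⟨hwO, -⟩
        rcases lt_trichotomy (V w) 0 with h | h | h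
        · exact Set.mem_biUnion hMA (subset_closure (hM w hwO h))
        · exact Set.mem_biUnion hPA (hc w hwO h).1
        · exact Set.mem_biUnion hPA (subset_closure (hP w hwO h))
      · refine ⟨cset V D, gr_isOpen V hV D, gr_mem hV hzD h0, ?_⟩
        rintro w ⟨hw, -⟩
        exact Set.mem_biUnion hD (subset_closure hw)
  apply huniv
  rw [Set.eq_univ_iff_forall]
  intro D0
  obtain ⟨w, hw⟩ := gr_ne V D0
  have h1 := hsub (Set.mem_univ w)
  rw [Set.mem_iUnion₂] at h1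
  obtain ⟨D, hD, hwD⟩ := h1
  obtain ⟨hw0, _⟩ := id hw
  rw [gr_uniq hw (gr_mem hV hwD hw0)]
  exact hD

open Classical in
private theorem gr_cnt {V : ℂ → ℝ} (hV : Continuous V) (hfin : Finite (Cc V))
    {𝒦 : Finset (Set ℂ)}
    (hK : ∀ K ∈ 𝒦, IsPreconnected K ∧ K.Nonempty ∧ ∀ q ∈ K, V q = 0 ∧ Good V q) (k : ℕ) :
    ∀ A : Set (Cc V), A.ncard = k →
    (∀ D ∈ A, ∀ w ∈ closure (cset V D), V w = 0 → ∃ K ∈ 𝒦, w ∈ K) → A ≠ Set.univ →
    A.ncard ≤ (𝒦.filter fun K => ∃ D ∈ A, K ⊆ closure (cset V D)).card := by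
  induction k with
  | zero =>
    intro A hk _ _
    rw [hk]
    exact Nat.zero_le _
  | succ k ih =>
    intro A hk hA huniv
    have hne : A.Nonempty := by
      rw [← Set.ncard_pos (Set.toFinite A), hk]
      exact Nat.succ_pos k
    obtain ⟨K, hKm, a, ha, b, hb, hKa, hKb⟩ := gr_cut hV hfin hK hA hne huniv
    have h1 : (A \ {a}).ncard = k := by
      rw [Set.ncard_sdiff_singleton_of_mem ha, hk, Nat.add_sub_cancel]
    have h2 := ih (A \ {a}) h1 (fun D hD => hA D hD.1) (fun h => by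
      have : a ∈ A \ {a} := by
        rw [h]
        exact Set.mem_univ a
      exact this.2 rfl)
    rw [h1] at h2
    rw [hk]
    refine Nat.succ_le_of_lt (lt_of_le_of_lt h2 (Finset.card_lt_card ?_))
    rw [Finset.ssubset_iff_of_subset]
    · refine ⟨K, Finset.mem_filter.mpr ⟨hKm, a, ha, hKa⟩, ?_⟩
      rw [Finset.mem_filter]
      rintro ⟨-, D, hD, hKD⟩
      obtain ⟨hKc, ⟨q, hq⟩, hKg⟩ := hK K hKm
      obtain ⟨O, hO, hqO, P, M, hP, hM, -⟩ := (hKg q hq).2
      have e1 := gr_adj hO hP hM hqO (hKD hq)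
      have e2 := gr_adj hO hP hM hqO (hKa hq)
      have e3 := gr_adj hO hP hM hqO (hKb hq)
      have hDa : D ≠ a := fun h => hD.2 h
      have hDb : D ≠ b := fun h => hb (h ▸ hD.1)
      have hab : a ≠ b := fun h => hb (h ▸ ha)
      rcases e1 with e1 | e1 <;> rcases e2 with e2 | e2 <;> rcases e3 with e3 | e3
      · exact hDa (e1.trans e2.symm)
      · exact hDa (e1.trans e2.symm)
      · exact hDb (e1.trans e3.symm)
      · exact hab (e2.trans e3.symm)
      · exact hab (e2.trans e3.symm)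
      · exact hDb (e1.trans e3.symm)
      · exact hDa (e1.trans e2.symm)
      · exact hDa (e1.trans e2.symm)
    · intro K' hK'
      rw [Finset.mem_filter] at hK' ⊢
      obtain ⟨h3, D, hD, h4⟩ := hK'
      exact ⟨h3, D, hD.1, h4⟩

theorem graph_count (V : ℂ → ℝ) (hV : Continuous V) (hfin : Finite (Cc V))
    (𝒦 : Finset (Set ℂ))
    (hK : ∀ K ∈ 𝒦, IsPreconnected K ∧ K.Nonempty ∧ ∀ q ∈ K, V q = 0 ∧ Good V q)
    (𝒟 : Set (Cc V))
    (h𝒟 : ∀ D ∈ 𝒟, ∀ w ∈ closure (cset V D), V w = 0 → ∃ K ∈ 𝒦, w ∈ K) :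
    𝒟.ncard ≤ 𝒦.card + 1 := by
  classical
  by_cases hu : 𝒟 = Set.univ
  · rcases Set.eq_empty_or_nonempty 𝒟 with he | ⟨D0, hD0⟩
    · rw [he, Set.ncard_empty]
      exact Nat.zero_le _
    · have h1 := gr_cnt hV hfin hK _ (𝒟 \ {D0}) rfl (fun D hD => h𝒟 D hD.1) (fun h => by
        have : D0 ∈ 𝒟 \ {D0} := by
          rw [h]
          exact Set.mem_univ D0
        exact this.2 rfl)
      rw [Set.ncard_sdiff_singleton_of_mem hD0] at h1
      have h2 := Finset.card_filter_le 𝒦 fun K => ∃ D ∈ 𝒟 \ {D0}, K ⊆ closure (cset V D)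
      omega
  · have h1 := gr_cnt hV hfin hK _ 𝒟 rfl h𝒟 hu
    have h2 := Finset.card_filter_le 𝒦 fun K => ∃ D ∈ 𝒟, K ⊆ closure (cset V D)
    omega

theorem comp_subset (V : ℂ → ℝ) (hV : Continuous V) (D : Cc V)
    (hD : ∀ w ∈ closure (cset V D), V w = 0 → Good V w) (w : ℂ)
    (hw : w ∈ closure (cset V D)) (hw0 : V w = 0) : comp V w ⊆ closure (cset V D) := by
  have h0 : ∀ q ∈ comp V w, V q = 0 := fun q hq =>
    connectedComponentIn_subset {w : ℂ | V w = 0} w hq
  exact gr_const isPreconnected_connectedComponentIn (fun q hq hqD => hD q hqD (h0 q hq)) h0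
    ⟨w, mem_connectedComponentIn hw0, hw⟩

end Pool.Agent.OVL
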