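import Pool.Agent.OVL.Defs

/-!
# Project OVL, module RobM: alternating signs give robust zeros

If a continuous function changes its sign at consecutive times along a simple closed curve, every small
perturbation has zeros between these times; they are distinct because the curve is simple.
-/

set_option autoImplicit false

namespace Pool.Agent.OVL

private theorem cont_E : Continuous E := by
  unfold E
  fun_prop

private theorem per_E (a b : ℝ) (k : ℤ) : E (a, b + 2 * Real.pi * k) = E (a, b) := by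
  unfold E
  have h : ((a : ℂ) + ((b + 2 * Real.pi * k : ℝ) : ℂ) * Complex.I) =
      ((a : ℂ) + (b : ℂ) * Complex.I) + k * (2 * Real.pi * Complex.I) := by
    push_cast
    ring
  change Complex.exp ((a : ℂ) + ((b + 2 * Real.pi * k : ℝ) : ℂ) * Complex.I) =
    Complex.exp ((a : ℂ) + (b : ℂ) * Complex.I)
  rw [h]
  exact Complex.exp_periodic.int_mul k _

private theorem pos_pert {s a : ℝ} (b : ℝ) (h : 0 < s * a) :
    ∃ e0 : ℝ, 0 < e0 ∧ ∀ e : ℝ, 0 < e → e < e0 → 0 < s * (a + e * b) := by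
  have hb : 0 ≤ |s * b| := abs_nonneg _
  refine ⟨s * a / (1 + |s * b|), by positivity, fun e he he0 => ?_⟩
  rw [lt_div_iff₀ (by positivity)] at he0
  have h1 : -(e * |s * b|) ≤ e * (s * b) := by
    have := neg_abs_le (s * b)
    nlinarith
  nlinarith

private theorem neg_pert {s a : ℝ} (b : ℝ) (h : s * a < 0) :
    ∃ e0 : ℝ, 0 < e0 ∧ ∀ e : ℝ, 0 < e → e < e0 → s * (a + e * b) < 0 := by
  have h1 : 0 < (-s) * a := by linarith
  obtain ⟨e0, h0, he⟩ := pos_pert b h1
  refine ⟨e0, h0, fun e h2 h3 => ?_⟩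
  have := he e h2 h3
  linarith

private theorem ivt {G : ℝ → ℝ} (hG : Continuous G) {a b s : ℝ} (hab : a < b)
    (ha : 0 < s * G a) (hb : s * G b < 0) : ∃ r, a < r ∧ r < b ∧ G r = 0 := by
  have hc : ContinuousOn (fun t => s * G t) (Set.Icc a b) :=
    (continuous_const.mul hG).continuousOn
  obtain ⟨r, hr, h0⟩ := intermediate_value_Ioo' hab.le hc ⟨hb, ha⟩
  refine ⟨r, hr.1, hr.2, ?_⟩
  rcases mul_eq_zero.1 h0 with h1 | h1
  · rw [h1, zero_mul] at ha
    exact absurd ha (lt_irrefl _)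
  · exact h1

private theorem ivt' {G : ℝ → ℝ} (hG : Continuous G) {a b s : ℝ} (hab : a < b)
    (ha : s * G a < 0) (hb : 0 < s * G b) : ∃ r, a < r ∧ r < b ∧ G r = 0 :=
  ivt (s := -s) hG hab (by linarith) (by linarith)

private theorem Loop.ne {f fx fy : ℝ × ℝ → ℝ} {x y : ℝ → ℝ} {T : ℝ} {k : ℤ}
    (hl : Loop f fx fy x y T k) {r s : ℝ} (h1 : r < s) (h2 : s < r + T) :
    E (x r, y r) ≠ E (x s, y s) := by
  intro h
  obtain ⟨n, hn⟩ := hl.inj s r h.symm
  have hT := hl.T_pos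
  have h3 : (0 : ℝ) < n * T := by rw [← hn]; linarith
  have h4 : (n : ℝ) * T < 1 * T := by rw [← hn]; linarith
  have h5 : (0 : ℝ) < n := by
    by_contra hc
    nlinarith [not_lt.1 hc]
  have h6 : (n : ℝ) < 1 := lt_of_mul_lt_mul_right h4 hT.le
  have h7 : 0 < n := by exact_mod_cast h5
  have h8 : n < 1 := by exact_mod_cast h6
  omega

private theorem Loop.cont {f fx fy : ℝ × ℝ → ℝ} {x y : ℝ → ℝ} {T : ℝ} {k : ℤ}
    (hl : Loop f fx fy x y T k) : Continuous fun t => E (x t, y t) := by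
  have hx : Continuous x := continuous_iff_continuousAt.2 fun t => (hl.hx t).continuousAt
  have hy : Continuous y := continuous_iff_continuousAt.2 fun t => (hl.hy t).continuousAt
  exact cont_E.comp (hx.prodMk hy)

private theorem Loop.per {f fx fy : ℝ × ℝ → ℝ} {x y : ℝ → ℝ} {T : ℝ} {k : ℤ}
    (hl : Loop f fx fy x y T k) (t : ℝ) : E (x (t + T), y (t + T)) = E (x t, y t) := by
  rw [hl.perx, hl.pery, per_E]

theorem rob4 {f fx fy fyy : ℝ × ℝ → ℝ} {x y : ℝ → ℝ} {T : ℝ} {k : ℤ} (hl : Loop f fx fy x y T k)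
    (V2 : ℂ → ℝ) (hV : Continuous V2) (hV2 : ∀ z, V2 (E z) = fyy z)
    (t0 t1 t2 t3 σ : ℝ) (h01 : t0 < t1) (h12 : t1 < t2) (h23 : t2 < t3) (h30 : t3 < t0 + T)
    (s0 : 0 < σ * fyy (x t0, y t0)) (s1 : σ * fyy (x t1, y t1) < 0)
    (s2 : 0 < σ * fyy (x t2, y t2)) (s3 : σ * fyy (x t3, y t3) < 0) :
    Rob 4 (Set.range (fun t => E (x t, y t))) V2 := by
  intro V1 hV1
  rw [← hV2] at s0 s1 s2 s3
  obtain ⟨e0, he0, p0⟩ := pos_pert (V1 (E (x t0, y t0))) s0
  obtain ⟨e1, he1, p1⟩ := neg_pert (V1 (E (x t1, y t1))) s1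
  obtain ⟨e2, he2, p2⟩ := pos_pert (V1 (E (x t2, y t2))) s2
  obtain ⟨e3, he3, p3⟩ := neg_pert (V1 (E (x t3, y t3))) s3
  refine ⟨min (min e0 e1) (min e2 e3), lt_min (lt_min he0 he1) (lt_min he2 he3),
    fun e he hlt => ?_⟩
  have hG : Continuous fun t => V2 (E (x t, y t)) + e * V1 (E (x t, y t)) :=
    (hV.comp hl.cont).add (continuous_const.mul (hV1.comp hl.cont))
  have q0 := p0 e he (lt_of_lt_of_le hlt ((min_le_left _ _).trans (min_le_left _ _)))
  have q1 := p1 e he (lt_of_lt_of_le hlt ((min_le_left _ _).trans (min_le_right _ _)))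
  have q2 := p2 e he (lt_of_lt_of_le hlt ((min_le_right _ _).trans (min_le_left _ _)))
  have q3 := p3 e he (lt_of_lt_of_le hlt ((min_le_right _ _).trans (min_le_right _ _)))
  have q4 : 0 < σ * (V2 (E (x (t0 + T), y (t0 + T))) + e * V1 (E (x (t0 + T), y (t0 + T)))) := by
    rw [hl.per]
    exact q0
  obtain ⟨r1, a1, b1, z1⟩ := ivt hG h01 q0 q1
  obtain ⟨r2, a2, b2, z2⟩ := ivt' hG h12 q1 q2
  obtain ⟨r3, a3, b3, z3⟩ := ivt hG h23 q2 q3
  obtain ⟨r4, a4, b4, z4⟩ := ivt' hG h30 q3 q4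
  have n12 := hl.ne (r := r1) (s := r2) (by linarith) (by linarith)
  have n13 := hl.ne (r := r1) (s := r3) (by linarith) (by linarith)
  have n14 := hl.ne (r := r1) (s := r4) (by linarith) (by linarith)
  have n23 := hl.ne (r := r2) (s := r3) (by linarith) (by linarith)
  have n24 := hl.ne (r := r2) (s := r4) (by linarith) (by linarith)
  have n34 := hl.ne (r := r3) (s := r4) (by linarith) (by linarith)
  refine ⟨{E (x r1, y r1), E (x r2, y r2), E (x r3, y r3), E (x r4, y r4)}, ?_, ?_⟩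
  · rw [Finset.card_insert_of_notMem, Finset.card_insert_of_notMem,
      Finset.card_insert_of_notMem, Finset.card_singleton]
    · rw [Finset.mem_singleton]
      exact n34
    · rw [Finset.mem_insert, Finset.mem_singleton]
      rintro (h | h)
      · exact n23 h
      · exact n24 h
    · rw [Finset.mem_insert, Finset.mem_insert, Finset.mem_singleton]
      rintro (h | h | h)
      · exact n12 h
      · exact n13 h
      · exact n14 h
  · intro w hw
    rw [Finset.mem_insert, Finset.mem_insert, Finset.mem_insert, Finset.mem_singleton] at hw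
    rcases hw with rfl | rfl | rfl | rfl
    · exact ⟨⟨r1, rfl⟩, z1⟩
    · exact ⟨⟨r2, rfl⟩, z2⟩
    · exact ⟨⟨r3, rfl⟩, z3⟩
    · exact ⟨⟨r4, rfl⟩, z4⟩

theorem rob2 {f fx fy fyy : ℝ × ℝ → ℝ} {x y : ℝ → ℝ} {T : ℝ} {k : ℤ} (hl : Loop f fx fy x y T k)
    (V2 : ℂ → ℝ) (hV : Continuous V2) (hV2 : ∀ z, V2 (E z) = fyy z)
    (t0 t1 σ : ℝ) (h01 : t0 < t1) (h10 : t1 < t0 + T)
    (s0 : 0 < σ * fyy (x t0, y t0)) (s1 : σ * fyy (x t1, y t1) < 0) :
    Rob 2 (Set.range (fun t => E (x t, y t))) V2 := by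
  intro V1 hV1
  rw [← hV2] at s0 s1
  obtain ⟨e0, he0, p0⟩ := pos_pert (V1 (E (x t0, y t0))) s0
  obtain ⟨e1, he1, p1⟩ := neg_pert (V1 (E (x t1, y t1))) s1
  refine ⟨min e0 e1, lt_min he0 he1, fun e he hlt => ?_⟩
  have hG : Continuous fun t => V2 (E (x t, y t)) + e * V1 (E (x t, y t)) :=
    (hV.comp hl.cont).add (continuous_const.mul (hV1.comp hl.cont))
  have q0 := p0 e he (lt_of_lt_of_le hlt (min_le_left _ _))
  have q1 := p1 e he (lt_of_lt_of_le hlt (min_le_right _ _))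
  have q4 : 0 < σ * (V2 (E (x (t0 + T), y (t0 + T))) + e * V1 (E (x (t0 + T), y (t0 + T)))) := by
    rw [hl.per]
    exact q0
  obtain ⟨r1, a1, b1, z1⟩ := ivt hG h01 q0 q1
  obtain ⟨r2, a2, b2, z2⟩ := ivt' hG h10 q1 q4
  have n12 := hl.ne (r := r1) (s := r2) (by linarith) (by linarith)
  refine ⟨{E (x r1, y r1), E (x r2, y r2)}, ?_, ?_⟩
  · rw [Finset.card_insert_of_notMem, Finset.card_singleton]
    rw [Finset.mem_singleton]
    exact n12
  · intro w hw
    rw [Finset.mem_insert, Finset.mem_singleton] at hw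
    rcases hw with rfl | rfl
    · exact ⟨⟨r1, rfl⟩, z1⟩
    · exact ⟨⟨r2, rfl⟩, z2⟩

end Pool.Agent.OVL
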