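import Pool.Agent.OVL.Defs

/-!
# Project OVL, module Side: a point with nonzero derivative is `Good`

PLAN. `L ≠ 0`: choose `e : ℂ` with `L e > 0`, `‖e‖ = 1` (normalise). Let `c = L e / 2 > 0`. By strict differentiability (`HasStrictFDerivAt.isLittleO` or `hL.eventually_...`) there is `r > 0` with `|V a - V b - L (a - b)| ≤ c ‖a - b‖` for
`a, b` in the ball `B(q, 2 r)`. So for `a ∈ B(q, r)` and `0 < s ≤ r`: `V (a + s e) ≥ V a + c s`, `V (a - s e) ≤ V a - c s`. Choose `0 < r' ≤ r / 2` with `|V| < c r / 2` on `B(q, r')` (continuity, `V q = 0`). `O = B(q, r')`.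
`q₊ = q + (r/2) e`, the ball `B(q₊, r')` is in `{V > 0}` (`V (a + (r/2) e) ≥ V a + c r / 2 > 0`), it is convex, so it lies in one component `P := mk ⟨q₊, _⟩`. If `z ∈ O` and `V z > 0`, the segment from `z` to `z + (r/2) e` lies in `{V > 0}` and ends
in `B(q₊, r')`; so `z ∈ cset V P` (a preconnected subset of `{V ≠ 0}` containing `z` and `q₊`: union of the segment and the ball; transfer to the subtype `{w // V w ≠ 0}` with
`IsPreconnected` of the preimage (`IsPreconnected.preimage_of_isOpenMap` or `Subtype.preconnectedSpace` / `isPreconnected_iff_...`), then `ConnectedComponents.coe_eq_coe'` and `IsPreconnected.subset_connectedComponent`). Same for `M`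
with `- e`. If `z ∈ O`, `V z = 0`, then `z + s e → z` as `s → 0+` and `V (z + s e) > 0`, `z + s e ∈ O` for small `s`, so `z ∈ closure (cset V P)`; same for `M`.
(`Cc`, `cset` are in `Pool/Agent/SHB/TDefs.lean`.)
-/

set_option autoImplicit false

namespace Pool.Agent.OVL

open Pool.Agent.SHB

private theorem mem_cset_of_preconn {V : ℂ → ℝ} {S : Set ℂ} (hS : IsPreconnected S)
    (h : ∀ z ∈ S, V z ≠ 0) {x y : ℂ} (hx : x ∈ S) (hy : y ∈ S) (hVx : V x ≠ 0) :
    y ∈ cset V (ConnectedComponents.mk (⟨x, hVx⟩ : {w : ℂ // V w ≠ 0})) := by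
  refine ⟨h y hy, ?_⟩
  rw [ConnectedComponents.coe_eq_coe']
  have h1 : IsPreconnected ((Subtype.val : {w : ℂ // V w ≠ 0} → ℂ) ⁻¹' S) := by
    have hi : Topology.IsInducing (Subtype.val : {w : ℂ // V w ≠ 0} → ℂ) :=
      Topology.IsInducing.subtypeVal
    rw [← hi.isPreconnected_image,
      Set.image_preimage_eq_of_subset (by
        intro z hz
        exact ⟨⟨z, h z hz⟩, rfl⟩)]
    exact hS
  exact h1.subset_connectedComponent (x := (⟨x, hVx⟩ : {w : ℂ // V w ≠ 0})) hx hy

private theorem one_side {V : ℂ → ℝ} {σ : ℝ} (hσ : |σ| = 1) {q e : ℂ} {r s0 : ℝ} (hr : 0 < r)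
    (hs0 : 0 < s0)
    (hinc : ∀ a ∈ Metric.ball q r, ∀ s : ℝ, 0 ≤ s → s ≤ s0 →
      σ * V a + s / 2 ≤ σ * V (a + s * e))
    (hsm : ∀ a ∈ Metric.ball q r, |V a| < s0 / 2) :
    ∃ P : Cc V, (∀ z ∈ Metric.ball q r, 0 < σ * V z → z ∈ cset V P) ∧
      (∀ z ∈ Metric.ball q r, V z = 0 → z ∈ closure (cset V P)) := by
  have hball : ∀ z ∈ Metric.ball (q + s0 * e) r, 0 < σ * V z := by
    intro z hz
    have h1 : z - s0 * e ∈ Metric.ball q r := by
      rw [Metric.mem_ball, dist_eq_norm] at hz ⊢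
      have : z - s0 * e - q = z - (q + s0 * e) := by ring
      rw [this]
      exact hz
    have h2 := hinc _ h1 s0 hs0.le le_rfl
    have h3 := hsm _ h1
    have h4 : z - s0 * e + s0 * e = z := by ring
    rw [h4] at h2
    have h5 : |σ * V (z - s0 * e)| < s0 / 2 := by
      rw [abs_mul, hσ, one_mul]
      exact h3
    have h6 := neg_abs_le (σ * V (z - s0 * e))
    linarith
  have hne : ∀ z : ℂ, 0 < σ * V z → V z ≠ 0 := by
    intro z hz h
    rw [h, mul_zero] at hz
    exact lt_irrefl _ hz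
  have hq : q + s0 * e ∈ Metric.ball (q + s0 * e) r := Metric.mem_ball_self hr
  have hPos : ∀ z ∈ Metric.ball q r, 0 < σ * V z →
      z ∈ cset V (ConnectedComponents.mk
        (⟨q + s0 * e, hne _ (hball _ hq)⟩ : {w : ℂ // V w ≠ 0})) := by
    intro z hz hVz
    have hz' : z + s0 * e ∈ Metric.ball (q + s0 * e) r := by
      rw [Metric.mem_ball, dist_eq_norm] at hz ⊢
      have : z + s0 * e - (q + s0 * e) = z - q := by ring
      rw [this]
      exact hz
    refine mem_cset_of_preconn (S := segment ℝ z (z + s0 * e) ∪ Metric.ball (q + s0 * e) r)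
      ?_ ?_ (Or.inr hq) (Or.inl (left_mem_segment ℝ _ _)) _
    · exact IsPreconnected.union (z + s0 * e) (right_mem_segment ℝ _ _) hz'
        (convex_segment _ _).isPreconnected (convex_ball _ _).isPreconnected
    · rintro w (hw | hw)
      · rw [segment_eq_image'] at hw
        obtain ⟨t, ht, rfl⟩ := hw
        have h1 : z + t • (z + s0 * e - z) = z + ((t * s0 : ℝ) : ℂ) * e := by
          rw [Complex.real_smul]
          push_cast
          ring
        show V (z + t • (z + s0 * e - z)) ≠ 0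
        rw [h1]
        refine hne _ ?_
        have h2 : 0 ≤ t * s0 := mul_nonneg ht.1 hs0.le
        have h3 := hinc z hz (t * s0) h2 (mul_le_of_le_one_left hs0.le ht.2)
        linarith
      · exact hne _ (hball w hw)
  refine ⟨_, hPos, fun z hz hVz => ?_⟩
  have ht : Filter.Tendsto (fun s : ℝ => z + (s : ℂ) * e) (nhdsWithin 0 (Set.Ioi 0)) (nhds z) := by
    have h1 : Continuous fun s : ℝ => z + (s : ℂ) * e := by fun_prop
    have h2 := h1.tendsto 0
    simp only [Complex.ofReal_zero, zero_mul, add_zero] at h2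
    exact h2.mono_left nhdsWithin_le_nhds
  refine mem_closure_of_tendsto ht ?_
  have h1 := ht.eventually (Metric.isOpen_ball.mem_nhds hz)
  have h2 : ∀ᶠ s : ℝ in nhdsWithin 0 (Set.Ioi 0), 0 < s := self_mem_nhdsWithin
  have h3 : ∀ᶠ s : ℝ in nhdsWithin 0 (Set.Ioi 0), s < s0 :=
    (Filter.Tendsto.eventually_lt_const hs0 Filter.tendsto_id).filter_mono nhdsWithin_le_nhds
  filter_upwards [h1, h2, h3] with s h4 h5 h6
  refine hPos _ h4 ?_
  have h7 := hinc z hz s h5.le h6.le
  rw [hVz, mul_zero] at h7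
  linarith

theorem good_of_strict (V : ℂ → ℝ) (hV : Continuous V) (q : ℂ) (hq : V q = 0) (L : ℂ →L[ℝ] ℝ)
    (hL0 : L ≠ 0) (hL : HasStrictFDerivAt V L q) : Good V q := by
  obtain ⟨e, he⟩ : ∃ e : ℂ, L e = 1 := by
    obtain ⟨v, hv⟩ : ∃ v, L v ≠ 0 := by
      by_contra hcon
      push Not at hcon
      exact hL0 (ContinuousLinearMap.ext hcon)
    refine ⟨(L v)⁻¹ • v, ?_⟩
    rw [map_smul, smul_eq_mul, inv_mul_cancel₀ hv]
  have hN : 0 < ‖e‖ := by
    rw [norm_pos_iff]
    rintro rfl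
    rw [map_zero] at he
    exact zero_ne_one he
  have hc : 0 < 1 / (2 * ‖e‖) := by positivity
  obtain ⟨ρ, hρ, hst⟩ := Metric.eventually_nhds_iff.1 (hL.isLittleO.def hc)
  have hst2 : ∀ a b : ℂ, dist a q < ρ → dist b q < ρ →
      |V a - V b - L (a - b)| ≤ 1 / (2 * ‖e‖) * ‖a - b‖ := by
    intro a b ha hb
    exact hst (y := (a, b)) (max_lt ha hb)
  obtain ⟨s0, hs0⟩ : ∃ s0 : ℝ, s0 = ρ / (4 * ‖e‖) := ⟨_, rfl⟩
  have hs0p : 0 < s0 := by
    rw [hs0]
    positivity
  obtain ⟨r1, hr1, hsm⟩ := Metric.continuousAt_iff.1 hV.continuousAt (s0 / 2) (half_pos hs0p)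
  obtain ⟨r, hr⟩ : ∃ r : ℝ, r = min r1 (ρ / 2) := ⟨_, rfl⟩
  have hrp : 0 < r := by
    rw [hr]
    exact lt_min hr1 (half_pos hρ)
  have hrr : r ≤ r1 := by
    rw [hr]
    exact min_le_left _ _
  have hrρ : r ≤ ρ / 2 := by
    rw [hr]
    exact min_le_right _ _
  have hsmall : ∀ a ∈ Metric.ball q r, |V a| < s0 / 2 := by
    intro a ha
    have h1 := hsm (lt_of_lt_of_le (Metric.mem_ball.1 ha) hrr)
    rw [hq, Real.dist_eq, sub_zero] at h1
    exact h1
  have key : ∀ a ∈ Metric.ball q r, ∀ t : ℝ, |t| ≤ s0 →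
      |V (a + t * e) - V a - t| ≤ |t| / 2 := by
    intro a ha t ht
    have ha1 : dist a q < r := Metric.mem_ball.1 ha
    have h1 : dist a q < ρ := by linarith
    have hnt : ‖(t : ℂ) * e‖ = |t| * ‖e‖ := by
      rw [norm_mul, Complex.norm_real, Real.norm_eq_abs]
    have h2 : dist (a + t * e) q < ρ := by
      have h3 : dist (a + t * e) q ≤ dist (a + t * e) a + dist a q := dist_triangle _ _ _
      have h4 : dist (a + t * e) a = |t| * ‖e‖ := by
        rw [dist_eq_norm, add_sub_cancel_left, hnt]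
      have h5 : |t| * ‖e‖ ≤ ρ / 4 := by
        have h6 : |t| * ‖e‖ ≤ s0 * ‖e‖ := mul_le_mul_of_nonneg_right ht hN.le
        have h7 : s0 * ‖e‖ = ρ / 4 := by
          rw [hs0]
          field_simp
        linarith
      linarith
    have h3 := hst2 _ _ h2 h1
    have h4 : a + t * e - a = t • e := by
      rw [Complex.real_smul, add_sub_cancel_left]
    rw [h4, map_smul, he, smul_eq_mul, mul_one, norm_smul, Real.norm_eq_abs] at h3
    refine h3.trans (le_of_eq ?_)
    field_simp
  obtain ⟨P, hP1, hP2⟩ := one_side (V := V) (σ := 1) (by norm_num) (q := q) (e := e) (r := r)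
    (s0 := s0) hrp hs0p (by
      intro a ha t h0 h1
      have h2 := key a ha t (by rw [abs_of_nonneg h0]; exact h1)
      rw [abs_of_nonneg h0] at h2
      have h3 := (abs_le.1 h2).1
      linarith) hsmall
  obtain ⟨M, hM1, hM2⟩ := one_side (V := V) (σ := -1) (by norm_num) (q := q) (e := -e) (r := r)
    (s0 := s0) hrp hs0p (by
      intro a ha t h0 h1
      have h2 := key a ha (-t) (by rw [abs_neg, abs_of_nonneg h0]; exact h1)
      rw [abs_neg, abs_of_nonneg h0] at h2
      have h3 := (abs_le.1 h2).2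
      have h4 : a + ((-t : ℝ) : ℂ) * e = a + (t : ℂ) * -e := by
        push_cast
        ring
      rw [h4] at h3
      linarith) hsmall
  refine ⟨Metric.ball q r, Metric.isOpen_ball, Metric.mem_ball_self hrp, P, M, ?_, ?_, ?_⟩
  · intro z hz hVz
    exact hP1 z hz (by linarith)
  · intro z hz hVz
    exact hM1 z hz (by linarith)
  · intro z hz hVz
    exact ⟨hP2 z hz hVz, hM2 z hz hVz⟩

end Pool.Agent.OVL
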