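import Pool.Agent.OVL.Cross

/-!
# Project OVL, module Ord: the four extreme points alternate along a simple closed curve

`x' n = x' s = 0` and `y' w = y' e = 0`, so `s ≠ w`, `s ≠ e`. If `w, e < s`, the arcs over `[s, n + T]` and over the interval
between `w` and `e` meet (`cross_joined`), at times whose difference lies in `(0, T)`; likewise for `w, e > s` with `[n, s]`.
-/

set_option autoImplicit false

namespace Pool.Agent.OVL

private theorem joined_between (x y : ℝ → ℝ) (hx : Continuous x) (hy : Continuous y) (p q : ℝ) :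
    JoinedIn ((fun t => (x t, y t)) '' Set.uIcc p q) (x p, y p) (x q, y q) := by
  rcases le_total p q with h | h
  · exact joined_arc _ x y hx hy p q h (fun r hr => ⟨r, by rwa [Set.uIcc_of_le h], rfl⟩)
  · have h1 := joined_arc ((fun t => (x t, y t)) '' Set.uIcc p q) x y hx hy q p h
      (fun r hr => ⟨r, by rwa [Set.uIcc_of_ge h], rfl⟩)
    exact h1.symm

private theorem no_int {T : ℝ} (hT : 0 < T) (k : ℤ) (h1 : 0 < (k : ℝ) * T)
    (h2 : (k : ℝ) * T < T) : False := by
  have h3 : (0 : ℝ) < k := by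
    by_contra h
    push Not at h
    nlinarith
  have h4 : (k : ℝ) < 1 := by
    by_contra h
    push Not at h
    nlinarith
  have h5 : (0 : ℤ) < k := by exact_mod_cast h3
  have h6 : k < 1 := by exact_mod_cast h4
  omega

/-- two arcs joining opposite extreme points meet -/
private theorem meet {x y : ℝ → ℝ} (hx : Continuous x) (hy : Continuous y) (n s w e p q : ℝ)
    (hn : ∀ t, x n ≤ x t) (hs : ∀ t, x t ≤ x s) (hw : ∀ t, y w ≤ y t) (he : ∀ t, y t ≤ y e)
    (hpx : x p = x n) (hqx : x q = x s) :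
    ∃ r ∈ Set.uIcc p q, ∃ r' ∈ Set.uIcc w e, x r = x r' ∧ y r = y r' := by
  obtain ⟨z, ⟨r, hr, hrz⟩, ⟨r', hr', hrz'⟩⟩ := cross_joined _ _ _ _ _ _
    (joined_between x y hx hy p q) (joined_between x y hx hy w e)
    (by
      rintro _ ⟨t, -, rfl⟩
      exact ⟨hw t, he t⟩)
    (by
      rintro _ ⟨t, -, rfl⟩
      refine ⟨?_, ?_⟩
      · show x p ≤ x t
        rw [hpx]
        exact hn t
      · show x t ≤ x q
        rw [hqx]
        exact hs t)
  have h := hrz.trans hrz'.symm
  exact ⟨r, hr, r', hr', congrArg Prod.fst h, congrArg Prod.snd h⟩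

theorem JC.order {x y x' y' : ℝ → ℝ} {T : ℝ} (h : JC x y x' y' T) (n s w e : ℝ)
    (hn : ∀ t, x n ≤ x t) (hs : ∀ t, x t ≤ x s) (hw : ∀ t, y w ≤ y t) (he : ∀ t, y t ≤ y e)
    (hs1 : n < s) (hs2 : s < n + T) (hw1 : n < w) (hw2 : w < n + T) (he1 : n < e)
    (he2 : e < n + T) : (w < s ∧ s < e) ∨ (e < s ∧ s < w) := by
  have hxc : Continuous x := continuous_iff_continuousAt.2 fun t => (h.hx t).continuousAt
  have hyc : Continuous y := continuous_iff_continuousAt.2 fun t => (h.hy t).continuousAt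
  have hxs : x' s = 0 :=
    IsLocalMax.hasDerivAt_eq_zero (Filter.Eventually.of_forall fun t => hs t) (h.hx s)
  have hyw : y' w = 0 :=
    IsLocalMin.hasDerivAt_eq_zero (Filter.Eventually.of_forall fun t => hw t) (h.hy w)
  have hye : y' e = 0 :=
    IsLocalMax.hasDerivAt_eq_zero (Filter.Eventually.of_forall fun t => he t) (h.hy e)
  have hws : w ≠ s := by
    intro hh
    rw [hh] at hyw
    rcases h.reg s with h1 | h1
    · exact h1 hxs
    · exact h1 hyw
  have hes : e ≠ s := by
    intro hh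
    rw [hh] at hye
    rcases h.reg s with h1 | h1
    · exact h1 hxs
    · exact h1 hye
  rcases lt_or_gt_of_ne hws with h1 | h1 <;> rcases lt_or_gt_of_ne hes with h2 | h2
  · exfalso
    obtain ⟨r, hr, r', hr', e1, e2⟩ := meet hxc hyc n s w e (n + T) s hn hs hw he
      (h.perx n) rfl
    obtain ⟨k, hk⟩ := h.inj r r' e1 e2
    have hr1 : s ≤ r ∧ r ≤ n + T := by
      rcases Set.mem_uIcc.1 hr with h3 | h3
      · exact ⟨by linarith, by linarith⟩
      · exact h3
    have hr2 : n < r' ∧ r' < s := by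
      rcases Set.mem_uIcc.1 hr' with h3 | h3
      · exact ⟨by linarith, by linarith⟩
      · exact ⟨by linarith, by linarith⟩
    refine no_int h.T_pos k ?_ ?_
    · rw [← hk]
      linarith [hr1.1, hr2.2]
    · rw [← hk]
      linarith [hr1.2, hr2.1]
  · exact Or.inl ⟨h1, h2⟩
  · exact Or.inr ⟨h2, h1⟩
  · exfalso
    obtain ⟨r, hr, r', hr', e1, e2⟩ := meet hxc hyc n s w e n s hn hs hw he rfl rfl
    obtain ⟨k, hk⟩ := h.inj r' r e1.symm e2.symm
    have hr1 : n ≤ r ∧ r ≤ s := by
      rcases Set.mem_uIcc.1 hr with h3 | h3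
      · exact h3
      · exact ⟨by linarith, by linarith⟩
    have hr2 : s < r' ∧ r' < n + T := by
      rcases Set.mem_uIcc.1 hr' with h3 | h3
      · exact ⟨by linarith, by linarith⟩
      · exact ⟨by linarith, by linarith⟩
    refine no_int h.T_pos k ?_ ?_
    · rw [← hk]
      linarith [hr1.2, hr2.1]
    · rw [← hk]
      linarith [hr1.1, hr2.2]

end Pool.Agent.OVL
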