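import Pool.Agent.OVL.SenA

/-!
# Project OVL, module SenB: the turning senses at the four extreme points agree

Reflections and time reversal transport the statement `JC.sense_neg` on the leftmost and the lowest point
of a simple closed `C^1` curve to the other pairs of extreme points.
-/

set_option autoImplicit false

namespace Pool.Agent.OVL

private theorem reflX {x y x' y' : ℝ → ℝ} {T : ℝ} (h : JC x y x' y' T) :
    JC (fun t => -x t) y (fun t => -x' t) y' T where
  T_pos := h.T_pos
  hx := fun t => (h.hx t).neg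
  hy := h.hy
  cx := h.cx.neg
  cy := h.cy
  perx := fun t => by rw [h.perx]
  pery := h.pery
  reg := fun t => by
    rcases h.reg t with h1 | h1
    · exact Or.inl (neg_ne_zero.2 h1)
    · exact Or.inr h1
  inj := fun s t h1 h2 => h.inj s t (neg_injective h1) h2

private theorem reflY {x y x' y' : ℝ → ℝ} {T : ℝ} (h : JC x y x' y' T) :
    JC x (fun t => -y t) x' (fun t => -y' t) T where
  T_pos := h.T_pos
  hx := h.hx
  hy := fun t => (h.hy t).neg
  cx := h.cx
  cy := h.cy.neg
  perx := h.perx
  pery := fun t => by rw [h.pery]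
  reg := fun t => by
    rcases h.reg t with h1 | h1
    · exact Or.inl h1
    · exact Or.inr (neg_ne_zero.2 h1)
  inj := fun s t h1 h2 => h.inj s t h1 (neg_injective h2)

private theorem derivNeg {f f' : ℝ → ℝ} (h : ∀ t, HasDerivAt f (f' t) t) (t : ℝ) :
    HasDerivAt (fun s => f (-s)) (-f' (-t)) t := by
  have h1 := (h (-t)).comp t (hasDerivAt_neg t)
  have h2 : f' (-t) * -1 = -f' (-t) := by ring
  rw [h2] at h1
  exact h1

private theorem rev {x y x' y' : ℝ → ℝ} {T : ℝ} (h : JC x y x' y' T) :
    JC (fun t => x (-t)) (fun t => y (-t)) (fun t => -x' (-t)) (fun t => -y' (-t)) T where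
  T_pos := h.T_pos
  hx := derivNeg h.hx
  hy := derivNeg h.hy
  cx := (h.cx.comp continuous_neg).neg
  cy := (h.cy.comp continuous_neg).neg
  perx := fun t => by
    have h1 := h.perx (-(t + T))
    rw [show -(t + T) + T = -t by ring] at h1
    exact h1.symm
  pery := fun t => by
    have h1 := h.pery (-(t + T))
    rw [show -(t + T) + T = -t by ring] at h1
    exact h1.symm
  reg := fun t => by
    rcases h.reg (-t) with h1 | h1
    · exact Or.inl (neg_ne_zero.2 h1)
    · exact Or.inr (neg_ne_zero.2 h1)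
  inj := fun s t h1 h2 => by
    obtain ⟨n, hn⟩ := h.inj (-s) (-t) h1 h2
    refine ⟨-n, ?_⟩
    push_cast
    linarith

private theorem derivZero {f f' : ℝ → ℝ} (h : ∀ t, HasDerivAt f (f' t) t) {n : ℝ}
    (hn : ∀ t, f n ≤ f t) : f' n = 0 :=
  IsLocalMin.hasDerivAt_eq_zero (Filter.Eventually.of_forall hn) (h n)

theorem JC.sense {x y x' y' : ℝ → ℝ} {T : ℝ} (h : JC x y x' y' T) (n w : ℝ)
    (hn : ∀ t, x n ≤ x t) (hw : ∀ t, y w ≤ y t) : y' n * x' w < 0 := by
  have hxn : x' n = 0 := derivZero h.hx hn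
  have hyw : y' w = 0 := derivZero h.hy hw
  have hyn : y' n ≠ 0 := by
    rcases h.reg n with h1 | h1
    · exact absurd hxn h1
    · exact h1
  have hxw : x' w ≠ 0 := by
    rcases h.reg w with h1 | h1
    · exact h1
    · exact absurd hyw h1
  rcases lt_or_gt_of_ne hyn with h1 | h1 <;> rcases lt_or_gt_of_ne hxw with h2 | h2
  · exact (h.sense_neg n w hn hw h1 h2).elim
  · exact mul_neg_of_neg_of_pos h1 h2
  · exact mul_neg_of_pos_of_neg h1 h2
  · have h3 := rev h
    refine (h3.sense_neg (-n) (-w) (fun t => ?_) (fun t => ?_) ?_ ?_).elim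
    · simpa using hn (-t)
    · simpa using hw (-t)
    · simpa using h1
    · simpa using h2

theorem JC.sense_right {x y x' y' : ℝ → ℝ} {T : ℝ} (h : JC x y x' y' T) (s w : ℝ)
    (hs : ∀ t, x t ≤ x s) (hw : ∀ t, y w ≤ y t) : 0 < y' s * x' w := by
  have h1 := (reflX h).sense s w (fun t => neg_le_neg (hs t)) hw
  linarith

theorem JC.sense_top {x y x' y' : ℝ → ℝ} {T : ℝ} (h : JC x y x' y' T) (n e : ℝ)
    (hn : ∀ t, x n ≤ x t) (he : ∀ t, y t ≤ y e) : 0 < y' n * x' e := by
  have h1 := (reflY h).sense n e hn (fun t => neg_le_neg (he t))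
  linarith

end Pool.Agent.OVL
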