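import Pool.Agent.OVL.Near
import Pool.Agent.OVL.SenB
import Pool.Agent.OVL.Ord

/-!
# Project OVL, module Four: four alternating signs of `f_yy` on a nodal curve which is closed in the plane

The extreme points of the curve in the four directions alternate along the curve (`JC.order`) and the curve turns in the same sense at all of them;
near each of them `f_yy` takes a prescribed sign (`nearX`, `nearY`), and these signs alternate.
-/

set_option autoImplicit false

namespace Pool.Agent.OVL

/-- a simple closed curve from a loop which closes up in the plane -/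
private theorem four_jc {V : ℂ → ℝ} {f fx fy fxx fxy fyy : ℝ × ℝ → ℝ} (h : Cyl V f fx fy fxx fxy fyy)
    {x y : ℝ → ℝ} {T : ℝ} (hl : Loop f fx fy x y T 0) :
    JC x y (fun t => -(mu fx fy (x t, y t) * fy (x t, y t)))
      (fun t => mu fx fy (x t, y t) * fx (x t, y t)) T := by
  have hcx : Continuous x := continuous_iff_continuousAt.2 fun t => (hl.hx t).continuousAt
  have hcy : Continuous y := continuous_iff_continuousAt.2 fun t => (hl.hy t).continuousAt
  have hΓ : Continuous fun t => (x t, y t) := hcx.prodMk hcy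
  have hfx : Continuous fx := continuous_iff_continuousAt.2 fun z => (h.dx z).continuousAt
  have hfy : Continuous fy := continuous_iff_continuousAt.2 fun z => (h.dy z).continuousAt
  have hmu : Continuous (mu fx fy) := by
    unfold mu
    refine continuous_const.div ((continuous_const.add (hfx.pow 2)).add (hfy.pow 2)) ?_
    intro z
    positivity
  refine ⟨hl.T_pos, hl.hx, hl.hy, ?_, ?_, hl.perx, ?_, ?_, ?_⟩
  · exact ((hmu.comp hΓ).mul (hfy.comp hΓ)).neg
  · exact (hmu.comp hΓ).mul (hfx.comp hΓ)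
  · intro t
    have := hl.pery t
    simpa using this
  · intro t
    have hm : mu fx fy (x t, y t) ≠ 0 := by
      unfold mu
      positivity
    rcases hl.reg t with h1 | h1
    · right
      exact mul_ne_zero hm h1
    · left
      exact neg_ne_zero.2 (mul_ne_zero hm h1)
  · intro s t h1 h2
    exact hl.inj s t (by rw [h1, h2])

private theorem four_max {g : ℝ → ℝ} (hc : Continuous g) {T : ℝ} (hT : 0 < T) (hp : ∀ t, g (t + T) = g t)
    (a : ℝ) : ∃ s ∈ Set.Ico a (a + T), ∀ t, g t ≤ g s := by
  have hper : Function.Periodic g T := hp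
  obtain ⟨s, -, hs⟩ := (isCompact_Icc (a := (0 : ℝ)) (b := T)).exists_isMaxOn ⟨0, by simp [hT.le]⟩ hc.continuousOn
  obtain ⟨s', hs', he⟩ := hper.exists_mem_Ico hT s a
  refine ⟨s', hs', fun t => ?_⟩
  obtain ⟨t', ht', he'⟩ := hper.exists_mem_Ico₀ hT t
  rw [← he, he']
  exact hs ⟨ht'.1, ht'.2.le⟩

private theorem four_min {g : ℝ → ℝ} (hc : Continuous g) {T : ℝ} (hT : 0 < T) (hp : ∀ t, g (t + T) = g t)
    (a : ℝ) : ∃ s ∈ Set.Ico a (a + T), ∀ t, g s ≤ g t := by
  obtain ⟨s, hs, h⟩ := four_max (g := fun t => -g t) hc.neg hT (fun t => by rw [hp]) a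
  exact ⟨s, hs, fun t => by have := h t; linarith⟩

private theorem four_dmin {g : ℝ → ℝ} {d n : ℝ} (hd : HasDerivAt g d n) (hn : ∀ t, g n ≤ g t) : d = 0 := by
  have h1 : IsLocalMin g n := Filter.Eventually.of_forall hn
  exact h1.hasDerivAt_eq_zero hd

private theorem four_dmax {g : ℝ → ℝ} {d n : ℝ} (hd : HasDerivAt g d n) (hn : ∀ t, g t ≤ g n) : d = 0 := by
  have h1 : IsLocalMax g n := Filter.Eventually.of_forall hn
  exact h1.hasDerivAt_eq_zero hd

private theorem four_pp {a b c : ℝ} (h1 : 0 < a * b) (h2 : 0 < b * c) : 0 < a * c := by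
  have h3 : 0 < (a * c) * b ^ 2 := by
    have := mul_pos h1 h2
    linarith [this, (by ring : (a * c) * b ^ 2 = a * b * (b * c))]
  exact pos_of_mul_pos_left h3 (sq_nonneg b)

theorem four {V : ℂ → ℝ} {f fx fy fxx fxy fyy : ℝ × ℝ → ℝ} (h : Cyl V f fx fy fxx fxy fyy)
    {x y : ℝ → ℝ} {T : ℝ} (hl : Loop f fx fy x y T 0) :
    ∃ t0 t1 t2 t3 σ : ℝ, t0 < t1 ∧ t1 < t2 ∧ t2 < t3 ∧ t3 < t0 + T ∧
      0 < σ * fyy (x t0, y t0) ∧ σ * fyy (x t1, y t1) < 0 ∧
      0 < σ * fyy (x t2, y t2) ∧ σ * fyy (x t3, y t3) < 0 := by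
  have hJ := four_jc h hl
  have hcx : Continuous x := continuous_iff_continuousAt.2 fun t => (hl.hx t).continuousAt
  have hcy : Continuous y := continuous_iff_continuousAt.2 fun t => (hl.hy t).continuousAt
  have hT := hl.T_pos
  obtain ⟨n, -, hn⟩ := four_min hcx hT hJ.perx 0
  obtain ⟨s, hsI, hs⟩ := four_max hcx hT hJ.perx n
  obtain ⟨w, hwI, hw⟩ := four_min hcy hT hJ.pery n
  obtain ⟨e, heI, he⟩ := four_max hcy hT hJ.pery n
  have dn := four_dmin (hJ.hx n) hn
  have dw := four_dmin (hJ.hy w) hw
  have de := four_dmax (hJ.hy e) he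
  have hsn : n ≠ s := by
    intro h1
    have h2 : ∀ t, x w ≤ x t := by
      intro t
      have h3 := hs w
      rw [← h1] at h3
      exact h3.trans (hn t)
    have h3 := four_dmin (hJ.hx w) h2
    rcases hJ.reg w with h4 | h4
    · exact h4 h3
    · exact h4 dw
  have hwn : n ≠ w := by
    intro h1
    subst h1
    rcases hJ.reg n with h4 | h4
    · exact h4 dn
    · exact h4 dw
  have hen : n ≠ e := by
    intro h1
    subst h1
    rcases hJ.reg n with h4 | h4
    · exact h4 dn
    · exact h4 de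
  have hs1 : n < s := lt_of_le_of_ne hsI.1 hsn
  have hw1 : n < w := lt_of_le_of_ne hwI.1 hwn
  have he1 : n < e := lt_of_le_of_ne heI.1 hen
  have hord := hJ.order n s w e hn hs hw he hs1 hsI.2 hw1 hwI.2 he1 heI.2
  have hmu : ∀ z, 0 < mu fx fy z := by
    intro z
    unfold mu
    positivity
  -- the signs
  have S1 : 0 < fx (x n, y n) * fy (x w, y w) := by
    have h1 := hJ.sense n w hn hw
    have h2 : 0 < (mu fx fy (x n, y n) * mu fx fy (x w, y w)) * (fx (x n, y n) * fy (x w, y w)) := by
      nlinarith [h1]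
    exact pos_of_mul_pos_right h2 (mul_pos (hmu _) (hmu _)).le
  have S2 : 0 < -(fx (x s, y s) * fy (x w, y w)) := by
    have h1 := hJ.sense_right s w hs hw
    have h2 : 0 < (mu fx fy (x s, y s) * mu fx fy (x w, y w)) * -(fx (x s, y s) * fy (x w, y w)) := by
      nlinarith [h1]
    exact pos_of_mul_pos_right h2 (mul_pos (hmu _) (hmu _)).le
  have S3 : 0 < -(fx (x n, y n) * fy (x e, y e)) := by
    have h1 := hJ.sense_top n e hn he
    have h2 : 0 < (mu fx fy (x n, y n) * mu fx fy (x e, y e)) * -(fx (x n, y n) * fy (x e, y e)) := by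
      nlinarith [h1]
    exact pos_of_mul_pos_right h2 (mul_pos (hmu _) (hmu _)).le
  obtain ⟨c, hcc, hpde⟩ := h.pde
  have key : ∀ η : ℝ, 0 < η → ∃ n' w' s' e' : ℝ, |n' - n| < η ∧ |w' - w| < η ∧ |s' - s| < η ∧ |e' - e| < η ∧
      0 < -fx (x n, y n) * fyy (x n', y n') ∧ -fx (x n, y n) * fyy (x w', y w') < 0 ∧
      0 < -fx (x n, y n) * fyy (x s', y s') ∧ -fx (x n, y n) * fyy (x e', y e') < 0 := by
    intro η hη
    obtain ⟨n', hn1, hn2⟩ := nearX h.toC2 hl.toFlow hl.zero hl.reg h.arc 1 (Or.inl rfl) n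
      (fun t => by simpa using hn t) η hη
    obtain ⟨s', hs1', hs2'⟩ := nearX h.toC2 hl.toFlow hl.zero hl.reg h.arc (-1) (Or.inr rfl) s
      (fun t => by have := hs t; linarith) η hη
    obtain ⟨w', hw1', hw2'⟩ := nearY h.toC2 hl.toFlow hl.zero hl.reg h.ray c hcc hpde 1 (Or.inl rfl) w
      (fun t => by simpa using hw t) η hη
    obtain ⟨e', he1', he2'⟩ := nearY h.toC2 hl.toFlow hl.zero hl.reg h.ray c hcc hpde (-1) (Or.inr rfl) e
      (fun t => by have := he t; linarith) η hη
    refine ⟨n', w', s', e', hn1, hw1', hs1', he1', ?_, ?_, ?_, ?_⟩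
    · linarith
    · have h1 : 0 < fy (x w, y w) * fyy (x w', y w') := by linarith
      have h2 := four_pp S1 h1
      linarith
    · -- fx n * fy w > 0, fy w * (- fx s) > 0, (- fx s) * (- fyy s') > 0
      have h1 : 0 < fy (x w, y w) * -fx (x s, y s) := by linarith
      have h2 := four_pp S1 h1
      have h3 : 0 < -fx (x s, y s) * -fyy (x s', y s') := by linarith
      have h4 := four_pp h2 h3
      linarith
    · have h1 : 0 < fx (x n, y n) * -fy (x e, y e) := by linarith
      have h2 : 0 < -fy (x e, y e) * fyy (x e', y e') := by linarith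
      have h3 := four_pp h1 h2
      linarith
  rcases hord with ⟨o1, o2⟩ | ⟨o1, o2⟩
  · obtain ⟨η, hη, g1, g2, g3, g4⟩ : ∃ η : ℝ, 0 < η ∧ 2 * η ≤ w - n ∧ 2 * η ≤ s - w ∧ 2 * η ≤ e - s ∧
        2 * η ≤ n + T - e := by
      refine ⟨min (min (w - n) (s - w)) (min (e - s) (n + T - e)) / 2, ?_, ?_, ?_, ?_, ?_⟩
      · have : 0 < min (min (w - n) (s - w)) (min (e - s) (n + T - e)) := by
          refine lt_min (lt_min ?_ ?_) (lt_min ?_ ?_)
          · linarith
          · linarith
          · linarith
          · linarith [heI.2]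
        linarith
      · have := (min_le_left (min (w - n) (s - w)) (min (e - s) (n + T - e))).trans (min_le_left _ _)
        linarith
      · have := (min_le_left (min (w - n) (s - w)) (min (e - s) (n + T - e))).trans (min_le_right _ _)
        linarith
      · have := (min_le_right (min (w - n) (s - w)) (min (e - s) (n + T - e))).trans (min_le_left _ _)
        linarith
      · have := (min_le_right (min (w - n) (s - w)) (min (e - s) (n + T - e))).trans (min_le_right _ _)
        linarith
    obtain ⟨n', w', s', e', a1, a2, a3, a4, b1, b2, b3, b4⟩ := key η hη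
    rw [abs_lt] at a1 a2 a3 a4
    refine ⟨n', w', s', e', -fx (x n, y n), ?_, ?_, ?_, ?_, b1, b2, b3, b4⟩
    · linarith
    · linarith
    · linarith
    · linarith
  · obtain ⟨η, hη, g1, g2, g3, g4⟩ : ∃ η : ℝ, 0 < η ∧ 2 * η ≤ e - n ∧ 2 * η ≤ s - e ∧ 2 * η ≤ w - s ∧
        2 * η ≤ n + T - w := by
      refine ⟨min (min (e - n) (s - e)) (min (w - s) (n + T - w)) / 2, ?_, ?_, ?_, ?_, ?_⟩
      · have : 0 < min (min (e - n) (s - e)) (min (w - s) (n + T - w)) := by
          refine lt_min (lt_min ?_ ?_) (lt_min ?_ ?_)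
          · linarith
          · linarith
          · linarith
          · linarith [hwI.2]
        linarith
      · have := (min_le_left (min (e - n) (s - e)) (min (w - s) (n + T - w))).trans (min_le_left _ _)
        linarith
      · have := (min_le_left (min (e - n) (s - e)) (min (w - s) (n + T - w))).trans (min_le_right _ _)
        linarith
      · have := (min_le_right (min (e - n) (s - e)) (min (w - s) (n + T - w))).trans (min_le_left _ _)
        linarith
      · have := (min_le_right (min (e - n) (s - e)) (min (w - s) (n + T - w))).trans (min_le_right _ _)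
        linarith
    obtain ⟨n', w', s', e', a1, a2, a3, a4, b1, b2, b3, b4⟩ := key η hη
    rw [abs_lt] at a1 a2 a3 a4
    refine ⟨n', e', s', w', -fx (x n, y n), ?_, ?_, ?_, ?_, b1, b4, b3, b2⟩
    · linarith
    · linarith
    · linarith
    · linarith

end Pool.Agent.OVL
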