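import Pool.Agent.OVL.Bz

/-!
# Project OVL, module CylU: the structure `Cyl` for a spherical harmonic; zeros on a line

PLAN. `line_card`: `Vf U (t e^{iθ}) = Re ∑_{i,j ≤ l} U_ij e^{iθ(i-j)} t^{i+j}` is a real polynomial in `t` of degree `≤ 2 l` with constant coefficient `Re U_00`; `RealP U` gives `U_00` real, so `Re U_00 ≠ 0`, the polynomial is not
zero and has at most `2 l` roots (`Polynomial.card_roots'`, `eval_eq_sum`). Statement with `c = e^{iθ}`, any complex number `c`: `Vf U (t c)`, the coefficient of `t^{i+j}` is `Re (U_ij c^i (conj c)^j)`.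
`cyl`: the `C2` part is `c2 U`; `V_cont`, `px`, `py` from `Fn`; `V_exp` is `rfl`; `V_zero`: `Vf U 0 = Re U_00 ≠ 0`; `pde` with `c z = 4 l ‖E z‖^2 / (1 + ‖E z‖^2)` (`pde_U`; continuous, denominator positive).
`bdd`: `V 0 ≠ 0` and continuity: `V w ≠ 0` for `‖w‖ < r0`, so zeros `w = E z` have `exp z.1 = ‖w‖ ≥ r0`. For large `‖w‖`: `U = ∑ U_ij X0^i X1^j`, `U_ll = (-1)^l U_00` (`hU.coeff_top`), real and `≠ 0`,
`|Vf U w| ≥ |U_ll| r^{2 l} - (∑ |U_ij|) r^{2 l - 1}` for `r = ‖w‖ ≥ 1`, which is positive for `r > (∑ |U_ij|) / |U_ll|`. So `r0 ≤ exp z.1 ≤ r1`, `|z.1| ≤ max |log r0| |log r1|`.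
`ray`: if `f (x, y) = 0` for all `x ∈ (a, b)` then `Vf U (t e^{iy}) = 0` for infinitely many real `t = e^x`: contradiction to `line_card` (with `c = e^{iy}`), take a finset of `2 l + 1` of them.
`arc`: if `f (x, y) = 0` for all `y ∈ (a, b)` then also `fn (Dy U) (x, y) = 0` there (derivative in `y`, `hasF`, of a function vanishing on an open interval), so `Vf U w = Vf (Dy U) w = 0` for infinitely many `w` on the circle of radius
`e^x` (`y ↦ E (x, y)` is injective on an interval of length `< 2 π`): contradiction to `zeros_card` with `W = Dy U`, `relprime_Dy`.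
-/

set_option autoImplicit false

namespace Pool.Agent.OVL

open MvPolynomial Pool.Agent.SHB

private lemma CylU_re00 {U : P2} (hR : RealP U) (h0 : coeff (ex 0 0) U ≠ 0) :
    (coeff (ex 0 0) U).re ≠ 0 := by
  intro h
  apply h0
  have h1 := hR 0 0
  rw [Complex.conj_eq_iff_im] at h1
  exact Complex.ext h h1

private noncomputable def CylU_poly (U : P2) (l : ℕ) (c : ℂ) : Polynomial ℝ :=
  ∑ i ∈ Finset.range (l + 1), ∑ j ∈ Finset.range (l + 1),
    Polynomial.C (coeff (ex i j) U * c ^ i * ((starRingEnd ℂ) c) ^ j).re * Polynomial.X ^ (i + j)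

private lemma CylU_poly_eval {l : ℕ} {U : P2} (h0 : degreeOf 0 U ≤ l) (h1 : degreeOf 1 U ≤ l) (c : ℂ)
    (t : ℝ) : (CylU_poly U l c).eval t = Vf U ((t : ℂ) * c) := by
  rw [Vf, eval_eq_sum h0 h1, CylU_poly, Polynomial.eval_finsetSum, Complex.re_sum]
  refine Finset.sum_congr rfl fun i _ => ?_
  rw [Polynomial.eval_finsetSum, Complex.re_sum]
  refine Finset.sum_congr rfl fun j _ => ?_
  rw [Polynomial.eval_mul, Polynomial.eval_C, Polynomial.eval_pow, Polynomial.eval_X]
  rw [map_mul, Complex.conj_ofReal]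
  have e : coeff (ex i j) U * ((t : ℂ) * c) ^ i * ((t : ℂ) * (starRingEnd ℂ) c) ^ j =
      ((t ^ (i + j) : ℝ) : ℂ) * (coeff (ex i j) U * c ^ i * ((starRingEnd ℂ) c) ^ j) := by
    push_cast
    ring
  rw [e, Complex.re_ofReal_mul]
  ring

private lemma CylU_poly_coeff_zero (U : P2) (l : ℕ) (c : ℂ) :
    (CylU_poly U l c).coeff 0 = (coeff (ex 0 0) U).re := by
  rw [CylU_poly, Polynomial.finsetSum_coeff]
  rw [Finset.sum_eq_single 0]
  · rw [Polynomial.finsetSum_coeff, Finset.sum_eq_single 0]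
    · simp
    · intro j _ hj
      rw [Polynomial.coeff_C_mul_X_pow, if_neg (by omega)]
    · intro h; simp at h
  · intro i _ hi
    rw [Polynomial.finsetSum_coeff]
    refine Finset.sum_eq_zero fun j _ => ?_
    rw [Polynomial.coeff_C_mul_X_pow, if_neg (by omega)]
  · intro h; simp at h

private lemma CylU_poly_deg (U : P2) (l : ℕ) (c : ℂ) : (CylU_poly U l c).natDegree ≤ 2 * l := by
  refine Polynomial.natDegree_sum_le_of_forall_le _ _ fun i hi => ?_
  refine Polynomial.natDegree_sum_le_of_forall_le _ _ fun j hj => ?_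
  rw [Finset.mem_range] at hi hj
  exact (Polynomial.natDegree_C_mul_X_pow_le _ _).trans (by omega)

theorem line_card {l : ℕ} {U : P2} (hU : Spin l U) (hR : RealP U)
    (h0 : coeff (ex 0 0) U ≠ 0) (c : ℂ) (S : Finset ℝ)
    (hS : ∀ t ∈ S, Vf U ((t : ℂ) * c) = 0) : S.card ≤ 2 * l := by
  have hp : CylU_poly U l c ≠ 0 := by
    intro h
    have h1 := CylU_poly_coeff_zero U l c
    rw [h, Polynomial.coeff_zero] at h1
    exact CylU_re00 hR h0 h1.symm
  refine le_trans ?_ (CylU_poly_deg U l c)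
  refine le_trans ?_ (Polynomial.card_roots' _)
  refine le_trans ?_ (Multiset.toFinset_card_le _)
  refine Finset.card_le_card fun t ht => ?_
  rw [Multiset.mem_toFinset, Polynomial.mem_roots hp, Polynomial.IsRoot,
    CylU_poly_eval hU.deg0 hU.deg1]
  exact hS t ht

private lemma CylU_normE (z : ℝ × ℝ) : ‖E z‖ = Real.exp z.1 := by
  rw [E, Complex.norm_exp]
  simp

private lemma CylU_E (x y : ℝ) : E (x, y) = ((Real.exp x : ℝ) : ℂ) * Complex.exp (y * Complex.I) := by
  rw [E, Complex.exp_add, Complex.ofReal_exp]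

private lemma CylU_cont_E : Continuous E := by
  unfold E
  fun_prop

private lemma CylU_bdd {l : ℕ} {U : P2} (hU : Spin l U) (hR : RealP U)
    (h0 : coeff (ex 0 0) U ≠ 0) (hV0 : Vf U 0 ≠ 0) :
    ∃ R : ℝ, ∀ z : ℝ × ℝ, fn U z = 0 → |z.1| ≤ R := by
  obtain ⟨r1, hr1, hlarge⟩ := Vf_large hU hR h0
  have h1 : ∀ᶠ w in nhds (0 : ℂ), Vf U w ≠ 0 :=
    (Vf_cont U).continuousAt.eventually_ne hV0
  obtain ⟨r0, hr0, hsmall⟩ := Metric.eventually_nhds_iff.1 h1
  refine ⟨max |Real.log r0| |Real.log r1|, fun z hz => ?_⟩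
  have hE := CylU_normE z
  have hz' : Vf U (E z) = 0 := hz
  have h2 : ‖E z‖ < r1 := by
    by_contra h
    exact hlarge _ (not_lt.1 h) hz'
  have h3 : r0 ≤ ‖E z‖ := by
    by_contra h
    refine hsmall ?_ hz'
    rw [dist_zero_right]
    exact not_le.1 h
  rw [hE] at h2 h3
  have h4 : z.1 ≤ Real.log r1 := by
    rw [Real.le_log_iff_exp_le hr1]; exact h2.le
  have h5 : Real.log r0 ≤ z.1 := by
    rw [Real.log_le_iff_le_exp hr0]; exact h3
  rw [abs_le]
  constructor
  · have := neg_abs_le (Real.log r0)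
    have := le_max_left |Real.log r0| |Real.log r1|
    linarith
  · exact h4.trans ((le_abs_self _).trans (le_max_right _ _))

private lemma CylU_ray {l : ℕ} {U : P2} (hU : Spin l U) (hR : RealP U)
    (h0 : coeff (ex 0 0) U ≠ 0) (a b y : ℝ) (hab : a < b) :
    ∃ x ∈ Set.Ioo a b, fn U (x, y) ≠ 0 := by
  by_contra hcon
  push Not at hcon
  obtain ⟨T, hT1, hT2⟩ := (Set.Ioo_infinite hab).exists_subset_card_eq (2 * l + 1)
  have h1 := line_card hU hR h0 (Complex.exp (y * Complex.I)) (T.image Real.exp) (by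
    intro t ht
    obtain ⟨x, hx, rfl⟩ := Finset.mem_image.1 ht
    have := hcon x (hT1 hx)
    rw [fn, CylU_E] at this
    exact this)
  rw [Finset.card_image_of_injective _ Real.exp_injective, hT2] at h1
  omega

private lemma CylU_E_inj {a b x : ℝ} (hab : b - a ≤ 2 * Real.pi) :
    Set.InjOn (fun y : ℝ => E (x, y)) (Set.Ioo a b) := by
  intro y hy y' hy' h
  simp only [E] at h
  rw [Complex.exp_eq_exp_iff_exists_int] at h
  obtain ⟨n, hn⟩ := h
  have him := congrArg Complex.im hn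
  simp at him
  have h2 : y - y' = n * (2 * Real.pi) := by linarith
  have hp := Real.pi_pos
  have h3 : |y - y'| < 2 * Real.pi := by
    rw [abs_lt]
    constructor <;> linarith [hy.1, hy.2, hy'.1, hy'.2]
  rw [h2, abs_mul, abs_of_pos (show 0 < 2 * Real.pi by positivity)] at h3
  have h4 : |(n : ℝ)| < 1 := by
    by_contra h
    have := mul_le_mul_of_nonneg_right (not_lt.1 h) (show 0 ≤ 2 * Real.pi by positivity)
    linarith
  have h5 : n = 0 := by
    have : |n| < 1 := by exact_mod_cast h4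
    exact Int.abs_lt_one_iff.1 this
  rw [h5] at h2
  simp at h2
  linarith

private lemma CylU_arc {l : ℕ} {U : P2} (hU : Spin l U) (hl : 1 ≤ l) (hR : RealP U)
    (h0 : coeff (ex 0 0) U ≠ 0) (h1 : coeff (ex 1 0) U ≠ 0) (a b x : ℝ) (hab : a < b) :
    ∃ y ∈ Set.Ioo a b, fn U (x, y) ≠ 0 := by
  by_contra hcon
  push Not at hcon
  have hp := Real.pi_pos
  set b' : ℝ := min b (a + Real.pi) with hb'
  have hab' : a < b' := lt_min hab (by linarith)
  have hsub : Set.Ioo a b' ⊆ Set.Ioo a b := fun y hy => ⟨hy.1, hy.2.trans_le (min_le_left _ _)⟩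
  have hder : ∀ y ∈ Set.Ioo a b, fn (Dy U) (x, y) = 0 := by
    intro y hy
    have h2 : HasDerivAt (fun t : ℝ => fn U (x, t)) (fn (Dy U) (x, y)) y := by
      have h3 := (hasF U (x, y)).comp_hasDerivAt y
        ((hasDerivAt_const y x).prodMk (hasDerivAt_id y))
      have h4 : fn U ∘ Prod.mk x = fun t : ℝ => fn U (x, t) := rfl
      have h5 : (lin (fn (Dx U) (x, y)) (fn (Dy U) (x, y))) ((0 : ℝ), (1 : ℝ)) =
          fn (Dy U) (x, y) := by simp [lin]
      rw [h5] at h3
      exact h3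
    have h4 : HasDerivAt (fun t : ℝ => fn U (x, t)) 0 y := by
      refine (hasDerivAt_const y (0 : ℝ)).congr_of_eventuallyEq ?_
      filter_upwards [Ioo_mem_nhds hy.1 hy.2] with t ht
      exact hcon t ht
    exact h2.unique h4
  obtain ⟨T, hT1, hT2⟩ := (Set.Ioo_infinite hab').exists_subset_card_eq (2 * l ^ 2 + 1)
  have hdeg := deg_Dy hU.deg0 hU.deg1
  have hinj : Set.InjOn (fun y : ℝ => E (x, y)) (Set.Ioo a b') := by
    apply CylU_E_inj
    have := min_le_right b (a + Real.pi)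
    linarith
  have h2 := zeros_card hU hR h0 (Dy U) hdeg.1 hdeg.2 (realP_Dy hR)
    (relprime_Dy hU hl hR h0 h1) (T.image fun y => E (x, y)) (by
      intro w hw
      obtain ⟨y, hy, rfl⟩ := Finset.mem_image.1 hw
      exact ⟨hcon y (hsub (hT1 hy)), hder y (hsub (hT1 hy))⟩)
  rw [Finset.card_image_of_injOn (hinj.mono hT1), hT2] at h2
  omega

theorem cyl {l : ℕ} {U : P2} (hU : Spin l U) (hl : 1 ≤ l) (hR : RealP U)
    (h0 : coeff (ex 0 0) U ≠ 0) (h1 : coeff (ex 1 0) U ≠ 0) :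
    Cyl (Vf U) (fn U) (fn (Dx U)) (fn (Dy U)) (fn (Dx (Dx U))) (fn (Dy (Dx U)))
      (fn (Dy (Dy U))) := by
  have hV0 : Vf U 0 ≠ 0 := by
    have h2 := CylU_poly_eval hU.deg0 hU.deg1 0 0
    rw [← Polynomial.coeff_zero_eq_eval_zero, CylU_poly_coeff_zero] at h2
    rw [mul_zero] at h2
    rw [← h2]
    exact CylU_re00 hR h0
  refine { toC2 := c2 U, V_cont := Vf_cont U, V_exp := fun z => rfl, V_zero := hV0,
           px := fn_per _, py := fn_per _, bdd := CylU_bdd hU hR h0 hV0, pde := ?_,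
           ray := CylU_ray hU hR h0, arc := CylU_arc hU hl hR h0 h1 }
  refine ⟨fun z => 4 * l * ‖E z‖ ^ 2 / (1 + ‖E z‖ ^ 2), ?_, fun z hz => pde_U hU z hz⟩
  refine Continuous.div (by have := CylU_cont_E; fun_prop) (by have := CylU_cont_E; fun_prop) fun z => by positivity

end Pool.Agent.OVL
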