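import Pool.Agent.OVL.Loc

/-!
# Project OVL, module LocE: near a regular point of the nodal set in the `w`-plane

The map `E z = exp (z.1 + i z.2)` is continuous, open and `2 π`-periodic in the second variable; the local statements on the zero set of `f` are
transported to the `w`-plane.
-/

set_option autoImplicit false

namespace Pool.Agent.OVL

theorem E_ne_zero (z : ℝ × ℝ) : E z ≠ 0 := Complex.exp_ne_zero _

theorem E_continuous : Continuous E := by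
  unfold E
  fun_prop

theorem E_eq_iff (z z' : ℝ × ℝ) :
    E z = E z' ↔ z.1 = z'.1 ∧ ∃ n : ℤ, z.2 = z'.2 + 2 * Real.pi * n := by
  unfold E
  rw [Complex.exp_eq_exp_iff_exists_int]
  constructor
  · rintro ⟨n, hn⟩
    have h1 := congrArg Complex.re hn
    have h2 := congrArg Complex.im hn
    simp at h1 h2
    refine ⟨h1, n, ?_⟩
    linarith
  · rintro ⟨h1, n, h2⟩
    refine ⟨n, ?_⟩
    rw [h1, h2]
    push_cast
    ring

theorem E_surj (w : ℂ) (hw : w ≠ 0) : ∃ z, E z = w := by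
  refine ⟨((Complex.log w).re, (Complex.log w).im), ?_⟩
  unfold E
  simp only [Complex.re_add_im]
  exact Complex.exp_log hw

theorem E_open (z : ℝ × ℝ) (ρ : ℝ) (hρ : 0 < ρ) :
    ∃ O : Set ℂ, IsOpen O ∧ E z ∈ O ∧
      ∀ w ∈ O, ∃ z' : ℝ × ℝ, E z' = w ∧ |z'.1 - z.1| < ρ ∧ |z'.2 - z.2| < ρ := by
  have hE : IsOpenMap E := by
    have h1 : E = Complex.exp ∘ Complex.equivRealProdCLM.symm := by
      funext p
      simp [E, Complex.equivRealProdCLM_symm_apply]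
    rw [h1]
    exact Complex.isOpenMap_exp.comp Complex.equivRealProdCLM.symm.toHomeomorph.isOpenMap
  refine ⟨E '' {z' | |z'.1 - z.1| < ρ ∧ |z'.2 - z.2| < ρ}, ?_, ?_, ?_⟩
  · apply hE
    apply IsOpen.and
    · exact isOpen_lt (by fun_prop) continuous_const
    · exact isOpen_lt (by fun_prop) continuous_const
  · exact ⟨z, by simp [hρ], rfl⟩
  · rintro w ⟨z', hz', rfl⟩
    exact ⟨z', rfl, hz'⟩

theorem local_E {V : ℂ → ℝ} {f fx fy fxx fxy fyy : ℝ × ℝ → ℝ} (h : Cyl V f fx fy fxx fxy fyy)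
    {x y : ℝ → ℝ} (hF : Flow fx fy x y) (t0 : ℝ) (hz : f (x t0, y t0) = 0)
    (hreg : fx (x t0, y t0) ≠ 0 ∨ fy (x t0, y t0) ≠ 0) (δ : ℝ) (hδ : 0 < δ) :
    ∃ O : Set ℂ, IsOpen O ∧ E (x t0, y t0) ∈ O ∧
      ∀ w ∈ O, V w = 0 → ∃ t, |t - t0| < δ ∧ E (x t, y t) = w := by
  obtain ⟨ρ, hρ, H⟩ := flow_local h.toC2 hF t0 hz hreg δ hδ
  obtain ⟨O, hO, hO1, hO2⟩ := E_open (x t0, y t0) ρ hρ
  refine ⟨O, hO, hO1, fun w hw hV => ?_⟩
  obtain ⟨z', h1, h2, h3⟩ := hO2 w hw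
  have hf : f z' = 0 := by rw [← h.V_exp, h1, hV]
  obtain ⟨t, ht, hx, hy⟩ := H z' hf h2 h3
  refine ⟨t, ht, ?_⟩
  rw [hx, hy]
  exact h1

theorem E_inj_near {fx fy : ℝ × ℝ → ℝ} {x y : ℝ → ℝ} (hF : Flow fx fy x y) (t0 : ℝ)
    (hreg : fx (x t0, y t0) ≠ 0 ∨ fy (x t0, y t0) ≠ 0) :
    ∃ δ : ℝ, 0 < δ ∧ ∀ t, |t - t0| < δ → t ≠ t0 → E (x t, y t) ≠ E (x t0, y t0) := by
  have hm : mu fx fy (x t0, y t0) ≠ 0 := by
    unfold mu
    positivity
  have h1 : ∀ᶠ t in nhdsWithin t0 {t0}ᶜ, x t ≠ x t0 ∨ y t ≠ y t0 := by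
    rcases hreg with h | h
    · have h2 := (hF.hy t0).eventually_ne (c := y t0) (mul_ne_zero hm h)
      exact h2.mono fun t ht => Or.inr ht
    · have h2 := (hF.hx t0).eventually_ne (c := x t0) (neg_ne_zero.2 (mul_ne_zero hm h))
      exact h2.mono fun t ht => Or.inl ht
  have h2 : ∀ᶠ t in nhds t0, |y t - y t0| < 2 * Real.pi := by
    have hc : ContinuousAt (fun t => |y t - y t0|) t0 :=
      ((hF.hy t0).continuousAt.sub continuousAt_const).abs
    apply hc.eventually_lt continuousAt_const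
    simp [Real.pi_pos]
  rw [eventually_nhdsWithin_iff] at h1
  obtain ⟨δ, hδ, H⟩ := Metric.eventually_nhds_iff.1 (h1.and h2)
  refine ⟨δ, hδ, fun t ht hne hE => ?_⟩
  obtain ⟨H1, H2⟩ := H (y := t) (by rwa [Real.dist_eq])
  obtain ⟨e1, n, e2⟩ := (E_eq_iff _ _).1 hE
  simp only at e1 e2
  have hn : n = 0 := by
    rw [e2] at H2
    have h3 : |2 * Real.pi * (n : ℝ)| < 2 * Real.pi := by
      have h4 : y t0 + 2 * Real.pi * (n : ℝ) - y t0 = 2 * Real.pi * (n : ℝ) := by ring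
      rwa [h4] at H2
    rw [abs_mul, abs_of_pos (by positivity : (0 : ℝ) < 2 * Real.pi)] at h3
    have h5 : |(n : ℝ)| < 1 := by
      by_contra hc
      have h6 : 1 ≤ |(n : ℝ)| := not_lt.1 hc
      have h7 : 2 * Real.pi * 1 ≤ 2 * Real.pi * |(n : ℝ)| :=
        mul_le_mul_of_nonneg_left h6 (by positivity)
      linarith
    have h6 : |n| < 1 := by exact_mod_cast h5
    exact Int.abs_lt_one_iff.1 h6
  rw [hn] at e2
  simp at e2
  rcases H1 hne with h3 | h3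
  · exact h3 e1
  · exact h3 e2

end Pool.Agent.OVL
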