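import Pool.Agent.OVL.Ode
import Pool.Agent.OVL.LocE

/-!
# Project OVL, module Per: a compact orbit is periodic

PLAN. `γ t = E (x t, y t)`, `Γ = (x, y)`, all points `Γ t` are regular zeros.
(1) There are `s ≠ t` with `γ s = γ t`: otherwise for every `t` let `O t` be the open set of `local_E` with `δ = 1`; `range γ` is compact and covered by the `O t`, so by finitely many `O t_i`;
choose a real `r` with `r > t_i + 1` for all `i`; `γ r ∈ O t_i` for some `i`, `V (γ r) = 0`, so `γ r = γ t'` with `|t' - t_i| < 1`, and `t' ≠ r`: contradiction.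
(2) `shift`: if `γ (s + d) = γ s` for one `s` then there is an integer `k` with `x (t + d) = x t` and `y (t + d) = y t + 2 π k` for all `t`: by `E_eq_iff` `x (s + d) = x s`,
`y (s + d) = y s + 2 π k`; the trajectories `t ↦ (x (t + d), y (t + d) + 2 π (-k))` (`flow_shift`) and `(x, y)` agree at `t = s`, so everywhere (`flow_unique`).
(3) Let `P = {d | 0 < d ∧ γ d = γ 0}`, nonempty by (1), (2). By `E_inj_near` at `0` there is `δ > 0` with `P ⊆ [δ, ∞)`. `T = sInf P ≥ δ > 0` and `γ T = γ 0` (`T` is a limit of points of `P`, `γ` is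
continuous; `csInf` and closedness of `{d | γ d = γ 0}`). (2) with `s = 0` gives `k` and `perx`, `pery`.
(4) `inj`: if `γ s = γ t`, put `d = s - t`; (2) gives `γ (r + d) = γ r` for all `r`. Let `n = ⌊d / T⌋`, `r = d - n T ∈ [0, T)`; `γ r = γ (r + ...) = γ 0` (use periodicity `n` times, both
for `T` and `d`), so `r = 0` (otherwise `r ∈ P`, `r < T`). So `s - t = n T`.
-/

set_option autoImplicit false

namespace Pool.Agent.OVL

theorem periodic {V : ℂ → ℝ} {f fx fy fxx fxy fyy : ℝ × ℝ → ℝ} (h : Cyl V f fx fy fxx fxy fyy)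
    {x y : ℝ → ℝ} (hF : Flow fx fy x y) (hz : ∀ t, f (x t, y t) = 0)
    (hreg : ∀ t, fx (x t, y t) ≠ 0 ∨ fy (x t, y t) ≠ 0)
    (hK : IsCompact (Set.range (fun t => E (x t, y t)))) :
    ∃ (T : ℝ) (k : ℤ), Loop f fx fy x y T k := by
  obtain ⟨γ, hγ⟩ : ∃ γ : ℝ → ℂ, γ = fun t => E (x t, y t) := ⟨_, rfl⟩
  have hγa : ∀ t, γ t = E (x t, y t) := fun t => by rw [hγ]
  rw [← hγ] at hK
  have hxc : Continuous x := continuous_iff_continuousAt.2 fun t => (hF.hx t).continuousAt
  have hyc : Continuous y := continuous_iff_continuousAt.2 fun t => (hF.hy t).continuousAt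
  have hγc : Continuous γ := by
    rw [hγ]; exact E_continuous.comp (hxc.prodMk hyc)
  have hV : ∀ t, V (γ t) = 0 := fun t => by rw [hγa, h.V_exp, hz]
  -- (1) the curve is not injective
  have h1 : ∃ s t, s ≠ t ∧ γ s = γ t := by
    by_contra hcon
    push Not at hcon
    have hinj : ∀ s t, γ s = γ t → s = t := by
      intro s t hst
      by_contra hne
      exact hcon s t hne hst
    have hO := fun t0 : ℝ => local_E h hF t0 (hz t0) (hreg t0) 1 one_pos
    choose O hOo hOm hOp using hO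
    obtain ⟨F, hFc⟩ := hK.elim_finite_subcover O hOo (by
      rintro w ⟨t, rfl⟩
      rw [Set.mem_iUnion]
      exact ⟨t, by rw [hγa]; exact hOm t⟩)
    obtain ⟨M, hM⟩ := F.bddAbove
    have hr := hFc (Set.mem_range_self (M + 2))
    rw [Set.mem_iUnion₂] at hr
    obtain ⟨i, hiF, hi⟩ := hr
    obtain ⟨t', ht', hte⟩ := hOp i _ hi (hV _)
    have hiM : i ≤ M := hM hiF
    have : t' = M + 2 := hinj _ _ (by rw [← hte, hγa])
    rw [abs_lt] at ht'
    linarith [ht'.2]
  -- (2)
  have h2 : ∀ s d, γ (s + d) = γ s →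
      ∃ k : ℤ, (∀ t, x (t + d) = x t) ∧ ∀ t, y (t + d) = y t + 2 * Real.pi * k := by
    intro s d hsd
    rw [hγa, hγa, E_eq_iff] at hsd
    obtain ⟨hx1, n, hy1⟩ := hsd
    simp only at hx1 hy1
    have hsh := flow_shift h.px h.py hF d (-n)
    have hu := flow_unique h.toC2 hsh hF s hx1 (by
      show y (s + d) + 2 * Real.pi * ((-n : ℤ) : ℝ) = y s
      rw [hy1]; push_cast; ring)
    refine ⟨n, fun t => congrFun hu.1 t, fun t => ?_⟩
    have h3 : y (t + d) + 2 * Real.pi * ((-n : ℤ) : ℝ) = y t := congrFun hu.2 t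
    push_cast at h3
    linarith
  have h2' : ∀ s d, γ (s + d) = γ s → ∀ t, γ (t + d) = γ t := by
    intro s d hsd t
    obtain ⟨k, hk1, hk2⟩ := h2 s d hsd
    rw [hγa, hγa, E_eq_iff]
    exact ⟨hk1 t, k, hk2 t⟩
  -- (3)
  obtain ⟨δ, hδ, hδn⟩ := E_inj_near hF 0 (hreg 0)
  set P : Set ℝ := {d | 0 < d ∧ γ d = γ 0} with hP
  have hPne : P.Nonempty := by
    obtain ⟨s, t, hne, hst⟩ := h1
    have ha : ∀ r, γ (r + (s - t)) = γ r := h2' t (s - t) (by
      rw [add_sub_cancel]; exact hst)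
    rcases lt_or_gt_of_ne hne with hlt | hgt
    · refine ⟨t - s, by linarith, ?_⟩
      have := ha (t - s)
      have h0 : t - s + (s - t) = 0 := by ring
      rw [h0] at this
      exact this.symm
    · refine ⟨s - t, by linarith, ?_⟩
      have := ha 0
      rwa [zero_add] at this
  have hPd : ∀ d ∈ P, δ ≤ d := by
    rintro d ⟨hd0, hd1⟩
    by_contra hlt
    push Not at hlt
    refine hδn d ?_ hd0.ne' ?_
    · rw [sub_zero, abs_of_pos hd0]; exact hlt
    · rw [← hγa, ← hγa]; exact hd1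
  have hPb : BddBelow P := ⟨δ, hPd⟩
  set T := sInf P with hT
  have hTδ : δ ≤ T := le_csInf hPne hPd
  have hTpos : 0 < T := lt_of_lt_of_le hδ hTδ
  have hγT : γ T = γ 0 := by
    have hcl : IsClosed {d : ℝ | γ d = γ 0} := isClosed_eq hγc continuous_const
    have hmem : T ∈ closure P := csInf_mem_closure hPne hPb
    exact hcl.closure_subset_iff.2 (fun d hd => hd.2) hmem
  obtain ⟨k, hk1, hk2⟩ := h2 0 T (by rw [zero_add]; exact hγT)
  have hper : Function.Periodic γ T := h2' 0 T (by rw [zero_add]; exact hγT)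
  refine ⟨T, k, { toFlow := hF, T_pos := hTpos, zero := hz, reg := hreg, perx := hk1, pery := hk2, inj := ?_ }⟩
  intro s t hst
  rw [← hγa, ← hγa] at hst
  have ha : ∀ r, γ (r + (s - t)) = γ r := h2' t (s - t) (by
    rw [add_sub_cancel]; exact hst)
  have hb : γ (s - t) = γ 0 := by
    have := ha 0
    rwa [zero_add] at this
  set n : ℤ := ⌊(s - t) / T⌋ with hn
  have hc : γ (s - t - n * T) = γ 0 := by
    rw [hper.sub_int_mul_eq]; exact hb
  have hfl1 : (n : ℝ) ≤ (s - t) / T := Int.floor_le _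
  have hfl2 : (s - t) / T < n + 1 := Int.lt_floor_add_one _
  rw [le_div_iff₀ hTpos] at hfl1
  rw [div_lt_iff₀ hTpos] at hfl2
  refine ⟨n, ?_⟩
  by_contra hne
  have hpos : 0 < s - t - n * T := by
    rcases lt_or_eq_of_le (by linarith : 0 ≤ s - t - n * T) with h' | h'
    · exact h'
    · exact absurd (by linarith) hne
  have : T ≤ s - t - n * T := csInf_le hPb ⟨hpos, hc⟩
  linarith

end Pool.Agent.OVL
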