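import Pool.Agent.OVL.Orb
import Pool.Agent.OVL.Per

/-!
# Project OVL, module Par: the components of the nodal set without singular points are closed curves

PLAN. `p ≠ 0` (`V 0 ≠ 0`), `E_surj` gives `z` with `E z = p`, `exists_flow` a trajectory starting at `z`; `orbit_eq`. `comp V p` is compact: it is closed
(`IsClosed.connectedComponentIn` for the closed set `{V = 0}`: `IsPreconnected.closure` and maximality) and bounded (`bdd` and `V_exp`: `w = E z`, `‖w‖ = exp z.1 ≤ exp R`; every zero `w ≠ 0`).
`periodic` gives `T`, `k`; the regularity hypothesis of `periodic` follows from `hreg` since `E (Γ t) ∈ comp V p`.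
-/

set_option autoImplicit false

namespace Pool.Agent.OVL

theorem param {V : ℂ → ℝ} {f fx fy fxx fxy fyy : ℝ × ℝ → ℝ} (h : Cyl V f fx fy fxx fxy fyy)
    (p : ℂ) (hp : V p = 0)
    (hreg : ∀ z, E z ∈ comp V p → fx z ≠ 0 ∨ fy z ≠ 0) :
    ∃ (x y : ℝ → ℝ) (T : ℝ) (k : ℤ), Loop f fx fy x y T k ∧
      comp V p = Set.range (fun t => E (x t, y t)) := by
  have hp0 : p ≠ 0 := by
    rintro rfl
    exact h.V_zero hp
  obtain ⟨z, hz⟩ := E_surj p hp0
  obtain ⟨x, y, hF, hx0, hy0⟩ := exists_flow h.toC2 z
  have h0 : E (x 0, y 0) = p := by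
    rw [hx0, hy0]
    exact hz
  have horb := orbit_eq h p hp hreg hF h0
  have hmem : ∀ t, E (x t, y t) ∈ comp V p := fun t => by
    rw [horb]
    exact ⟨t, rfl⟩
  have hsub : comp V p ⊆ {w | V w = 0} := connectedComponentIn_subset _ _
  have hzero : ∀ t, f (x t, y t) = 0 := fun t => by
    rw [← h.V_exp]
    exact hsub (hmem t)
  have hcN : IsClosed {w : ℂ | V w = 0} := isClosed_eq h.V_cont continuous_const
  have hcl : IsClosed (comp V p) := by
    refine isClosed_of_closure_subset ?_
    refine IsPreconnected.subset_connectedComponentIn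
      (isPreconnected_connectedComponentIn.closure) ?_ ?_
    · exact subset_closure (mem_connectedComponentIn hp)
    · exact closure_minimal hsub hcN
  have hbd : Bornology.IsBounded (comp V p) := by
    obtain ⟨R, hR⟩ := h.bdd
    refine (Metric.isBounded_iff_subset_closedBall (0 : ℂ)).2 ⟨Real.exp R, ?_⟩
    intro w hw
    rw [horb] at hw
    obtain ⟨t, rfl⟩ := hw
    have hn : ‖E (x t, y t)‖ = Real.exp (x t) := by
      unfold E
      rw [Complex.norm_exp]
      simp
    simp only [mem_closedBall_zero_iff]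
    rw [hn]
    exact Real.exp_le_exp.2 ((le_abs_self _).trans (hR _ (hzero t)))
  have hK : IsCompact (comp V p) := Metric.isCompact_of_isClosed_isBounded hcl hbd
  have hreg' : ∀ t, fx (x t, y t) ≠ 0 ∨ fy (x t, y t) ≠ 0 := fun t => hreg _ (hmem t)
  have hK' : IsCompact (Set.range (fun t => E (x t, y t))) := by
    rw [← horb]
    exact hK
  obtain ⟨T, k, hL⟩ := periodic h hF hzero hreg' hK'
  exact ⟨x, y, T, k, hL, horb⟩

end Pool.Agent.OVL
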