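import Pool.Agent.OVL.Defs

/-!
# Project OVL, module LeftL: a long curve near a leftmost point

PLAN. `far`: from `y (t + T) = y t + c` one gets `y (t + m T) = y t + m c` for integers `m`; `g t = y t - c t / T` is continuous and
`T`-periodic, so bounded by some `B`; hence `|y t - c t / T| ≤ B`, and `y t → ± ∞`.
`isolate`: by `far`, `|y t - y n| ≥ 1` for `|t - n| ≥ L`; on the compact set `{δ ≤ |t - n| ≤ L}` the function `max |x t - x n| |y t - y n|` is
continuous and positive (`inj`), so it is `≥ ρ > 0`; take the minimum of `ρ` and `1`.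
`left`: `x' n = 0` (`IsLocalMin.hasDerivAt_eq_zero`), so `y' n ≠ 0` (`reg`). By continuity of `y'` there is `δ > 0`, `δ ≤ η`, such that
`y'` has the sign of `y' n` on `(n - δ, n + δ)`, so `y` is strictly monotone there. Take `ρ` from `isolate` (for this `δ`) and
`0 < ε < δ` with `|x (n ± ε) - x n| < min ρ η`, `|y (n ± ε) - y n| < min ρ η` (continuity). If `y t = y (n + ε)` and
`x t ≤ x (n + ε)` then `x n ≤ x t ≤ x (n + ε)` gives `|x t - x n| < ρ`, and `|y t - y n| < ρ`, so `|t - n| < δ`, and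
injectivity of `y` on `(n - δ, n + δ)` gives `t = n + ε`. Same for `n - ε`.
-/

set_option autoImplicit false

namespace Pool.Agent.OVL

private lemma LC.cont_x {x y x' y' : ℝ → ℝ} {T c : ℝ} (h : LC x y x' y' T c) : Continuous x :=
  continuous_iff_continuousAt.2 fun t => (h.hx t).continuousAt

private lemma LC.cont_y {x y x' y' : ℝ → ℝ} {T c : ℝ} (h : LC x y x' y' T c) : Continuous y :=
  continuous_iff_continuousAt.2 fun t => (h.hy t).continuousAt

theorem LC.far {x y x' y' : ℝ → ℝ} {T c : ℝ} (h : LC x y x' y' T c) :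
    ∃ B : ℝ, 0 ≤ B ∧ ∀ t : ℝ, |y t - c * t / T| ≤ B := by
  have hT := h.T_pos
  have hyc := h.cont_y
  have hcont : Continuous (fun t : ℝ => y t - c * t / T) := by fun_prop
  have hper : Function.Periodic (fun t : ℝ => y t - c * t / T) T := by
    intro t
    show y (t + T) - c * (t + T) / T = y t - c * t / T
    rw [h.pery t]
    field_simp
    ring
  obtain ⟨C, hC⟩ := (isCompact_Icc (a := (0 : ℝ)) (b := T)).exists_bound_of_continuousOn
    hcont.continuousOn
  refine ⟨C, (norm_nonneg _).trans (hC 0 ⟨le_refl _, hT.le⟩), fun t => ?_⟩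
  obtain ⟨s, hs, hts⟩ := hper.exists_mem_Ico₀ hT t
  have h1 : y t - c * t / T = y s - c * s / T := hts
  rw [h1]
  exact hC s ⟨hs.1, hs.2.le⟩

theorem LC.isolate {x y x' y' : ℝ → ℝ} {T c : ℝ} (h : LC x y x' y' T c) (n δ : ℝ) (hδ : 0 < δ) :
    ∃ ρ : ℝ, 0 < ρ ∧ ∀ t : ℝ, |x t - x n| < ρ → |y t - y n| < ρ → |t - n| < δ := by
  have hT := h.T_pos
  have hxc := h.cont_x
  have hyc := h.cont_y
  obtain ⟨B, hB0, hB⟩ := h.far
  have hc : 0 < |c| := abs_pos.2 h.c_ne
  set L : ℝ := (2 * B + 1) * T / |c| with hL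
  have hfar : ∀ t, L < |t - n| → 1 ≤ |y t - y n| := by
    intro t ht
    have h1 : 2 * B + 1 < |c * (t - n) / T| := by
      rw [abs_div, abs_mul, abs_of_pos hT, lt_div_iff₀ hT]
      rw [hL, div_lt_iff₀ hc] at ht
      linarith [mul_comm |t - n| |c|]
    have h2 := hB t
    have h3 := hB n
    have h4 : c * (t - n) / T = (y t - y n) - (y t - c * t / T) + (y n - c * n / T) := by
      field_simp
      ring
    have h5 : |c * (t - n) / T| ≤ |y t - y n| + |y t - c * t / T| + |y n - c * n / T| := by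
      rw [h4]
      refine (abs_add_le _ _).trans ?_
      have := abs_sub (y t - y n) (y t - c * t / T)
      linarith
    linarith
  set K : Set ℝ := Metric.closedBall n L ∩ {t | δ ≤ |t - n|} with hK
  have hKc : IsCompact K :=
    (isCompact_closedBall n L).inter_right (isClosed_le continuous_const (by fun_prop))
  have hmem : ∀ t, δ ≤ |t - n| → |y t - y n| < 1 → t ∈ K := by
    intro t h1 h2
    refine ⟨?_, h1⟩
    rw [Metric.mem_closedBall, Real.dist_eq]
    by_contra h3
    push Not at h3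
    exact absurd (hfar t h3) (not_le.2 h2)
  by_cases hne : K.Nonempty
  · have hcont : ContinuousOn (fun t => max |x t - x n| |y t - y n|) K := by
      apply Continuous.continuousOn
      fun_prop
    obtain ⟨s, hsK, hs⟩ := hKc.exists_isMinOn hne hcont
    have hpos : 0 < max |x s - x n| |y s - y n| := by
      by_contra h0
      push Not at h0
      have h1 : |x s - x n| ≤ 0 := (le_max_left _ _).trans h0
      have h2 : |y s - y n| ≤ 0 := (le_max_right _ _).trans h0
      have h3 : s = n := h.inj s n (sub_eq_zero.1 (abs_nonpos_iff.1 h1))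
        (sub_eq_zero.1 (abs_nonpos_iff.1 h2))
      have h4 : δ ≤ |s - n| := hsK.2
      rw [h3, sub_self, abs_zero] at h4
      linarith
    refine ⟨min 1 (max |x s - x n| |y s - y n|), lt_min one_pos hpos, fun t h1 h2 => ?_⟩
    by_contra h3
    push Not at h3
    have h4 : t ∈ K := hmem t h3 (lt_of_lt_of_le h2 (min_le_left _ _))
    have h5 : max |x s - x n| |y s - y n| ≤ max |x t - x n| |y t - y n| := hs h4
    have h6 : max |x t - x n| |y t - y n| < max |x s - x n| |y s - y n| :=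
      max_lt (lt_of_lt_of_le h1 (min_le_right _ _)) (lt_of_lt_of_le h2 (min_le_right _ _))
    linarith
  · refine ⟨1, one_pos, fun t _ h2 => ?_⟩
    by_contra h3
    push Not at h3
    exact hne ⟨t, hmem t h3 h2⟩

/-- local monotonicity -/
private lemma mono_aux {y y' : ℝ → ℝ} (hy : ∀ t, HasDerivAt y (y' t) t) (cy : Continuous y')
    (n η : ℝ) (hη : 0 < η) (hn : 0 < y' n) :
    ∃ δ : ℝ, 0 < δ ∧ δ ≤ η ∧ StrictMonoOn y (Set.Ioo (n - δ) (n + δ)) := by
  have h1 : ∀ᶠ t in nhds n, 0 < y' t := (cy.continuousAt (x := n)).eventually (lt_mem_nhds hn)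
  obtain ⟨δ, hδ, h2⟩ := Metric.eventually_nhds_iff.1 h1
  refine ⟨min δ η, lt_min hδ hη, min_le_right _ _, ?_⟩
  refine strictMonoOn_of_deriv_pos (convex_Ioo _ _)
    (fun t _ => (hy t).continuousAt.continuousWithinAt) ?_
  intro t ht
  rw [interior_Ioo] at ht
  rw [(hy t).deriv]
  apply h2
  rw [Real.dist_eq, abs_lt]
  have := min_le_left δ η
  constructor <;> linarith [ht.1, ht.2]

private lemma LC.left_pos {x y x' y' : ℝ → ℝ} {T c : ℝ} (h : LC x y x' y' T c) (n : ℝ)
    (hn : ∀ t, x n ≤ x t) (η : ℝ) (hη : 0 < η) (hpos : 0 < y' n) :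
    ∃ ε : ℝ, 0 < ε ∧ ε < η ∧
      (∀ t, y t = y (n + ε) → x t ≤ x (n + ε) → t = n + ε) ∧
      (∀ t, y t = y (n - ε) → x t ≤ x (n - ε) → t = n - ε) ∧
      (y (n - ε) < y n ∧ y n < y (n + ε)) := by
  obtain ⟨δ, hδ, hδη, hmono⟩ := mono_aux h.hy h.cy n η hη hpos
  obtain ⟨ρ, hρ, hiso⟩ := h.isolate n δ hδ
  have hx1 : ∀ᶠ t in nhds n, |x t - x n| < ρ := by
    have := (h.cont_x.continuousAt (x := n))
    rw [Metric.continuousAt_iff'] at this
    exact this ρ hρ
  have hy1 : ∀ᶠ t in nhds n, |y t - y n| < ρ := by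
    have := (h.cont_y.continuousAt (x := n))
    rw [Metric.continuousAt_iff'] at this
    exact this ρ hρ
  obtain ⟨κ, hκ, hboth⟩ := Metric.eventually_nhds_iff.1 (hx1.and hy1)
  set ε : ℝ := min (δ / 2) (κ / 2) with hε
  have hε0 : 0 < ε := lt_min (by linarith) (by linarith)
  have hεδ : ε < δ := lt_of_le_of_lt (min_le_left _ _) (by linarith)
  have hεκ : ε < κ := lt_of_le_of_lt (min_le_right _ _) (by linarith)
  have hp := hboth (y := n + ε) (by
    rw [Real.dist_eq, add_sub_cancel_left, abs_of_pos hε0]; exact hεκ)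
  have hm := hboth (y := n - ε) (by
    rw [Real.dist_eq, sub_sub_cancel_left, abs_neg, abs_of_pos hε0]; exact hεκ)
  have memp : n + ε ∈ Set.Ioo (n - δ) (n + δ) := ⟨by linarith, by linarith⟩
  have memm : n - ε ∈ Set.Ioo (n - δ) (n + δ) := ⟨by linarith, by linarith⟩
  have mem0 : n ∈ Set.Ioo (n - δ) (n + δ) := ⟨by linarith, by linarith⟩
  have key : ∀ s ∈ Set.Ioo (n - δ) (n + δ), |x s - x n| < ρ → |y s - y n| < ρ →
      ∀ t, y t = y s → x t ≤ x s → t = s := by
    intro s hs h1 h2 t h3 h4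
    have h5 : |x t - x n| < ρ := by
      have h6 := hn t
      have h7 := hn s
      rw [abs_of_nonneg (by linarith)] at h1 ⊢
      linarith
    have h8 : |y t - y n| < ρ := by rw [h3]; exact h2
    have h9 := hiso t h5 h8
    rw [abs_lt] at h9
    exact hmono.injOn ⟨by linarith [h9.1], by linarith [h9.2]⟩ hs h3
  exact ⟨ε, hε0, lt_of_lt_of_le hεδ hδη, key _ memp hp.1 hp.2, key _ memm hm.1 hm.2,
    hmono memm mem0 (by linarith), hmono mem0 memp (by linarith)⟩

/-- reflection `y ↦ - y` -/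
private lemma LC.neg {x y x' y' : ℝ → ℝ} {T c : ℝ} (h : LC x y x' y' T c) :
    LC x (fun t => - y t) x' (fun t => - y' t) T (-c) where
  T_pos := h.T_pos
  c_ne := neg_ne_zero.2 h.c_ne
  hx := h.hx
  hy := fun t => (h.hy t).neg
  cx := h.cx
  cy := h.cy.neg
  perx := h.perx
  pery := fun t => by
    show - y (t + T) = - y t + - c
    rw [h.pery t]; ring
  reg := fun t => by
    rcases h.reg t with h1 | h1
    · exact Or.inl h1
    · exact Or.inr (neg_ne_zero.2 h1)
  inj := fun s t h1 h2 => h.inj s t h1 (neg_inj.1 h2)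

theorem LC.left {x y x' y' : ℝ → ℝ} {T c : ℝ} (h : LC x y x' y' T c) (n : ℝ)
    (hn : ∀ t, x n ≤ x t) (η : ℝ) (hη : 0 < η) :
    ∃ ε : ℝ, 0 < ε ∧ ε < η ∧
      (∀ t, y t = y (n + ε) → x t ≤ x (n + ε) → t = n + ε) ∧
      (∀ t, y t = y (n - ε) → x t ≤ x (n - ε) → t = n - ε) ∧
      (0 < y' n → y (n - ε) < y n ∧ y n < y (n + ε)) ∧
      (y' n < 0 → y (n + ε) < y n ∧ y n < y (n - ε)) := by
  have hx0 : x' n = 0 :=
    IsLocalMin.hasDerivAt_eq_zero (Filter.Eventually.of_forall hn) (h.hx n)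
  have hy0 : y' n ≠ 0 := by
    rcases h.reg n with h1 | h1
    · exact absurd hx0 h1
    · exact h1
  rcases lt_or_gt_of_ne hy0 with hneg | hpos
  · obtain ⟨ε, h1, h2, h3, h4, h5⟩ := h.neg.left_pos n hn η hη (neg_pos.2 hneg)
    refine ⟨ε, h1, h2, ?_, ?_, ?_, ?_⟩
    · intro t ht
      exact h3 t (neg_inj.2 ht)
    · intro t ht
      exact h4 t (neg_inj.2 ht)
    · intro h6
      exact absurd h6 (not_lt.2 hneg.le)
    · intro _
      exact ⟨neg_lt_neg_iff.1 h5.2, neg_lt_neg_iff.1 h5.1⟩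
  · obtain ⟨ε, h1, h2, h3, h4, h5⟩ := h.left_pos n hn η hη hpos
    refine ⟨ε, h1, h2, h3, h4, fun _ => h5, ?_⟩
    intro h6
    exact absurd h6 (not_lt.2 hpos.le)

end Pool.Agent.OVL
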