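import Pool.Agent.OVL.Cross
import Pool.Agent.OVL.LeftL

/-!
# Project OVL, module SenL: a long curve moves forward at its leftmost and rightmost points

PLAN. `sense_pos`: suppose `c > 0` and `y' n < 0`. Let `η = 1` in `LC.left`, get `ε`; `a = Γ (n + ε)` is below `Γ n`, `c' = Γ (n - ε)` above.
By `LC.far`, `|y t - c t / T| ≤ B`. Choose a natural number `m` with `m * c > 4 B + 4 + |y n| + ...`, large enough that
`Yh := y (n + m T) = y n + m c` is `> y t + 1` for all `t ≤ n` and `> y_c' + 1` (`y t ≤ c t / T + B ≤ c n / T + B` for `t ≤ n`), and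
`Yl := y (n - m T) = y n - m c` is `< y t` for all `t ≥ n` and `< y_a` (`y t ≥ c n / T - B`), `m T > ε`. Let `x1` be an upper bound of `x` (periodic, continuous).
`α : (x n - 1, y_a) → a → (Γ on [n + ε, n + m T]) → Γ (n + m T) = (x n, Yh) → (x1 + 1, Yh)` (left to right),
`β : Γ (n - m T) → (Γ on [n - m T, n - ε]) → c' → (x n - 1/2, y_c') → (x n - 1/2, Y1)` with `Y1` larger than all `y` on `α` (bottom to top).
`A = s1 ∪ A1 ∪ s2`, `B = A2 ∪ r2 ∪ r3`, `s1 = {y = y_a, x n - 1 ≤ x ≤ x_a}`, `s2 = {y = Yh, x n ≤ x ≤ x1 + 1}`, `r2 = {y = y_c', x n - 1/2 ≤ x ≤ x_c'}`,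
`r3 = {x = x n - 1/2, y_c' ≤ y ≤ Y1}`. `cross_joined` (with `c.2 = Yl`, `d.2 = Y1`, `a.1 = x n - 1`, `b.1 = x1 + 1`; only the `y` of `A` and the `x` of
`B` must be in the box) gives a common point; 9 cases, all impossible: s1∩A2: by `LC.left` the time is `n + ε`; s1∩r2: `y_a ≠ y_c'`; s1∩r3:
`y_a < y_c'`; A1∩A2: `inj`; A1∩r2: the time is `n - ε`; A1∩r3: `x ≥ x n`; s2∩A2: `y < Yh`; s2∩r2: `y_c' < Yh`; s2∩r3: `x ≥ x n`.
`sense`: `y' n ≠ 0` (`x' n = 0` and `reg`). If `c > 0` use `sense_pos`. If `c < 0` apply it to `LC x (-y) x' (-y') T (-c)`.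
`sense_right`: apply `sense` to `LC (-x) y (-x') y' T c`.
-/

set_option autoImplicit false

namespace Pool.Agent.OVL

private theorem per_nat {x y x' y' : ℝ → ℝ} {T c : ℝ} (h : LC x y x' y' T c) (m : ℕ) :
    ∀ t : ℝ, x (t + m * T) = x t ∧ y (t + m * T) = y t + m * c := by
  induction m with
  | zero => intro t; simp
  | succ k ih =>
    intro t
    have e : t + ((k + 1 : ℕ) : ℝ) * T = (t + k * T) + T := by push_cast; ring
    rw [e, h.perx, h.pery, (ih t).1, (ih t).2]
    refine ⟨rfl, ?_⟩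
    push_cast; ring

private theorem bdd_x {x y x' y' : ℝ → ℝ} {T c : ℝ} (h : LC x y x' y' T c) :
    ∃ x1 : ℝ, ∀ t, x t ≤ x1 := by
  have hc : Continuous x := continuous_iff_continuousAt.2 fun t => (h.hx t).continuousAt
  obtain ⟨b, hb⟩ := (isCompact_Icc (a := (0 : ℝ)) (b := T)).bddAbove_image hc.continuousOn
  refine ⟨b, fun t => ?_⟩
  have hp : Function.Periodic x T := fun t => h.perx t
  obtain ⟨s, hs, hst⟩ := hp.exists_mem_Ico₀ h.T_pos t
  rw [hst]
  exact hb ⟨s, ⟨hs.1, hs.2.le⟩, rfl⟩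

private theorem sense_pos {x y x' y' : ℝ → ℝ} {T c : ℝ} (h : LC x y x' y' T c) (n : ℝ)
    (hn : ∀ t, x n ≤ x t) (hc : 0 < c) (hy : y' n < 0) : False := by
  obtain ⟨ε, hε, hε1, ha, hb, -, hlr⟩ := h.left n hn 1 one_pos
  obtain ⟨hya, hyc⟩ := hlr hy
  obtain ⟨B, hB0, hB⟩ := h.far
  obtain ⟨x1, hx1⟩ := bdd_x h
  have hT := h.T_pos
  obtain ⟨m, hm⟩ := exists_nat_gt (max ((2 * B + 1) / c) (1 / T))
  have hm1 : 2 * B + 1 < m * c := by
    have := lt_of_le_of_lt (le_max_left _ _) hm
    rwa [div_lt_iff₀ hc] at this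
  have hm2 : 1 < m * T := by
    have := lt_of_le_of_lt (le_max_right _ _) hm
    rwa [div_lt_iff₀ hT] at this
  have hcx : Continuous x := continuous_iff_continuousAt.2 fun t => (h.hx t).continuousAt
  have hcy : Continuous y := continuous_iff_continuousAt.2 fun t => (h.hy t).continuousAt
  have hup : ∀ t, t ≤ n → y t ≤ y n + 2 * B := by
    intro t ht
    have h1 := (abs_le.1 (hB t)).2
    have h2 := (abs_le.1 (hB n)).1
    have h3 : c * t / T ≤ c * n / T := by gcongr
    linarith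
  have hdown : ∀ t, n ≤ t → y n - 2 * B ≤ y t := by
    intro t ht
    have h1 := (abs_le.1 (hB t)).1
    have h2 := (abs_le.1 (hB n)).2
    have h3 : c * n / T ≤ c * t / T := by gcongr
    linarith
  have hup2 : ∀ t, t ≤ n + m * T → y t ≤ y n + m * c + 2 * B := by
    intro t ht
    have h1 := (abs_le.1 (hB t)).2
    have h2 := (abs_le.1 (hB n)).1
    have h3 : c * t / T ≤ c * (n + m * T) / T := by gcongr
    have h4 : c * (n + m * T) / T = c * n / T + m * c := by field_simp
    linarith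
  have hPx := (per_nat h m n).1
  have hPy := (per_nat h m n).2
  have hQ := per_nat h m (n - m * T)
  have hQx : x (n - m * T) = x n := by rw [← hQ.1]; congr 1; ring
  have hQy : y (n - m * T) = y n - m * c := by
    have := hQ.2
    rw [sub_add_cancel] at this
    linarith
  -- the two sets
  let A : Set (ℝ × ℝ) := {p | (p.2 = y (n + ε) ∧ p.1 ≤ x (n + ε)) ∨
    (∃ s, n + ε ≤ s ∧ s ≤ n + m * T ∧ p = (x s, y s)) ∨ (p.2 = y n + m * c ∧ x n ≤ p.1)}
  let C : Set (ℝ × ℝ) := {p | (∃ s, n - m * T ≤ s ∧ s ≤ n - ε ∧ p = (x s, y s)) ∨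
    (p.2 = y (n - ε) ∧ x n - 1 / 2 ≤ p.1 ∧ p.1 ≤ x (n - ε)) ∨
    (p.1 = x n - 1 / 2 ∧ y (n - ε) ≤ p.2)}
  have jA : JoinedIn A (x n - 1, y (n + ε)) (x1 + 1, y n + m * c) := by
    have j1 : JoinedIn A (x n - 1, y (n + ε)) (x (n + ε), y (n + ε)) := by
      refine joined_hseg A _ _ _ fun u hu => Or.inl ⟨rfl, ?_⟩
      have h1 : x n - 1 ≤ x (n + ε) := by have := hn (n + ε); linarith
      rw [Set.uIcc_of_le h1] at hu
      exact hu.2
    have j2 : JoinedIn A (x (n + ε), y (n + ε)) (x (n + m * T), y (n + m * T)) := by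
      refine joined_arc A x y hcx hcy _ _ (by linarith) fun r hr => Or.inr (Or.inl ?_)
      exact ⟨r, hr.1, hr.2, rfl⟩
    have j3 : JoinedIn A (x (n + m * T), y (n + m * T)) (x1 + 1, y n + m * c) := by
      rw [hPx, hPy]
      refine joined_hseg A _ _ _ fun u hu => Or.inr (Or.inr ⟨rfl, ?_⟩)
      have h1 : x n ≤ x1 + 1 := by have := hx1 n; linarith
      rw [Set.uIcc_of_le h1] at hu
      exact hu.1
    exact (j1.trans j2).trans j3
  have jC : JoinedIn C (x n, y n - m * c) (x n - 1 / 2, y n + m * c + 2 * B + 1) := by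
    have j1 : JoinedIn C (x (n - m * T), y (n - m * T)) (x (n - ε), y (n - ε)) := by
      refine joined_arc C x y hcx hcy _ _ (by linarith) fun r hr => Or.inl ?_
      exact ⟨r, hr.1, hr.2, rfl⟩
    rw [hQx, hQy] at j1
    have j2 : JoinedIn C (x (n - ε), y (n - ε)) (x n - 1 / 2, y (n - ε)) := by
      refine joined_hseg C _ _ _ fun u hu => Or.inr (Or.inl ⟨rfl, ?_⟩)
      have h1 : x n - 1 / 2 ≤ x (n - ε) := by have := hn (n - ε); linarith
      rw [Set.uIcc_of_ge h1] at hu
      exact hu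
    have j3 : JoinedIn C (x n - 1 / 2, y (n - ε)) (x n - 1 / 2, y n + m * c + 2 * B + 1) := by
      refine joined_vseg C _ _ _ fun u hu => Or.inr (Or.inr ⟨rfl, ?_⟩)
      have h1 : y (n - ε) ≤ y n + m * c + 2 * B + 1 := by
        have := hup (n - ε) (by linarith)
        have h2 : (0 : ℝ) ≤ m * c := by linarith
        linarith
      rw [Set.uIcc_of_le h1] at hu
      exact hu.1
    exact (j1.trans j2).trans j3
  obtain ⟨p, hpA, hpC⟩ := cross_joined A C _ _ _ _ jA jC (by
    intro p hp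
    rcases hp with ⟨h1, -⟩ | ⟨s, hs1, hs2, rfl⟩ | ⟨h1, -⟩
    · have h2 := hdown (n + ε) (by linarith)
      have h3 := hup2 (n + ε) (by linarith)
      constructor
      · show y n - m * c ≤ p.2
        rw [h1]; linarith
      · show p.2 ≤ y n + m * c + 2 * B + 1
        rw [h1]; linarith
    · have h2 := hdown s (by linarith)
      have h3 := hup2 s hs2
      constructor
      · show y n - m * c ≤ y s
        linarith
      · show y s ≤ y n + m * c + 2 * B + 1
        linarith
    · constructor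
      · show y n - m * c ≤ p.2
        rw [h1]; linarith
      · show p.2 ≤ y n + m * c + 2 * B + 1
        rw [h1]; linarith) (by
    intro p hp
    rcases hp with ⟨s, hs1, hs2, rfl⟩ | ⟨-, h1, h2⟩ | ⟨h1, -⟩
    · have h2 := hn s
      have h3 := hx1 s
      constructor
      · show x n - 1 ≤ x s
        linarith
      · show x s ≤ x1 + 1
        linarith
    · have h3 := hx1 (n - ε)
      constructor
      · show x n - 1 ≤ p.1
        linarith
      · show p.1 ≤ x1 + 1
        linarith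
    · have h3 := hx1 n
      constructor
      · show x n - 1 ≤ p.1
        rw [h1]; linarith
      · show p.1 ≤ x1 + 1
        rw [h1]; linarith)
  rcases hpA with ⟨h1, h2⟩ | ⟨s, hs1, hs2, hs3⟩ | ⟨h1, h2⟩
  · rcases hpC with ⟨t, ht1, ht2, rfl⟩ | ⟨h3, h4, h5⟩ | ⟨h3, h4⟩
    · have := ha t h1 h2
      linarith
    · rw [h1] at h3
      linarith
    · rw [h1] at h4
      linarith
  · rcases hpC with ⟨t, ht1, ht2, ht3⟩ | ⟨h3, h4, h5⟩ | ⟨h3, h4⟩
    · rw [hs3] at ht3
      have e := Prod.mk.inj ht3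
      have := h.inj s t e.1 e.2
      linarith
    · rw [hs3] at h3 h5
      have := hb s h3 h5
      linarith
    · rw [hs3] at h3
      have h6 := hn s
      have h7 : x s = x n - 1 / 2 := h3
      linarith
  · rcases hpC with ⟨t, ht1, ht2, rfl⟩ | ⟨h3, h4, h5⟩ | ⟨h3, h4⟩
    · have h6 := hup t (by linarith)
      have h7 : y t = y n + m * c := h1
      linarith
    · rw [h1] at h3
      have h6 := hup (n - ε) (by linarith)
      linarith
    · rw [h3] at h2
      linarith

theorem LC.sense {x y x' y' : ℝ → ℝ} {T c : ℝ} (h : LC x y x' y' T c) (n : ℝ)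
    (hn : ∀ t, x n ≤ x t) : 0 < y' n * c := by
  have hx0 : x' n = 0 := by
    have hmin : IsLocalMin x n := Filter.Eventually.of_forall hn
    exact hmin.hasDerivAt_eq_zero (h.hx n)
  have hy0 : y' n ≠ 0 := by
    rcases h.reg n with h1 | h1
    · exact absurd hx0 h1
    · exact h1
  rcases lt_or_gt_of_ne h.c_ne with hc | hc
  · have h' : LC x (fun t => -y t) x' (fun t => -y' t) T (-c) :=
      { T_pos := h.T_pos
        c_ne := neg_ne_zero.2 h.c_ne
        hx := h.hx
        hy := fun t => (h.hy t).neg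
        cx := h.cx
        cy := h.cy.neg
        perx := h.perx
        pery := fun t => by rw [h.pery]; ring
        reg := fun t => (h.reg t).imp id fun h1 => neg_ne_zero.2 h1
        inj := fun s t h1 h2 => h.inj s t h1 (neg_inj.1 h2) }
    rcases lt_or_gt_of_ne hy0 with h2 | h2
    · exact mul_pos_of_neg_of_neg h2 hc
    · exact (sense_pos h' n hn (by linarith) (by simpa using h2)).elim
  · rcases lt_or_gt_of_ne hy0 with h2 | h2
    · exact (sense_pos h n hn hc h2).elim
    · exact mul_pos h2 hc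

theorem LC.sense_right {x y x' y' : ℝ → ℝ} {T c : ℝ} (h : LC x y x' y' T c) (s : ℝ)
    (hs : ∀ t, x t ≤ x s) : 0 < y' s * c := by
  have h' : LC (fun t => -x t) y (fun t => -x' t) y' T c :=
    { T_pos := h.T_pos
      c_ne := h.c_ne
      hx := fun t => (h.hx t).neg
      hy := h.hy
      cx := h.cx.neg
      cy := h.cy
      perx := fun t => by rw [h.perx]
      pery := h.pery
      reg := fun t => (h.reg t).imp (fun h1 => neg_ne_zero.2 h1) id
      inj := fun s t h1 h2 => h.inj s t (neg_inj.1 h1) h2 }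
  exact h'.sense s fun t => neg_le_neg (hs t)

end Pool.Agent.OVL
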