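import Pool.Agent.OVL.Defs

/-!
# Project OVL, module Cnt: counting the curves

PLAN. Let `A` be the sub-finset of the `K ∈ 𝒦` with `Rob 4 K V2` and `B` the rest (each `K ∈ B` satisfies `Rob 2 K V2` and meets both half lines). Claim 1: `4 |A| + 2 |B| ≤ 2 l^2`: each `K ∈ 𝒦` has an `ε_K > 0` from `Rob` (with `V1`); let `ε0` be the minimum of the
`ε_K` (and `1`), take `ε < ε0` from `hB`, and for `K ∈ A` a finset `S_K ⊆ K` of `4` zeros, for `K ∈ B` one of `2` zeros; the `S_K` are pairwise disjoint (`hdisj`), so the union `S` (`Finset.card_biUnion`) has `4 |A| + 2 |B|` elements, all with `V w = 0` (`hsub`) and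
`V2 w + ε V1 w = 0`. Claim 2: `2 |B| ≤ 2 l`: for `K ∈ B` choose `t_K > 0` and `t'_K < 0` with `(t : ℂ) ∈ K`; these are `2 |B|` different reals (disjointness), all zeros of `V`; `hL`. Then `2 (|A| + |B|) = (4 |A| + 2 |B|) / 2 + |B| ≤ l^2 + l`.
-/

set_option autoImplicit false

namespace Pool.Agent.OVL

theorem count (l : ℕ) (V V1 V2 : ℂ → ℝ) (hV1 : Continuous V1) (𝒦 : Finset (Set ℂ))
    (hdisj : ∀ K ∈ 𝒦, ∀ K' ∈ 𝒦, K ≠ K' → Disjoint K K')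
    (hsub : ∀ K ∈ 𝒦, ∀ w ∈ K, V w = 0)
    (hK : ∀ K ∈ 𝒦, Rob 4 K V2 ∨ (Rob 2 K V2 ∧ (∃ t : ℝ, 0 < t ∧ (t : ℂ) ∈ K) ∧
      (∃ t : ℝ, t < 0 ∧ (t : ℂ) ∈ K)))
    (hB : ∀ ε0 : ℝ, 0 < ε0 → ∃ ε : ℝ, 0 < ε ∧ ε < ε0 ∧ ∀ S : Finset ℂ,
      (∀ w ∈ S, V w = 0 ∧ V2 w + ε * V1 w = 0) → S.card ≤ 2 * l ^ 2)
    (hL : ∀ S : Finset ℝ, (∀ t ∈ S, V (t : ℂ) = 0) → S.card ≤ 2 * l) :
    2 * 𝒦.card ≤ l * (l + 1) := by
  classical
  have hR : ∀ K ∈ 𝒦, Rob (if Rob 4 K V2 then 4 else 2) K V2 := by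
    intro K hKm
    split_ifs with h4
    · exact h4
    · rcases hK K hKm with h | h
      · exact absurd h h4
      · exact h.1
  have hu : ∀ 𝒮 : Finset (Set ℂ), 𝒮 ⊆ 𝒦 → ∃ ε0 : ℝ, 0 < ε0 ∧ ∀ K ∈ 𝒮, ∀ ε : ℝ, 0 < ε → ε < ε0 →
      ∃ S : Finset ℂ, S.card = (if Rob 4 K V2 then 4 else 2) ∧
        ∀ w ∈ S, w ∈ K ∧ V2 w + ε * V1 w = 0 := by
    intro 𝒮
    induction 𝒮 using Finset.induction_on with
    | empty => exact fun _ => ⟨1, one_pos, by simp⟩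
    | insert K 𝒮 _ ih =>
      intro hsubK
      obtain ⟨e1, he1, h1⟩ := ih (fun x hx => hsubK (Finset.mem_insert_of_mem hx))
      obtain ⟨e2, he2, h2⟩ := hR K (hsubK (Finset.mem_insert_self _ _)) V1 hV1
      refine ⟨min e1 e2, lt_min he1 he2, ?_⟩
      intro K' hK' ε hε hε2
      rcases Finset.mem_insert.mp hK' with rfl | hK'
      · exact h2 ε hε (lt_of_lt_of_le hε2 (min_le_right _ _))
      · exact h1 K' hK' ε hε (lt_of_lt_of_le hε2 (min_le_left _ _))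
  obtain ⟨ε0, hε0, hu⟩ := hu 𝒦 (Finset.Subset.refl _)
  obtain ⟨ε, hε, hε2, hBe⟩ := hB ε0 hε0
  have hS : ∀ K : Set ℂ, ∃ S : Finset ℂ, K ∈ 𝒦 → (S.card = (if Rob 4 K V2 then 4 else 2) ∧
        ∀ w ∈ S, w ∈ K ∧ V2 w + ε * V1 w = 0) := by
    intro K
    by_cases hKm : K ∈ 𝒦
    · obtain ⟨S, hS1, hS2⟩ := hu K hKm ε hε hε2
      exact ⟨S, fun _ => ⟨hS1, hS2⟩⟩
    · exact ⟨∅, fun h => absurd h hKm⟩
  choose S hS using hS
  have hT : ∀ K : Set ℂ, ∃ S : Finset ℝ, K ∈ 𝒦 → (S.card = (if Rob 4 K V2 then 0 else 2) ∧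
        ∀ t ∈ S, (t : ℂ) ∈ K) := by
    intro K
    by_cases h4 : Rob 4 K V2
    · exact ⟨∅, fun _ => by simp [h4]⟩
    · by_cases hKm : K ∈ 𝒦
      · rcases hK K hKm with h | ⟨_, ⟨t, ht, htK⟩, ⟨t', ht', htK'⟩⟩
        · exact absurd h h4
        · refine ⟨{t, t'}, fun _ => ⟨?_, ?_⟩⟩
          · rw [Finset.card_pair (by linarith)]
            simp [h4]
          · intro x hx
            rcases Finset.mem_insert.mp hx with rfl | hx
            · exact htK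
            · rw [Finset.mem_singleton.mp hx]
              exact htK'
      · exact ⟨∅, fun h => absurd h hKm⟩
  choose T hT using hT
  have c1 : (𝒦.biUnion S).card = ∑ K ∈ 𝒦, (S K).card := by
    refine Finset.card_biUnion ?_
    intro K hKm K' hKm' hne
    rw [Function.onFun, Finset.disjoint_left]
    intro w hw hw'
    exact Set.disjoint_left.mp (hdisj K hKm K' hKm' hne) ((hS K hKm).2 w hw).1
      ((hS K' hKm').2 w hw').1
  have c2 : (𝒦.biUnion T).card = ∑ K ∈ 𝒦, (T K).card := by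
    refine Finset.card_biUnion ?_
    intro K hKm K' hKm' hne
    rw [Function.onFun, Finset.disjoint_left]
    intro w hw hw'
    exact Set.disjoint_left.mp (hdisj K hKm K' hKm' hne) ((hT K hKm).2 w hw)
      ((hT K' hKm').2 w hw')
  have d1 : (𝒦.biUnion S).card ≤ 2 * l ^ 2 := by
    refine hBe _ fun w hw => ?_
    obtain ⟨K, hKm, hwK⟩ := Finset.mem_biUnion.mp hw
    obtain ⟨h1, h2⟩ := (hS K hKm).2 w hwK
    exact ⟨hsub K hKm w h1, h2⟩
  have d2 : (𝒦.biUnion T).card ≤ 2 * l := by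
    refine hL _ fun t ht => ?_
    obtain ⟨K, hKm, htK⟩ := Finset.mem_biUnion.mp ht
    exact hsub K hKm _ ((hT K hKm).2 t htK)
  have e1 : ∑ K ∈ 𝒦, (S K).card + ∑ K ∈ 𝒦, (T K).card = 4 * 𝒦.card := by
    rw [← Finset.sum_add_distrib, mul_comm, ← smul_eq_mul, ← Finset.sum_const]
    refine Finset.sum_congr rfl fun K hKm => ?_
    rw [(hS K hKm).1, (hT K hKm).1]
    split_ifs <;> rfl
  have : 4 * 𝒦.card ≤ 2 * l ^ 2 + 2 * l := by omega
  have h3 : l * (l + 1) = l ^ 2 + l := by ring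
  omega

end Pool.Agent.OVL
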