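import Pool.Agent.OVL.Defs
import Pool.Agent.Helper2.LP.Crossing

/-!
# Project OVL, module Cross: two joined sets in a box meet; segments and arcs

PLAN. `cross_joined`: take paths `α : Path a b` in `A` and `β : Path c d` in `B` (`JoinedIn.somePath`). Put, for
`s, t : ℝ`, `p s = α (projIcc 0 1 _ ((s + 1) / 2))` (continuous), `q t` likewise for `β`, and apply
`Pool.Agent.Helper2.LP.poincare_miranda` to `h (s, t) = (p s).1 - (q t).1` and `g (s, t) = (q t).2 - (p s).2`
(at `s = -1`: `a.1 ≤ (q t).1`; at `s = 1`: `(q t).1 ≤ b.1`; at `t = -1`: `c.2 ≤ (p s).2`; at `t = 1`: `(p s).2 ≤ d.2`);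
a common zero gives `p s = q t ∈ A ∩ B`.
`joined_hseg`, `joined_vseg`: the segment is the image of the convex (path connected) set `Set.uIcc x1 x2` under the continuous map
`x ↦ (x, y)`; `joined_arc`: image of `Set.Icc s t` (`isPathConnected` of a nonempty convex set, `IsPathConnected.image`,
`IsPathConnected.joinedIn`, `JoinedIn.mono`).
-/

set_option autoImplicit false

namespace Pool.Agent.OVL

private theorem ex_curve (A : Set (ℝ × ℝ)) (a b : ℝ × ℝ) (h : JoinedIn A a b) :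
    ∃ p : ℝ → ℝ × ℝ, Continuous p ∧ p (-1) = a ∧ p 1 = b ∧ ∀ s, p s ∈ A := by
  refine ⟨fun s => h.somePath (Set.projIcc 0 1 zero_le_one ((s + 1) / 2)), ?_, ?_, ?_, ?_⟩
  · exact h.somePath.continuous.comp (continuous_projIcc.comp (by fun_prop))
  · show h.somePath (Set.projIcc 0 1 zero_le_one ((-1 + 1) / 2)) = a
    rw [Set.projIcc_of_le_left zero_le_one (by norm_num)]
    exact h.somePath.source
  · show h.somePath (Set.projIcc 0 1 zero_le_one ((1 + 1) / 2)) = b
    rw [Set.projIcc_of_right_le zero_le_one (by norm_num)]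
    exact h.somePath.target
  · intro s
    exact h.somePath_mem _

theorem cross_joined (A B : Set (ℝ × ℝ)) (a b c d : ℝ × ℝ) (hA : JoinedIn A a b)
    (hB : JoinedIn B c d) (hAy : ∀ p ∈ A, c.2 ≤ p.2 ∧ p.2 ≤ d.2)
    (hBx : ∀ p ∈ B, a.1 ≤ p.1 ∧ p.1 ≤ b.1) : (A ∩ B).Nonempty := by
  obtain ⟨p, hp, hp0, hp1, hpA⟩ := ex_curve A a b hA
  obtain ⟨q, hq, hq0, hq1, hqB⟩ := ex_curve B c d hB
  obtain ⟨s, _, t, _, h1, h2⟩ := Pool.Agent.Helper2.LP.poincare_miranda
    (h := fun z => (p z.1).1 - (q z.2).1) (g := fun z => (q z.2).2 - (p z.1).2)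
    (by fun_prop) (by fun_prop)
    (fun t _ => by
      have := (hBx _ (hqB t)).1
      simp only [hp0]
      linarith)
    (fun t _ => by
      have := (hBx _ (hqB t)).2
      simp only [hp1]
      linarith)
    (fun s _ => by
      have := (hAy _ (hpA s)).1
      simp only [hq0]
      linarith)
    (fun s _ => by
      have := (hAy _ (hpA s)).2
      simp only [hq1]
      linarith)
  have h1' : (p s).1 - (q t).1 = 0 := h1
  have h2' : (q t).2 - (p s).2 = 0 := h2
  have he : p s = q t := Prod.ext (by linarith) (by linarith)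
  exact ⟨p s, hpA s, he ▸ hqB t⟩

private theorem joined_img (A : Set (ℝ × ℝ)) (f : ℝ → ℝ × ℝ) (hf : Continuous f) (S : Set ℝ)
    (hS : Convex ℝ S) (u v : ℝ) (hu : u ∈ S) (hv : v ∈ S) (h : ∀ r ∈ S, f r ∈ A) :
    JoinedIn A (f u) (f v) := by
  have h1 : IsPathConnected S := hS.isPathConnected ⟨u, hu⟩
  have h2 : IsPathConnected (f '' S) := h1.image hf
  refine (h2.joinedIn _ (Set.mem_image_of_mem f hu) _ (Set.mem_image_of_mem f hv)).mono ?_
  rintro _ ⟨r, hr, rfl⟩
  exact h r hr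

theorem joined_hseg (A : Set (ℝ × ℝ)) (x1 x2 y : ℝ) (h : ∀ x ∈ Set.uIcc x1 x2, (x, y) ∈ A) :
    JoinedIn A (x1, y) (x2, y) :=
  joined_img A (fun x => (x, y)) (by fun_prop) (Set.uIcc x1 x2) (convex_uIcc x1 x2) x1 x2
    Set.left_mem_uIcc Set.right_mem_uIcc h

theorem joined_vseg (A : Set (ℝ × ℝ)) (x y1 y2 : ℝ) (h : ∀ y ∈ Set.uIcc y1 y2, (x, y) ∈ A) :
    JoinedIn A (x, y1) (x, y2) :=
  joined_img A (fun y => (x, y)) (by fun_prop) (Set.uIcc y1 y2) (convex_uIcc y1 y2) y1 y2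
    Set.left_mem_uIcc Set.right_mem_uIcc h

theorem joined_arc (A : Set (ℝ × ℝ)) (x y : ℝ → ℝ) (hx : Continuous x) (hy : Continuous y)
    (s t : ℝ) (hst : s ≤ t) (h : ∀ r ∈ Set.Icc s t, (x r, y r) ∈ A) :
    JoinedIn A (x s, y s) (x t, y t) :=
  joined_img A (fun r => (x r, y r)) (by fun_prop) (Set.Icc s t) (convex_Icc s t) s t
    (Set.left_mem_Icc.2 hst) (Set.right_mem_Icc.2 hst) h

end Pool.Agent.OVL
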