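import Pool.Agent.SHB.Main

/-!
# Project OVL (MP_f77893_an), definitions

Four zeros of `u_φφ` on every nodal oval of a spherical harmonic.
Everything is done in logarithmic coordinates `w = exp (x + i y)` of the plane of `Pool/Agent/SHB`.
-/

set_option autoImplicit false

namespace Pool.Agent.OVL

open MvPolynomial Pool.Agent.SHB

/-- `exp (x + i y)` -/
noncomputable def E (z : ℝ × ℝ) : ℂ := Complex.exp (z.1 + z.2 * Complex.I)

/-- `X0 ∂0 + X1 ∂1` -/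
noncomputable def Dx (P : P2) : P2 := X 0 * pderiv 0 P + X 1 * pderiv 1 P

/-- `i (X0 ∂0 - X1 ∂1)` -/
noncomputable def Dy (P : P2) : P2 := C Complex.I * rotW P

/-- the function of `P` in logarithmic coordinates -/
noncomputable def fn (P : P2) (z : ℝ × ℝ) : ℝ := Vf P (E z)

/-- the linear form `a dx + b dy` -/
noncomputable def lin (a b : ℝ) : ℝ × ℝ →L[ℝ] ℝ :=
  a • ContinuousLinearMap.fst ℝ ℝ ℝ + b • ContinuousLinearMap.snd ℝ ℝ ℝ

/-- a `C^2` function `f` of two variables with its first and second derivatives -/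
structure C2 (f fx fy fxx fxy fyy : ℝ × ℝ → ℝ) : Prop where
  d0 : ∀ z, HasFDerivAt f (lin (fx z) (fy z)) z
  dx : ∀ z, HasFDerivAt fx (lin (fxx z) (fxy z)) z
  dy : ∀ z, HasFDerivAt fy (lin (fxy z) (fyy z)) z
  cxx : Continuous fxx
  cxy : Continuous fxy
  cyy : Continuous fyy

/-- the speed factor -/
noncomputable def mu (fx fy : ℝ × ℝ → ℝ) (z : ℝ × ℝ) : ℝ := 1 / (1 + fx z ^ 2 + fy z ^ 2)

/-- a trajectory of the field `mu (-f_y, f_x)`, defined for all times -/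
structure Flow (fx fy : ℝ × ℝ → ℝ) (x y : ℝ → ℝ) : Prop where
  hx : ∀ t, HasDerivAt x (-(mu fx fy (x t, y t) * fy (x t, y t))) t
  hy : ∀ t, HasDerivAt y (mu fx fy (x t, y t) * fx (x t, y t)) t

/-- a trajectory in the zero set of `f` which closes up on the cylinder after time `T` and `k` turns -/
structure Loop (f fx fy : ℝ × ℝ → ℝ) (x y : ℝ → ℝ) (T : ℝ) (k : ℤ) : Prop extends
    Flow fx fy x y where
  T_pos : 0 < T
  zero : ∀ t, f (x t, y t) = 0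
  reg : ∀ t, fx (x t, y t) ≠ 0 ∨ fy (x t, y t) ≠ 0
  perx : ∀ t, x (t + T) = x t
  pery : ∀ t, y (t + T) = y t + 2 * Real.pi * k
  inj : ∀ s t, E (x s, y s) = E (x t, y t) → ∃ n : ℤ, s - t = n * T

/-- a simple closed `C^1` curve in the plane with period `T` -/
structure JC (x y x' y' : ℝ → ℝ) (T : ℝ) : Prop where
  T_pos : 0 < T
  hx : ∀ t, HasDerivAt x (x' t) t
  hy : ∀ t, HasDerivAt y (y' t) t
  cx : Continuous x'
  cy : Continuous y'
  perx : ∀ t, x (t + T) = x t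
  pery : ∀ t, y (t + T) = y t
  reg : ∀ t, x' t ≠ 0 ∨ y' t ≠ 0
  inj : ∀ s t, x s = x t → y s = y t → ∃ n : ℤ, s - t = n * T

/-- a simple `C^1` curve with `(x, y) (t + T) = (x t, y t + c)`, `c ≠ 0` -/
structure LC (x y x' y' : ℝ → ℝ) (T c : ℝ) : Prop where
  T_pos : 0 < T
  c_ne : c ≠ 0
  hx : ∀ t, HasDerivAt x (x' t) t
  hy : ∀ t, HasDerivAt y (y' t) t
  cx : Continuous x'
  cy : Continuous y'
  perx : ∀ t, x (t + T) = x t
  pery : ∀ t, y (t + T) = y t + c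
  reg : ∀ t, x' t ≠ 0 ∨ y' t ≠ 0
  inj : ∀ s t, x s = x t → y s = y t → s = t

/-- a function `V` of the plane and its lift `f` to the `(x, y)`-plane, with the properties used -/
structure Cyl (V : ℂ → ℝ) (f fx fy fxx fxy fyy : ℝ × ℝ → ℝ) : Prop extends
    C2 f fx fy fxx fxy fyy where
  V_cont : Continuous V
  V_exp : ∀ z, V (E z) = f z
  V_zero : V 0 ≠ 0
  px : ∀ z : ℝ × ℝ, fx (z.1, z.2 + 2 * Real.pi) = fx z
  py : ∀ z : ℝ × ℝ, fy (z.1, z.2 + 2 * Real.pi) = fy z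
  bdd : ∃ R : ℝ, ∀ z : ℝ × ℝ, f z = 0 → |z.1| ≤ R
  pde : ∃ c : ℝ × ℝ → ℝ, Continuous c ∧ ∀ z, f z = 0 → fxx z + fyy z = c z * fx z
  ray : ∀ a b y : ℝ, a < b → ∃ x ∈ Set.Ioo a b, f (x, y) ≠ 0
  arc : ∀ a b x : ℝ, a < b → ∃ y ∈ Set.Ioo a b, f (x, y) ≠ 0

/-- every small perturbation `V2 + ε V1` of `V2` has at least `n` zeros on `K` -/
def Rob (n : ℕ) (K : Set ℂ) (V2 : ℂ → ℝ) : Prop :=
  ∀ V1 : ℂ → ℝ, Continuous V1 → ∃ ε0 : ℝ, 0 < ε0 ∧ ∀ ε : ℝ, 0 < ε → ε < ε0 →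
    ∃ S : Finset ℂ, S.card = n ∧ ∀ w ∈ S, w ∈ K ∧ V2 w + ε * V1 w = 0

/-- a point of the zero set with exactly two adjacent components of `{V ≠ 0}` -/
def Good (V : ℂ → ℝ) (q : ℂ) : Prop :=
  ∃ O : Set ℂ, IsOpen O ∧ q ∈ O ∧ ∃ P M : Cc V,
    (∀ z ∈ O, 0 < V z → z ∈ cset V P) ∧ (∀ z ∈ O, V z < 0 → z ∈ cset V M) ∧
    (∀ z ∈ O, V z = 0 → z ∈ closure (cset V P) ∧ z ∈ closure (cset V M))

/-- the component of `p` in the zero set of `V` -/
def comp (V : ℂ → ℝ) (p : ℂ) : Set ℂ := connectedComponentIn {w | V w = 0} p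

end Pool.Agent.OVL
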