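import Pool.Agent.OVL.Defs

/-!
# Project OVL, module Tr: transfer from the sphere to the plane

The map `g w = (nn a w)⁻¹ • sphV a w` of the plane into the sphere induces a surjective map of the components; a right
inverse of it maps the first set of components into the second one (`grad`).
-/

set_option autoImplicit false

namespace Pool.Agent.OVL

open MvPolynomial Pool.Agent.SHB

private lemma sv0 (a w : ℂ) : sphV a w 0 =
    2 * (w.re * (a.re ^ 2 - a.im ^ 2 - 1) - w.im * (2 * a.re * a.im)) +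
      (1 - w.re ^ 2 - w.im ^ 2) * (2 * a.re) := by
  simp [sphV, phi, frA, frB, frP, pow_two]
  ring

private lemma sv1 (a w : ℂ) : sphV a w 1 =
    2 * (w.re * (-2 * a.re * a.im) - w.im * (a.re ^ 2 - a.im ^ 2 + 1)) +
      (1 - w.re ^ 2 - w.im ^ 2) * (-2 * a.im) := by
  simp [sphV, phi, frA, frB, frP, pow_two]
  ring

private lemma sv2 (a w : ℂ) : sphV a w 2 =
    2 * (w.re * (2 * a.re) - w.im * (2 * a.im)) +
      (1 - w.re ^ 2 - w.im ^ 2) * (1 - a.re ^ 2 - a.im ^ 2) := by
  simp [sphV, phi, frA, frB, frP, pow_two]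
  ring

/-! ### connected components -/

private lemma nearby_of (u : MvPolynomial (Fin 3) ℝ) (x : SphC u) (ρ : ℝ → Fin 3 → ℝ)
    (hρ : Continuous ρ) (h0 : ρ 0 = x.1) (h1 : ∀ s, ∑ i : Fin 3, ρ s i ^ 2 = 1)
    (h2 : ∀ s : ℝ, 0 < s → s ≤ 1 → ρ s ≠ x.1) :
    ∃ y : SphC u, y ≠ x ∧ (y : ConnectedComponents (SphC u)) = (x : ConnectedComponents (SphC u)) := by
  have hcont : Continuous fun s => eval (ρ s) u := (MvPolynomial.continuous_eval u).comp hρ
  have hne : eval (ρ 0) u ≠ 0 := by rw [h0]; exact x.2.2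
  have hev : ∀ᶠ s in nhds (0 : ℝ), eval (ρ s) u ≠ 0 := hcont.continuousAt.eventually_ne hne
  obtain ⟨ε, hε, hball⟩ := Metric.eventually_nhds_iff.1 hev
  obtain ⟨δ, hδ0, hδ1, hδ⟩ : ∃ δ : ℝ, 0 < δ ∧ δ ≤ 1 ∧ δ < ε :=
    ⟨min 1 (ε / 2), lt_min one_pos (by linarith), min_le_left _ _,
      lt_of_le_of_lt (min_le_right _ _) (by linarith)⟩
  have hin : ∀ r : unitInterval, eval (ρ (r.1 * δ)) u ≠ 0 := by
    intro r
    apply hball
    rw [Real.dist_eq, sub_zero, abs_of_nonneg (mul_nonneg r.2.1 hδ0.le)]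
    calc r.1 * δ ≤ 1 * δ := mul_le_mul_of_nonneg_right r.2.2 hδ0.le
      _ < ε := by linarith
  let γ : unitInterval → SphC u := fun r => ⟨ρ (r.1 * δ), h1 _, hin r⟩
  have hγ : Continuous γ :=
    (hρ.comp (continuous_subtype_val.mul continuous_const)).subtype_mk _
  have hpre := isPreconnected_range hγ
  have hγ0 : γ 0 = x := by
    apply Subtype.ext
    show ρ ((0 : ℝ) * δ) = x.1
    rw [zero_mul, h0]
  refine ⟨γ 1, ?_, ?_⟩
  · intro h
    have h3 := congrArg Subtype.val h
    have h4 : ρ ((1 : ℝ) * δ) = x.1 := h3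
    rw [one_mul] at h4
    exact h2 δ hδ0 hδ1 h4
  · apply ConnectedComponents.coe_eq_coe'.2
    have h5 : x ∈ Set.range γ := ⟨0, hγ0⟩
    exact hpre.subset_connectedComponent h5 ⟨1, rfl⟩

private lemma nearby (u : MvPolynomial (Fin 3) ℝ) (x : SphC u) :
    ∃ y : SphC u, y ≠ x ∧ (y : ConnectedComponents (SphC u)) = (x : ConnectedComponents (SphC u)) := by
  have hx := x.2.1
  rw [Fin.sum_univ_three] at hx
  have hsin : ∀ s : ℝ, 0 < s → s ≤ 1 → Real.sin s ≠ 0 := fun s h1 h2 =>
    (Real.sin_pos_of_pos_of_le_one h1 h2).ne'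
  by_cases hxy : x.1 0 ^ 2 + x.1 1 ^ 2 = 0
  · have hx12 : 0 < x.1 1 ^ 2 + x.1 2 ^ 2 := by nlinarith [sq_nonneg (x.1 0), sq_nonneg (x.1 1)]
    refine nearby_of u x (fun s => ![x.1 0, Real.cos s * x.1 1 - Real.sin s * x.1 2,
      Real.sin s * x.1 1 + Real.cos s * x.1 2]) ?_ ?_ ?_ ?_
    · apply continuous_pi
      intro i
      fin_cases i
      · exact continuous_const
      · exact (Real.continuous_cos.mul continuous_const).sub
          (Real.continuous_sin.mul continuous_const)
      · exact (Real.continuous_sin.mul continuous_const).add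
          (Real.continuous_cos.mul continuous_const)
    · funext i
      fin_cases i
      · rfl
      · simp
      · simp
    · intro s
      rw [Fin.sum_univ_three]
      show x.1 0 ^ 2 + (Real.cos s * x.1 1 - Real.sin s * x.1 2) ^ 2 +
        (Real.sin s * x.1 1 + Real.cos s * x.1 2) ^ 2 = 1
      have hcs := Real.sin_sq_add_cos_sq s
      linear_combination (x.1 1 ^ 2 + x.1 2 ^ 2) * hcs + hx
    · intro s hs0 hs1 h
      have e1 : Real.cos s * x.1 1 - Real.sin s * x.1 2 = x.1 1 := congrFun h 1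
      have e2 : Real.sin s * x.1 1 + Real.cos s * x.1 2 = x.1 2 := congrFun h 2
      have e3 : Real.sin s * (x.1 1 ^ 2 + x.1 2 ^ 2) = 0 := by
        linear_combination x.1 1 * e2 - x.1 2 * e1
      rcases mul_eq_zero.1 e3 with h3 | h3
      · exact hsin s hs0 hs1 h3
      · exact hx12.ne' h3
  · refine nearby_of u x (fun s => ![Real.cos s * x.1 0 - Real.sin s * x.1 1,
      Real.sin s * x.1 0 + Real.cos s * x.1 1, x.1 2]) ?_ ?_ ?_ ?_
    · apply continuous_pi
      intro i
      fin_cases i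
      · exact (Real.continuous_cos.mul continuous_const).sub
          (Real.continuous_sin.mul continuous_const)
      · exact (Real.continuous_sin.mul continuous_const).add
          (Real.continuous_cos.mul continuous_const)
      · exact continuous_const
    · funext i
      fin_cases i
      · simp
      · simp
      · rfl
    · intro s
      rw [Fin.sum_univ_three]
      show (Real.cos s * x.1 0 - Real.sin s * x.1 1) ^ 2 +
        (Real.sin s * x.1 0 + Real.cos s * x.1 1) ^ 2 + x.1 2 ^ 2 = 1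
      have hcs := Real.sin_sq_add_cos_sq s
      linear_combination (x.1 0 ^ 2 + x.1 1 ^ 2) * hcs + hx
    · intro s hs0 hs1 h
      have e1 : Real.cos s * x.1 0 - Real.sin s * x.1 1 = x.1 0 := congrFun h 0
      have e2 : Real.sin s * x.1 0 + Real.cos s * x.1 1 = x.1 1 := congrFun h 1
      have e3 : Real.sin s * (x.1 0 ^ 2 + x.1 1 ^ 2) = 0 := by
        linear_combination x.1 0 * e2 - x.1 1 * e1
      rcases mul_eq_zero.1 e3 with h3 | h3
      · exact hsin s hs0 hs1 h3
      · exact hxy h3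

private noncomputable def nn (a w : ℂ) : ℝ := (1 + ‖a‖ ^ 2) * (1 + ‖w‖ ^ 2)

private lemma nn_pos (a w : ℂ) : 0 < nn a w := by
  unfold nn
  positivity

private lemma sphV_cont (a : ℂ) : Continuous fun w => sphV a w := by
  apply continuous_pi
  intro i
  have h1 := Complex.continuous_re
  have h2 := Complex.continuous_im
  fin_cases i
  · show Continuous fun w => sphV a w 0
    simp only [sv0]
    fun_prop
  · show Continuous fun w => sphV a w 1
    simp only [sv1]
    fun_prop
  · show Continuous fun w => sphV a w 2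
    simp only [sv2]
    fun_prop

private lemma gV_norm (a w : ℂ) : ∑ i : Fin 3, ((nn a w)⁻¹ • sphV a w) i ^ 2 = 1 := by
  have h := norm_sphV a w
  have h1 := nn_pos a w
  simp only [Pi.smul_apply, smul_eq_mul, mul_pow]
  rw [← Finset.mul_sum, h]
  show (nn a w)⁻¹ ^ 2 * (nn a w) ^ 2 = 1
  rw [← mul_pow, inv_mul_cancel₀ h1.ne', one_pow]

private lemma t_eq (a w : ℂ) (x : Fin 3 → ℝ) (hx : ∑ i : Fin 3, x i ^ 2 = 1) (t : ℝ)
    (h : sphV a w = t • x) : t ^ 2 = (nn a w) ^ 2 := by
  have h1 := norm_sphV a w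
  rw [h] at h1
  simp only [Pi.smul_apply, smul_eq_mul, mul_pow] at h1
  rw [← Finset.mul_sum, hx, mul_one, ← mul_pow] at h1
  exact h1


private lemma chain' (Φ : Fin 3 → P2) (k : Fin 2) (p : MvPolynomial (Fin 3) ℂ) :
    pderiv k (aeval Φ p) = ∑ i : Fin 3, aeval Φ (pderiv i p) * pderiv k (Φ i) := by
  induction p using MvPolynomial.induction_on with
  | C c => simp
  | add p q hp hq =>
    simp only [map_add, hp, hq, add_mul, Finset.sum_add_distrib]
  | mul_X p n hp =>
    rw [map_mul, aeval_X, pderiv_mul, hp]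
    simp only [pderiv_mul, map_add, map_mul, aeval_X, add_mul, Finset.sum_add_distrib,
      Finset.sum_mul]
    congr 1
    · apply Finset.sum_congr rfl
      intro i _
      ring
    · rw [Finset.sum_eq_single n]
      · simp
      · intro i _ hi
        rw [pderiv_X_of_ne hi.symm]
        simp
      · simp

private lemma pd0_phi' (a b : ℂ) (i : Fin 3) :
    pderiv 0 (phi a b i) = C (frA a i) - C (frP a b i) * X 1 := by
  simp only [phi, map_add, map_sub, pderiv_mul, pderiv_C, pderiv_one, pderiv_X_self,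
    pderiv_X_of_ne (show (1 : Fin 2) ≠ 0 by decide)]
  ring

private lemma conjA (a : ℂ) (i : Fin 3) :
    (starRingEnd ℂ) (frA a i) = frB ((starRingEnd ℂ) a) i := by
  fin_cases i
  · simp [frA, frB]
  · simp [frA, frB]
  · simp [frA, frB]
    left
    exact map_ofNat (starRingEnd ℂ) 2

private lemma conjP (a : ℂ) (i : Fin 3) :
    (starRingEnd ℂ) (frP a ((starRingEnd ℂ) a) i) = frP a ((starRingEnd ℂ) a) i := by
  fin_cases i
  · simp [frP]
    ring
  · simp [frP]
    ring
  · simp [frP]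
    ring

/-- a common zero of `U` and `∂_w U` comes from a common zero of `u` and its gradient -/
private lemma grad (u : MvPolynomial (Fin 3) ℝ) (l : ℕ) (hu : u.IsHomogeneous l) (a w : ℂ)
    (h0 : Vf (UU (cx u) a ((starRingEnd ℂ) a)) w = 0)
    (h1 : eval ![w, (starRingEnd ℂ) w] (pderiv 0 (UU (cx u) a ((starRingEnd ℂ) a))) = 0)
    (i : Fin 3) : eval (sphV a w) (pderiv i u) = 0 := by
  set b := (starRingEnd ℂ) a with hb
  set w' := (starRingEnd ℂ) w with hw'
  set v : Fin 3 → ℝ := fun i => eval (sphV a w) (pderiv i u) with hv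
  have hev : ∀ i, eval ![w, w'] (aeval (phi a b) (pderiv i (cx u))) = (v i : ℂ) := by
    intro i
    have h2 : pderiv i (cx u) = cx (pderiv i u) := by rw [cx, pderiv_map]; rfl
    rw [h2]
    exact eval_UU (pderiv i u) a w
  have e1 : ∑ i : Fin 3, (v i : ℂ) * (frA a i - frP a b i * w') = 0 := by
    rw [UU, chain', map_sum] at h1
    rw [← h1]
    apply Finset.sum_congr rfl
    intro i _
    rw [map_mul, hev, pd0_phi']
    simp [hw']
  have e2 : ∑ i : Fin 3, (v i : ℂ) * (frB b i - frP a b i * w) = 0 := by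
    have h3 := congrArg (starRingEnd ℂ) e1
    rw [map_sum, map_zero] at h3
    rw [← h3]
    apply Finset.sum_congr rfl
    intro i _
    rw [map_mul, map_sub, map_mul, conjA, conjP, Complex.conj_ofReal, hw', Complex.conj_conj]
  have e3 : ∑ i : Fin 3, (v i : ℂ) * (frA a i * w + frB b i * w' + frP a b i * (1 - w * w')) = 0 := by
    have h4 : ∑ i : Fin 3, sphV a w i * v i = 0 := by
      have h5 := congrArg (eval (sphV a w)) hu.sum_X_mul_pderiv
      rw [map_sum] at h5
      simp only [map_mul, eval_X, map_nsmul] at h5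
      rw [h5, ← Vf_UU, h0, smul_zero]
    have h6 : ((∑ i : Fin 3, sphV a w i * v i : ℝ) : ℂ) = 0 := by rw [h4]; rfl
    rw [Complex.ofReal_sum] at h6
    rw [← h6]
    apply Finset.sum_congr rfl
    intro i _
    rw [Complex.ofReal_mul, ← sphV_eq, phi]
    simp only [map_add, map_mul, map_sub, map_one, eval_C, eval_X, Matrix.cons_val_zero,
      Matrix.cons_val_one]
    ring
  have hww : (1 : ℂ) + w * w' ≠ 0 := by
    rw [hw', Complex.mul_conj]
    intro h
    have h7 : (1 : ℝ) + Complex.normSq w = 0 := by exact_mod_cast h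
    have := Complex.normSq_nonneg w
    linarith
  have haa : (1 : ℂ) + a * b ≠ 0 := by
    rw [hb, Complex.mul_conj]
    intro h
    have h7 : (1 : ℝ) + Complex.normSq a = 0 := by exact_mod_cast h
    have := Complex.normSq_nonneg a
    linarith
  rw [Fin.sum_univ_three] at e1 e2 e3
  have hP : (v 0 : ℂ) * frP a b 0 + v 1 * frP a b 1 + v 2 * frP a b 2 = 0 := by
    apply (mul_eq_zero.1 (show ((1 : ℂ) + w * w') *
      ((v 0 : ℂ) * frP a b 0 + v 1 * frP a b 1 + v 2 * frP a b 2) = 0 by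
        linear_combination e3 - w * e1 - w' * e2)).resolve_left hww
  have hA : (v 0 : ℂ) * frA a 0 + v 1 * frA a 1 + v 2 * frA a 2 = 0 := by
    linear_combination e1 + w' * hP
  have hB : (v 0 : ℂ) * frB b 0 + v 1 * frB b 1 + v 2 * frB b 2 = 0 := by
    linear_combination e2 + w * hP
  have hfin : ∀ j : Fin 3, ((1 : ℂ) + a * b) ^ 2 * v j = 0 := by
    intro j
    have f0 := frame a b 0 j
    have f1 := frame a b 1 j
    have f2 := frame a b 2 j
    have h8 : (v 0 : ℂ) * (if (0 : Fin 3) = j then (1 + a * b) ^ 2 else 0) +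
        v 1 * (if (1 : Fin 3) = j then (1 + a * b) ^ 2 else 0) +
        v 2 * (if (2 : Fin 3) = j then (1 + a * b) ^ 2 else 0) = 0 := by
      linear_combination (-(v 0 : ℂ)) * f0 - v 1 * f1 - v 2 * f2 + frB b j / 2 * hA +
        frA a j / 2 * hB + frP a b j * hP
    fin_cases j
    · simpa [mul_comm] using h8
    · simpa [mul_comm] using h8
    · simpa [mul_comm] using h8
  have h9 := (mul_eq_zero.1 (hfin i)).resolve_left (pow_ne_zero 2 haa)
  have h10 : v i = 0 := by exact_mod_cast h9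
  exact h10

private noncomputable def gg (a w : ℂ) : Fin 3 → ℝ := (nn a w)⁻¹ • sphV a w

private lemma gg_cont (a : ℂ) : Continuous (gg a) := by
  have hnn : Continuous fun w : ℂ => nn a w := by
    unfold nn
    fun_prop
  exact (hnn.inv₀ fun w => (nn_pos a w).ne').smul (sphV_cont a)

private lemma gg_mem (u : MvPolynomial (Fin 3) ℝ) (l : ℕ) (hu : u.IsHomogeneous l) (a : ℂ)
    (w : ℂ) (hw : Vf (UU (cx u) a ((starRingEnd ℂ) a)) w ≠ 0) :
    ∑ i : Fin 3, gg a w i ^ 2 = 1 ∧ MvPolynomial.eval (gg a w) u ≠ 0 := by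
  refine ⟨gV_norm a w, ?_⟩
  rw [gg, eval_smul_hom hu, ← Vf_UU]
  exact mul_ne_zero (pow_ne_zero _ (inv_ne_zero (nn_pos a w).ne')) hw

private noncomputable def gS (u : MvPolynomial (Fin 3) ℝ) (l : ℕ) (hu : u.IsHomogeneous l) (a : ℂ) :
    PlaneC (UU (cx u) a ((starRingEnd ℂ) a)) → SphC u :=
  fun w => ⟨gg a w.1, gg_mem u l hu a w.1 w.2⟩

private lemma gS_cont (u : MvPolynomial (Fin 3) ℝ) (l : ℕ) (hu : u.IsHomogeneous l) (a : ℂ) :
    Continuous (gS u l hu a) :=
  Continuous.subtype_mk ((gg_cont a).comp continuous_subtype_val) _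

private lemma gS_surj (u : MvPolynomial (Fin 3) ℝ) (l : ℕ) (hu : u.IsHomogeneous l) (a : ℂ) :
    Function.Surjective (gS_cont u l hu a).connectedComponentsMap := by
  have key : ∀ y : SphC u, (∃ (w : ℂ) (t : ℝ), 0 < t ∧ sphV a w = t • y.1) →
      ∃ w : PlaneC (UU (cx u) a ((starRingEnd ℂ) a)), gS u l hu a w = y := by
    rintro y ⟨w, t, ht, h⟩
    have h1 := t_eq a w y.1 y.2.1 t h
    have h2 : t = nn a w := by
      have h3 := nn_pos a w
      rcases sq_eq_sq_iff_eq_or_eq_neg.1 h1 with h4 | h4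
      · exact h4
      · linarith
    have h5 : eval (sphV a w) u ≠ 0 := by
      rw [h, eval_smul_hom hu]
      exact mul_ne_zero (pow_ne_zero _ ht.ne') y.2.2
    refine ⟨⟨w, by rw [Vf_UU]; exact h5⟩, ?_⟩
    apply Subtype.ext
    show (nn a w)⁻¹ • sphV a w = y.1
    rw [h, h2, smul_smul, inv_mul_cancel₀ (nn_pos a w).ne', one_smul]
  intro c
  obtain ⟨x, rfl⟩ := ConnectedComponents.surjective_coe c
  rcases stereo a x.1 x.2.1 with h | ⟨t, ht, hx⟩
  · obtain ⟨w, hw⟩ := key x h
    refine ⟨.mk w, ?_⟩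
    rw [Continuous.connectedComponentsMap_mk, hw]
  · obtain ⟨y, hyx, hyc⟩ := nearby u x
    rcases stereo a y.1 y.2.1 with h | ⟨t', ht', hy⟩
    · obtain ⟨w, hw⟩ := key y h
      refine ⟨.mk w, ?_⟩
      rw [Continuous.connectedComponentsMap_mk, hw]
      exact hyc
    · exfalso
      apply hyx
      apply Subtype.ext
      have e1 := t_eq a 0 x.1 x.2.1 t hx
      have e2 := t_eq a 0 y.1 y.2.1 t' hy
      have e3 : t = t' := by
        rcases sq_eq_sq_iff_eq_or_eq_neg.1 (e1.trans e2.symm) with h4 | h4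
        · exact h4
        · linarith
      rw [hx, e3] at hy
      exact (smul_right_injective _ ht'.ne hy).symm

theorem transfer (u : MvPolynomial (Fin 3) ℝ) (l : ℕ) (hl : 1 ≤ l) (hu : u.IsHomogeneous l) (a : ℂ)
    (U : P2) (hU : U = UU (cx u) a ((starRingEnd ℂ) a))
    (hfin : Finite (Cc (Vf U))) :
    {D : ConnectedComponents (SphC u) | ∀ x ∈ closure {y : Fin 3 → ℝ |
        ∃ h : ∑ i : Fin 3, y i ^ 2 = 1 ∧ MvPolynomial.eval y u ≠ 0,
          ConnectedComponents.mk (⟨y, h⟩ : SphC u) = D},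
        MvPolynomial.eval x u = 0 → ∃ i : Fin 3, MvPolynomial.eval x (pderiv i u) ≠ 0}.ncard ≤
    {D : Cc (Vf U) | ∀ w ∈ closure (cset (Vf U) D), Vf U w = 0 →
      eval ![w, (starRingEnd ℂ) w] (pderiv 0 U) ≠ 0}.ncard := by
  subst hU
  set U := UU (cx u) a ((starRingEnd ℂ) a) with hUd
  have hsurj := gS_surj u l hu a
  let Ψ : ConnectedComponents (SphC u) → Cc (Vf U) := Function.surjInv hsurj
  have hΨ : ∀ D, (gS_cont u l hu a).connectedComponentsMap (Ψ D) = D := Function.surjInv_eq hsurj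
  haveI : Finite (Cc (Vf U)) := hfin
  refine Set.ncard_le_ncard_of_injOn Ψ ?_ ?_ (Set.toFinite _)
  · intro D hD w hw hw0 hcon
    have h1 : gg a w ∈ closure {y : Fin 3 → ℝ |
        ∃ h : ∑ i : Fin 3, y i ^ 2 = 1 ∧ MvPolynomial.eval y u ≠ 0,
          ConnectedComponents.mk (⟨y, h⟩ : SphC u) = D} := by
      refine map_mem_closure (gg_cont a) hw ?_
      rintro y ⟨hy, hyD⟩
      refine ⟨gg_mem u l hu a y hy, ?_⟩
      rw [← hΨ D, ← hyD]
      rfl
    have h2 : MvPolynomial.eval (gg a w) u = 0 := by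
      rw [gg, eval_smul_hom hu, ← Vf_UU, hw0, mul_zero]
    obtain ⟨i, hi⟩ := hD _ h1 h2
    apply hi
    rw [gg, eval_smul_hom (hu.pderiv (i := i)), grad u l hu a w hw0 hcon i, mul_zero]
  · intro D1 _ D2 _ h
    exact (Function.injective_surjInv hsurj) h

end Pool.Agent.OVL
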