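import Pool.Agent.OVL.Plane
import Pool.Agent.OVL.Tr

/-!
# Project OVL, module Fin: the theorem

PLAN. `exists_generic u l hl hu (spin_UU (cx u) l (cx_homog hu) (cx_harm hh) 0 0) h0 ∅` gives `a` with `coeff (ex 0 0) U ≠ 0`, `coeff (ex 1 0) U ≠ 0` for `U = UU (cx u) a (conj a)`; `spin_UU`, `real_UU`; `plane_bound`, `transfer`; finiteness of
`ConnectedComponents (SphC u)` by `comps_le`. Second part: if there is no singular zero then the set in the first part is `univ` (a point `x` of the closure lies on the sphere, which is closed), `Set.ncard_univ`.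
-/

set_option autoImplicit false

namespace Pool.Agent.OVL

open MvPolynomial Pool.Agent.SHB

theorem final (l : ℕ) (hl : 1 ≤ l) (u : MvPolynomial (Fin 3) ℝ) (hu : u.IsHomogeneous l)
    (harm : ∑ i : Fin 3, pderiv i (pderiv i u) = 0) (h0 : u ≠ 0) :
    Finite (ConnectedComponents {x : Fin 3 → ℝ // ∑ i : Fin 3, x i ^ 2 = 1 ∧ eval x u ≠ 0}) ∧
    {D : ConnectedComponents {x : Fin 3 → ℝ // ∑ i : Fin 3, x i ^ 2 = 1 ∧ eval x u ≠ 0} |
        ∀ x ∈ closure {y : Fin 3 → ℝ | ∃ h : ∑ i : Fin 3, y i ^ 2 = 1 ∧ eval y u ≠ 0,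
          ConnectedComponents.mk ⟨y, h⟩ = D},
        eval x u = 0 → ∃ i : Fin 3, eval x (pderiv i u) ≠ 0}.ncard ≤ l * (l + 1) / 2 + 1 ∧
    ((∀ x : Fin 3 → ℝ, ∑ i : Fin 3, x i ^ 2 = 1 → eval x u = 0 →
        ∃ i : Fin 3, eval x (pderiv i u) ≠ 0) →
      Nat.card (ConnectedComponents {x : Fin 3 → ℝ // ∑ i : Fin 3, x i ^ 2 = 1 ∧ eval x u ≠ 0}) ≤
        l * (l + 1) / 2 + 1) := by
  obtain ⟨a, -, hc0, hc1, -⟩ := exists_generic u l hl hu
    (spin_UU (cx u) l (cx_homog hu) (cx_harm harm) 0 0) h0 ∅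
  have hsp : Spin l (UU (cx u) a ((starRingEnd ℂ) a)) :=
    spin_UU (cx u) l (cx_homog hu) (cx_harm harm) a _
  obtain ⟨hfin, hb⟩ := plane_bound hsp hl (real_UU u a) hc0 hc1
  have hfin2 := (comps_le u l hu a hfin).1
  have hmain := (transfer u l hl hu a _ rfl hfin).trans hb
  refine ⟨hfin2, hmain, ?_⟩
  intro hreg
  refine le_trans (le_of_eq ?_) hmain
  rw [← Set.ncard_univ]
  congr 1
  symm
  rw [Set.eq_univ_iff_forall]
  intro D x hx hux
  refine hreg x ?_ hux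
  have hcl : IsClosed {y : Fin 3 → ℝ | ∑ i : Fin 3, y i ^ 2 = 1} :=
    isClosed_eq (by fun_prop) continuous_const
  have hsub : {y : Fin 3 → ℝ | ∃ h : ∑ i : Fin 3, y i ^ 2 = 1 ∧ eval y u ≠ 0,
      ConnectedComponents.mk (⟨y, h⟩ : SphC u) = D} ⊆
      {y : Fin 3 → ℝ | ∑ i : Fin 3, y i ^ 2 = 1} := fun y hy => hy.choose.1
  exact closure_minimal hsub hcl hx

end Pool.Agent.OVL
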