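import Pool.Agent.OVL.Defs

/-!
# Project OVL, module Fn: `fn P` in the coordinates `(x, y)`, its derivative, periodicity; derivatives of `Vf`
-/

set_option autoImplicit false

namespace Pool.Agent.OVL

open MvPolynomial Pool.Agent.SHB

/-- the value of `P` at `(w, conj w)` -/
private noncomputable def fv (P : P2) (w : ℂ) : ℂ := eval ![w, (starRingEnd ℂ) w] P

/-- the linear map `h ↦ a h + b conj h` -/
private noncomputable def fL (a b : ℂ) : ℂ →L[ℝ] ℂ :=
  a • ContinuousLinearMap.id ℝ ℂ + b • (Complex.conjCLE : ℂ →L[ℝ] ℂ)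

private theorem fL_apply (a b h : ℂ) : fL a b h = a * h + b * (starRingEnd ℂ) h := by
  simp [fL]

private theorem fv_strict (P : P2) (q : ℂ) :
    HasStrictFDerivAt (fv P) (fL (fv (pderiv 0 P) q) (fv (pderiv 1 P) q)) q := by
  induction P using MvPolynomial.induction_on with
  | C a =>
    have h1 : fv (C a) = fun _ => a := by
      funext w
      simp [fv]
    rw [h1]
    have h2 : fL (fv (pderiv 0 (C a)) q) (fv (pderiv 1 (C a)) q) = 0 := by
      ext
      simp [fL_apply, fv]
    rw [h2]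
    exact hasStrictFDerivAt_const _ _
  | add P Q hP hQ =>
    have h1 : fv (P + Q) = fv P + fv Q := by
      funext w
      simp [fv]
    rw [h1]
    refine (hP.add hQ).congr_fderiv ?_
    apply ContinuousLinearMap.ext
    intro h
    simp only [add_apply, fL_apply, fv, map_add]
    ring
  | mul_X P i hP =>
    have h1 : fv (P * X i) = fv P * fv (X i) := by
      funext w
      simp [fv]
    have hX : HasStrictFDerivAt (fv (X i)) (fL (fv (pderiv 0 (X i)) q) (fv (pderiv 1 (X i)) q)) q := by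
      fin_cases i
      · have h2 : fv (X 0) = fun w => w := by
          funext w
          simp [fv]
        have h3 : fL (fv (pderiv 0 (X 0)) q) (fv (pderiv 1 (X 0)) q) = ContinuousLinearMap.id ℝ ℂ := by
          apply ContinuousLinearMap.ext
          intro h
          simp [fL_apply, fv]
        show HasStrictFDerivAt (fv (X 0)) (fL (fv (pderiv 0 (X 0)) q) (fv (pderiv 1 (X 0)) q)) q
        rw [h3, h2]
        exact hasStrictFDerivAt_id q
      · have h2 : fv (X 1) = fun w => (Complex.conjCLE : ℂ →L[ℝ] ℂ) w := by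
          funext w
          simp [fv]
        have h3 : fL (fv (pderiv 0 (X 1)) q) (fv (pderiv 1 (X 1)) q) = (Complex.conjCLE : ℂ →L[ℝ] ℂ) := by
          apply ContinuousLinearMap.ext
          intro h
          simp [fL_apply, fv]
        show HasStrictFDerivAt (fv (X 1)) (fL (fv (pderiv 0 (X 1)) q) (fv (pderiv 1 (X 1)) q)) q
        rw [h3, h2]
        exact (Complex.conjCLE : ℂ →L[ℝ] ℂ).hasStrictFDerivAt
    rw [h1]
    refine (hP.mul hX).congr_fderiv ?_
    apply ContinuousLinearMap.ext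
    intro h
    simp only [add_apply, smul_apply, fL_apply, fv,
      Derivation.leibniz, smul_eq_mul, map_add, map_mul]
    ring

private theorem vf_eq (P : P2) : Vf P = fun w => Complex.reCLM (fv P w) := by
  funext w
  rfl

private theorem fv_cont (P : P2) : Continuous (fv P) :=
  continuous_iff_continuousAt.2 fun q => (fv_strict P q).continuousAt

private theorem E_deriv (z : ℝ × ℝ) :
    HasFDerivAt E (E z • (Complex.ofRealCLM.comp (ContinuousLinearMap.fst ℝ ℝ ℝ) +
      Complex.I • Complex.ofRealCLM.comp (ContinuousLinearMap.snd ℝ ℝ ℝ))) z := by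
  have h1 : HasFDerivAt (fun z : ℝ × ℝ => (z.1 : ℂ) + z.2 * Complex.I)
      (Complex.ofRealCLM.comp (ContinuousLinearMap.fst ℝ ℝ ℝ) +
        Complex.I • Complex.ofRealCLM.comp (ContinuousLinearMap.snd ℝ ℝ ℝ)) z := by
    have h2 : (fun z : ℝ × ℝ => (z.1 : ℂ) + z.2 * Complex.I) =
        (Complex.ofRealCLM.comp (ContinuousLinearMap.fst ℝ ℝ ℝ) +
          Complex.I • Complex.ofRealCLM.comp (ContinuousLinearMap.snd ℝ ℝ ℝ)) := by
      funext z
      simp [mul_comm]
    rw [h2]
    exact (Complex.ofRealCLM.comp (ContinuousLinearMap.fst ℝ ℝ ℝ) +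
      Complex.I • Complex.ofRealCLM.comp (ContinuousLinearMap.snd ℝ ℝ ℝ) :
        ℝ × ℝ →L[ℝ] ℂ).hasFDerivAt
  exact h1.cexp

private theorem E_cont : Continuous E :=
  continuous_iff_continuousAt.2 fun z => (E_deriv z).continuousAt

private theorem fv_Dx (P : P2) (w : ℂ) :
    fv (Dx P) w = w * fv (pderiv 0 P) w + (starRingEnd ℂ) w * fv (pderiv 1 P) w := by
  simp [fv, Dx]

private theorem fv_Dy (P : P2) (w : ℂ) :
    fv (Dy P) w = Complex.I * (w * fv (pderiv 0 P) w - (starRingEnd ℂ) w * fv (pderiv 1 P) w) := by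
  simp [fv, Dy, rotW]

private theorem fn_eq (P : P2) (z : ℝ × ℝ) : fn P z = (fv P (E z)).re := rfl

theorem hasF (P : P2) (z : ℝ × ℝ) : HasFDerivAt (fn P) (lin (fn (Dx P) z) (fn (Dy P) z)) z := by
  have h1 : fn P = fun z => Complex.reCLM (fv P (E z)) := rfl
  rw [h1]
  have h2 := (Complex.reCLM.hasFDerivAt (x := fv P (E z))).comp z
    ((fv_strict P (E z)).hasFDerivAt.comp z (E_deriv z))
  refine h2.congr_fderiv ?_
  apply ContinuousLinearMap.ext
  rintro ⟨u, v⟩
  have h3 : lin (fn (Dx P) z) (fn (Dy P) z) (u, v) = (fv (Dx P) (E z)).re * u + (fv (Dy P) (E z)).re * v := by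
    simp [lin, fn_eq]
  rw [h3, fv_Dx, fv_Dy]
  simp only [ContinuousLinearMap.comp_apply, smul_apply,
    add_apply, fL_apply, Complex.reCLM_apply, Complex.ofRealCLM_apply,
    ContinuousLinearMap.coe_fst', ContinuousLinearMap.coe_snd', smul_eq_mul, map_mul, map_add,
    Complex.conj_ofReal, Complex.conj_I]
  simp only [Complex.add_re, Complex.add_im, Complex.mul_re, Complex.mul_im, Complex.sub_re,
    Complex.sub_im, Complex.I_re, Complex.I_im, Complex.ofReal_re, Complex.ofReal_im,
    Complex.neg_re, Complex.neg_im, Complex.conj_re, Complex.conj_im]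
  ring

theorem Vf_cont (P : P2) : Continuous (Vf P) := by
  rw [vf_eq]
  exact Complex.reCLM.continuous.comp (fv_cont P)

theorem fn_cont (P : P2) : Continuous (fn P) := (Vf_cont P).comp E_cont

theorem fn_per (P : P2) (z : ℝ × ℝ) : fn P (z.1, z.2 + 2 * Real.pi) = fn P z := by
  have h1 : E (z.1, z.2 + 2 * Real.pi) = E z := by
    unfold E
    have h2 : ((z.1 : ℂ) + ((z.2 + 2 * Real.pi : ℝ) : ℂ) * Complex.I) =
        ((z.1 : ℂ) + z.2 * Complex.I) + 2 * Real.pi * Complex.I := by
      push_cast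
      ring
    show Complex.exp ((z.1 : ℂ) + ((z.2 + 2 * Real.pi : ℝ) : ℂ) * Complex.I) = _
    rw [h2, Complex.exp_periodic]
  unfold fn
  rw [h1]

/-- the involution -/
private noncomputable def fJ (P : P2) : P2 := rename (Equiv.swap 0 1) (map (starRingEnd ℂ) P)

private theorem fJ_eq {P : P2} (hR : RealP P) : fJ P = P := by
  apply MvPolynomial.ext
  intro m
  have h1 : m = Finsupp.mapDomain (Equiv.swap 0 1) (ex (m 1) (m 0)) := by
    apply Finsupp.ext
    intro i
    rw [Finsupp.mapDomain_equiv_apply]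
    fin_cases i <;> simp [ex]
  have h2 : m = ex (m 0) (m 1) := by
    apply Finsupp.ext
    intro i
    fin_cases i <;> simp [ex]
  have h3 : coeff m (fJ P) = (starRingEnd ℂ) (coeff (ex (m 1) (m 0)) P) := by
    unfold fJ
    conv_lhs => rw [h1]
    rw [coeff_rename_mapDomain _ (Equiv.injective _), coeff_map]
  rw [h3, hR, ← h2]

private theorem fv_fJ (P : P2) (w : ℂ) : fv (fJ P) w = (starRingEnd ℂ) (fv P w) := by
  unfold fv fJ
  rw [map_eval, eval_rename]
  congr 2
  funext i
  fin_cases i <;> simp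

private theorem fJ_pderiv (P : P2) : pderiv 1 (fJ P) = fJ (pderiv 0 P) := by
  unfold fJ
  have h1 := pderiv_rename (Equiv.injective (Equiv.swap (0 : Fin 2) 1)) 0 (map (starRingEnd ℂ) P)
  rw [Equiv.swap_apply_left] at h1
  rw [h1, pderiv_map]

private theorem fv_conj {P : P2} (hR : RealP P) (w : ℂ) :
    fv (pderiv 1 P) w = (starRingEnd ℂ) (fv (pderiv 0 P) w) := by
  rw [← fv_fJ, ← fJ_pderiv, fJ_eq hR]

theorem vf_strict (P : P2) (hR : RealP P) (q : ℂ)
    (hD : eval ![q, (starRingEnd ℂ) q] (pderiv 0 P) ≠ 0) :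
    ∃ L : ℂ →L[ℝ] ℝ, L ≠ 0 ∧ HasStrictFDerivAt (Vf P) L q := by
  have hD' : fv (pderiv 0 P) q ≠ 0 := hD
  refine ⟨Complex.reCLM.comp (fL (fv (pderiv 0 P) q) (fv (pderiv 1 P) q)), ?_, ?_⟩
  · intro h
    have h1 := congrArg (fun L : ℂ →L[ℝ] ℝ => L ((starRingEnd ℂ) (fv (pderiv 0 P) q))) h
    simp only [ContinuousLinearMap.comp_apply, fL_apply, Complex.reCLM_apply, fv_conj hR,
      zero_apply, Complex.conj_conj] at h1
    have h2 : fv (pderiv 0 P) q * (starRingEnd ℂ) (fv (pderiv 0 P) q) =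
        (Complex.normSq (fv (pderiv 0 P) q) : ℂ) := Complex.mul_conj _
    rw [mul_comm ((starRingEnd ℂ) (fv (pderiv 0 P) q)), h2, Complex.add_re, Complex.ofReal_re] at h1
    have h3 : Complex.normSq (fv (pderiv 0 P) q) = 0 := by linarith
    exact hD' (Complex.normSq_eq_zero.1 h3)
  · rw [vf_eq]
    exact Complex.reCLM.hasStrictFDerivAt.comp q (fv_strict P q)

theorem reg_iff (P : P2) (hR : RealP P) (z : ℝ × ℝ) :
    (fn (Dx P) z ≠ 0 ∨ fn (Dy P) z ≠ 0) ↔
      eval ![E z, (starRingEnd ℂ) (E z)] (pderiv 0 P) ≠ 0 := by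
  have hE : E z ≠ 0 := Complex.exp_ne_zero _
  have h1 : fn (Dx P) z = 2 * (E z * fv (pderiv 0 P) (E z)).re := by
    rw [fn_eq, fv_Dx, fv_conj hR, ← map_mul, Complex.add_re, Complex.conj_re]
    ring
  have h2 : fn (Dy P) z = -2 * (E z * fv (pderiv 0 P) (E z)).im := by
    rw [fn_eq, fv_Dy, fv_conj hR, ← map_mul, Complex.mul_re, Complex.I_re, Complex.I_im,
      Complex.sub_im, Complex.conj_im]
    ring
  have h3 : eval ![E z, (starRingEnd ℂ) (E z)] (pderiv 0 P) = fv (pderiv 0 P) (E z) := rfl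
  rw [h3, h1, h2]
  constructor
  · rintro h h4
    rw [h4] at h
    simp at h
  · intro h
    by_contra hcon
    push Not at hcon
    obtain ⟨h5, h6⟩ := hcon
    have h7 : E z * fv (pderiv 0 P) (E z) = 0 := by
      apply Complex.ext
      · rw [Complex.zero_re]; linarith
      · rw [Complex.zero_im]; linarith
    exact (mul_ne_zero hE h) h7

end Pool.Agent.OVL
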