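import Pool.Agent.OVL.Defs

/-!
# Project OVL, module Left: a closed curve near a leftmost point

`isolate`: a simple closed curve is close to the point at time `n` only at times close to `n` modulo the period (compactness
of the complement of a neighbourhood of `n` in a period).  `left`: at a leftmost point `x' = 0`, so `y` is strictly monotone
near `n`, and `isolate` gives the uniqueness of the intersection points with the horizontal segments.  `bottom` follows by
exchanging the coordinates.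
-/

set_option autoImplicit false

namespace Pool.Agent.OVL

private theorem JC.perz {x y x' y' : ℝ → ℝ} {T : ℝ} (h : JC x y x' y' T) (k : ℤ) (t : ℝ) :
    x (t - k * T) = x t ∧ y (t - k * T) = y t := by
  have hx : Function.Periodic x T := h.perx
  have hy : Function.Periodic y T := h.pery
  have e : (k : ℝ) * T = k • T := (zsmul_eq_mul T k).symm
  rw [e]
  exact ⟨hx.sub_zsmul_eq k, hy.sub_zsmul_eq k⟩

private theorem JC.contx {x y x' y' : ℝ → ℝ} {T : ℝ} (h : JC x y x' y' T) : Continuous x :=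
  continuous_iff_continuousAt.2 fun t => (h.hx t).continuousAt

private theorem JC.conty {x y x' y' : ℝ → ℝ} {T : ℝ} (h : JC x y x' y' T) : Continuous y :=
  continuous_iff_continuousAt.2 fun t => (h.hy t).continuousAt

private theorem JC.swap {x y x' y' : ℝ → ℝ} {T : ℝ} (h : JC x y x' y' T) : JC y x y' x' T :=
  ⟨h.T_pos, h.hy, h.hx, h.cy, h.cx, h.pery, h.perx, fun t => (h.reg t).symm,
    fun s t h1 h2 => h.inj s t h2 h1⟩

private theorem JC.negy {x y x' y' : ℝ → ℝ} {T : ℝ} (h : JC x y x' y' T) :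
    JC x (fun t => -y t) x' (fun t => -y' t) T :=
  ⟨h.T_pos, h.hx, fun t => (h.hy t).neg, h.cx, h.cy.neg, h.perx, fun t => by rw [h.pery],
    fun t => (h.reg t).imp id fun h1 => neg_ne_zero.2 h1,
    fun s t h1 h2 => h.inj s t h1 (neg_injective h2)⟩

theorem JC.isolate {x y x' y' : ℝ → ℝ} {T : ℝ} (h : JC x y x' y' T) (n δ : ℝ) (hδ : 0 < δ) :
    ∃ ρ : ℝ, 0 < ρ ∧ ∀ t : ℝ, |x t - x n| < ρ → |y t - y n| < ρ →
      ∃ k : ℤ, |t - n - k * T| < δ := by
  have hT := h.T_pos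
  have hφc : Continuous fun t => max |x t - x n| |y t - y n| :=
    ((h.contx.sub continuous_const).abs).max ((h.conty.sub continuous_const).abs)
  have hφp : ∀ t ∈ Set.Icc (n + δ) (n + T - δ), 0 < max |x t - x n| |y t - y n| := by
    intro t ht
    by_contra hle
    have h1 : max |x t - x n| |y t - y n| ≤ 0 := not_lt.1 hle
    have h2 : |x t - x n| ≤ 0 := (le_max_left _ _).trans h1
    have h3 : |y t - y n| ≤ 0 := (le_max_right _ _).trans h1
    have h4 : x t = x n := sub_eq_zero.1 (abs_nonpos_iff.1 h2)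
    have h5 : y t = y n := sub_eq_zero.1 (abs_nonpos_iff.1 h3)
    obtain ⟨k, hk⟩ := h.inj t n h4 h5
    have h6 : δ ≤ (k : ℝ) * T := by linarith [ht.1]
    have h7 : (k : ℝ) * T ≤ T - δ := by linarith [ht.2]
    have h8 : (0 : ℝ) < k := by
      by_contra hk0
      have : (k : ℝ) * T ≤ 0 := mul_nonpos_of_nonpos_of_nonneg (not_lt.1 hk0) hT.le
      linarith
    have h9 : (k : ℝ) < 1 := by
      by_contra hk1
      have : T ≤ (k : ℝ) * T := by nlinarith [not_lt.1 hk1]
      linarith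
    have h10 : (0 : ℤ) < k := by exact_mod_cast h8
    have h11 : k < (1 : ℤ) := by exact_mod_cast h9
    omega
  have hρ : ∃ ρ : ℝ, 0 < ρ ∧ ∀ t ∈ Set.Icc (n + δ) (n + T - δ),
      ρ ≤ max |x t - x n| |y t - y n| := by
    rcases (Set.Icc (n + δ) (n + T - δ)).eq_empty_or_nonempty with he | hne
    · exact ⟨1, one_pos, fun t ht => by rw [he] at ht; exact absurd ht (Set.notMem_empty t)⟩
    · obtain ⟨s, hs, hmin⟩ := isCompact_Icc.exists_isMinOn hne hφc.continuousOn
      exact ⟨_, hφp s hs, fun t ht => hmin ht⟩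
  obtain ⟨ρ, hρ0, hρ1⟩ := hρ
  refine ⟨ρ, hρ0, fun t hx hy => ?_⟩
  set k : ℤ := ⌊(t - n) / T⌋ with hk
  have hk1 : (k : ℝ) * T ≤ t - n := by
    have := Int.floor_le ((t - n) / T)
    rwa [le_div_iff₀ hT] at this
  have hk2 : t - n < (k + 1) * T := by
    have := Int.lt_floor_add_one ((t - n) / T)
    rwa [div_lt_iff₀ hT] at this
  obtain ⟨px, py⟩ := h.perz k t
  have hns : ¬ (t - k * T ∈ Set.Icc (n + δ) (n + T - δ)) := by
    intro hmem
    have h1 := hρ1 _ hmem
    rw [px, py] at h1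
    exact absurd (max_lt hx hy) (not_lt.2 h1)
  rw [Set.mem_Icc, not_and_or, not_le, not_le] at hns
  rcases hns with h1 | h1
  · refine ⟨k, ?_⟩
    rw [abs_lt]
    constructor <;> linarith
  · refine ⟨k + 1, ?_⟩
    push_cast
    rw [abs_lt]
    constructor <;> nlinarith

private theorem JC.left_pos {x y x' y' : ℝ → ℝ} {T : ℝ} (h : JC x y x' y' T) (n : ℝ)
    (hn : ∀ t, x n ≤ x t) (hy0 : 0 < y' n) (η : ℝ) (hη : 0 < η) :
    ∃ ε : ℝ, 0 < ε ∧ ε < η ∧
      |x (n + ε) - x n| < η ∧ |x (n - ε) - x n| < η ∧ |y (n + ε) - y n| < η ∧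
      |y (n - ε) - y n| < η ∧
      (∀ t, y t = y (n + ε) → x t ≤ x (n + ε) → ∃ k : ℤ, t = n + ε + k * T) ∧
      (∀ t, y t = y (n - ε) → x t ≤ x (n - ε) → ∃ k : ℤ, t = n - ε + k * T) ∧
      y (n - ε) < y n ∧ y n < y (n + ε) := by
  obtain ⟨δ₁, hδ₁, h1⟩ := Metric.continuousAt_iff.1 (h.cy.continuousAt (x := n)) (y' n) hy0
  set δ := min δ₁ η with hδ
  have hδ0 : 0 < δ := lt_min hδ₁ hη
  have hpos : ∀ t ∈ Set.Ioo (n - δ) (n + δ), 0 < y' t := by
    intro t ht
    have h2 : dist t n < δ₁ := by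
      rw [Real.dist_eq, abs_lt]
      have := min_le_left δ₁ η
      constructor <;> linarith [ht.1, ht.2]
    have h3 := h1 h2
    rw [Real.dist_eq, abs_lt] at h3
    linarith [h3.1]
  have hmono : StrictMonoOn y (Set.Ioo (n - δ) (n + δ)) := by
    refine strictMonoOn_of_deriv_pos (convex_Ioo _ _) h.conty.continuousOn fun t ht => ?_
    rw [interior_Ioo] at ht
    rw [(h.hy t).deriv]
    exact hpos t ht
  obtain ⟨ρ, hρ0, hρ⟩ := h.isolate n δ hδ0
  have hm : 0 < min ρ η := lt_min hρ0 hη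
  obtain ⟨δ₂, hδ₂, h2⟩ := Metric.continuousAt_iff.1 (h.contx.continuousAt (x := n)) _ hm
  obtain ⟨δ₃, hδ₃, h3⟩ := Metric.continuousAt_iff.1 (h.conty.continuousAt (x := n)) _ hm
  set ε := min δ (min δ₂ δ₃) / 2 with hε
  have hmm : 0 < min δ (min δ₂ δ₃) := lt_min hδ0 (lt_min hδ₂ hδ₃)
  have hε0 : 0 < ε := half_pos hmm
  have hεm : ε < min δ (min δ₂ δ₃) := half_lt_self hmm
  have hεδ : ε < δ := hεm.trans_le (min_le_left _ _)
  have hε2 : ε < δ₂ := hεm.trans_le ((min_le_right _ _).trans (min_le_left _ _))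
  have hε3 : ε < δ₃ := hεm.trans_le ((min_le_right _ _).trans (min_le_right _ _))
  have hεη : ε < η := hεδ.trans_le (min_le_right _ _)
  have hx : ∀ e : ℝ, |e| = ε → |x (n + e) - x n| < min ρ η := by
    intro e he
    have h4 : dist (n + e) n < δ₂ := by
      rw [Real.dist_eq, add_sub_cancel_left, he]
      exact hε2
    have := h2 h4
    rwa [Real.dist_eq] at this
  have hy : ∀ e : ℝ, |e| = ε → |y (n + e) - y n| < min ρ η := by
    intro e he
    have h4 : dist (n + e) n < δ₃ := by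
      rw [Real.dist_eq, add_sub_cancel_left, he]
      exact hε3
    have := h3 h4
    rwa [Real.dist_eq] at this
  have hmem : ∀ e : ℝ, |e| ≤ ε → n + e ∈ Set.Ioo (n - δ) (n + δ) := by
    intro e he
    rw [abs_le] at he
    constructor <;> linarith [he.1, he.2]
  have key : ∀ e : ℝ, |e| = ε → ∀ t, y t = y (n + e) → x t ≤ x (n + e) →
      ∃ k : ℤ, t = n + e + k * T := by
    intro e he t hyt hxt
    have h4 : |x t - x n| < ρ := by
      have h5 := (hx e he).trans_le (min_le_left _ _)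
      rw [abs_lt] at h5 ⊢
      constructor <;> linarith [h5.1, h5.2, hn t]
    have h5 : |y t - y n| < ρ := by
      rw [hyt]
      exact (hy e he).trans_le (min_le_left _ _)
    obtain ⟨k, hk⟩ := hρ t h4 h5
    refine ⟨k, ?_⟩
    have h6 : t - k * T ∈ Set.Ioo (n - δ) (n + δ) := by
      rw [abs_lt] at hk
      constructor <;> linarith [hk.1, hk.2]
    have h7 : y (t - k * T) = y (n + e) := (h.perz k t).2.trans hyt
    have h8 := hmono.injOn h6 (hmem e he.le) h7
    linarith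
  have hεa : |ε| = ε := abs_of_pos hε0
  have hεb : |-ε| = ε := by rw [abs_neg, hεa]
  have e1 : n + -ε = n - ε := by ring
  have hx1 := (hx ε hεa).trans_le (min_le_right _ _)
  have hx2 := (hx (-ε) hεb).trans_le (min_le_right _ _)
  have hy1 := (hy ε hεa).trans_le (min_le_right _ _)
  have hy2 := (hy (-ε) hεb).trans_le (min_le_right _ _)
  have k1 := key ε hεa
  have k2 := key (-ε) hεb
  have m0 : n ∈ Set.Ioo (n - δ) (n + δ) := by constructor <;> linarith
  have m1 := hmem ε hεa.le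
  have m2 := hmem (-ε) hεb.le
  rw [e1] at hx2 hy2 k2 m2
  exact ⟨ε, hε0, hεη, hx1, hx2, hy1, hy2, k1, k2, hmono m2 m0 (by linarith),
    hmono m0 m1 (by linarith)⟩

theorem JC.left {x y x' y' : ℝ → ℝ} {T : ℝ} (h : JC x y x' y' T) (n : ℝ) (hn : ∀ t, x n ≤ x t)
    (η : ℝ) (hη : 0 < η) :
    ∃ ε : ℝ, 0 < ε ∧ ε < η ∧
      |x (n + ε) - x n| < η ∧ |x (n - ε) - x n| < η ∧ |y (n + ε) - y n| < η ∧
      |y (n - ε) - y n| < η ∧
      (∀ t, y t = y (n + ε) → x t ≤ x (n + ε) → ∃ k : ℤ, t = n + ε + k * T) ∧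
      (∀ t, y t = y (n - ε) → x t ≤ x (n - ε) → ∃ k : ℤ, t = n - ε + k * T) ∧
      (0 < y' n → y (n - ε) < y n ∧ y n < y (n + ε)) ∧
      (y' n < 0 → y (n + ε) < y n ∧ y n < y (n - ε)) := by
  have hmin : IsLocalMin x n := Filter.Eventually.of_forall hn
  have hx0 : x' n = 0 := hmin.hasDerivAt_eq_zero (h.hx n)
  have hy0 : y' n ≠ 0 := (h.reg n).resolve_left (by simpa using hx0)
  rcases lt_or_gt_of_ne hy0 with hneg | hpos
  · obtain ⟨ε, h1, h2, h3, h4, h5, h6, h7, h8, h9, h10⟩ :=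
      h.negy.left_pos n hn (by simpa using hneg) η hη
    have e5 : |y (n + ε) - y n| < η := by
      rw [abs_lt] at h5 ⊢
      constructor <;> linarith [h5.1, h5.2]
    have e6 : |y (n - ε) - y n| < η := by
      rw [abs_lt] at h6 ⊢
      constructor <;> linarith [h6.1, h6.2]
    refine ⟨ε, h1, h2, h3, h4, e5, e6, fun t ht => h7 t (by simp only [ht]),
      fun t ht => h8 t (by simp only [ht]), fun hp => absurd hp (not_lt.2 hneg.le), fun _ => ?_⟩
    exact ⟨neg_lt_neg_iff.1 h10, neg_lt_neg_iff.1 h9⟩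
  · obtain ⟨ε, h1, h2, h3, h4, h5, h6, h7, h8, h9, h10⟩ := h.left_pos n hn hpos η hη
    exact ⟨ε, h1, h2, h3, h4, h5, h6, h7, h8, fun _ => ⟨h9, h10⟩,
      fun hp => absurd hp (not_lt.2 hpos.le)⟩

theorem JC.bottom {x y x' y' : ℝ → ℝ} {T : ℝ} (h : JC x y x' y' T) (n : ℝ) (hn : ∀ t, y n ≤ y t)
    (η : ℝ) (hη : 0 < η) :
    ∃ ε : ℝ, 0 < ε ∧ ε < η ∧
      |y (n + ε) - y n| < η ∧ |y (n - ε) - y n| < η ∧ |x (n + ε) - x n| < η ∧
      |x (n - ε) - x n| < η ∧
      (∀ t, x t = x (n + ε) → y t ≤ y (n + ε) → ∃ k : ℤ, t = n + ε + k * T) ∧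
      (∀ t, x t = x (n - ε) → y t ≤ y (n - ε) → ∃ k : ℤ, t = n - ε + k * T) ∧
      (0 < x' n → x (n - ε) < x n ∧ x n < x (n + ε)) ∧
      (x' n < 0 → x (n + ε) < x n ∧ x n < x (n - ε)) :=
  h.swap.left n hn η hη

end Pool.Agent.OVL
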