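import Pool.Agent.OVL.Defs

/-!
# Project OVL, module Loc: `f` is constant along trajectories; near a regular zero the zero set is the trajectory

PLAN. `flow_const`: `(f ∘ Γ)' = fx x' + fy y' = mu (-fx fy + fy fx) = 0` (`HasFDerivAt.comp_hasDerivAt`, `HasDerivAt.prodMk`), `is_const_of_deriv_eq_zero`.
`flow_shift`: `Flow` is invariant under translation of time and of `y` by `2 π k` (`mu`, `fx`, `fy` are periodic: `px`, `py`, induction on integers;
`HasDerivAt.comp_add_const`, `HasDerivAt.add_const`).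
`flow_local`: `q = (x t0, y t0)`. Case `fx q ≠ 0`: `fx` is continuous (`HasFDerivAt.continuousAt`), so there is `r > 0` with `fx` of constant sign on the open box
`|z.1 - q.1| < r, |z.2 - q.2| < r`; so for fixed second coordinate in this box `f` is strictly monotone in the first coordinate (derivative `fx`;
`strictMonoOn_of_deriv_pos` or injectivity by Rolle/mean value). Choose `0 < δ' ≤ δ` such that `Γ t` is in the box for `|t - t0| < δ'`. There `y' = mu fx ≠ 0` has
constant sign, so with `t1 = t0 - δ'/2`, `t2 = t0 + δ'/2` the value `y t0` is strictly between `y t1` and `y t2`; let `ρ ≤ r` be smaller than `|y t1 - y t0|`,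
`|y t2 - y t0|`. If `f z = 0` and `z` is in the `ρ`-box, the intermediate value theorem gives `t ∈ [t1, t2]` with `y t = z.2`; `f (x t, z.2) = f (Γ t) = f (Γ t0) = 0 = f z`, and both
points are in the `r`-box, so `x t = z.1`. Case `fy q ≠ 0`: exchange the coordinates (`x' = - mu fy`).
-/

set_option autoImplicit false

namespace Pool.Agent.OVL

private lemma mu_pos (fx fy : ℝ × ℝ → ℝ) (z : ℝ × ℝ) : 0 < mu fx fy z := by
  unfold mu
  have : 0 < 1 + fx z ^ 2 + fy z ^ 2 := by positivity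
  positivity

theorem flow_const {f fx fy fxx fxy fyy : ℝ × ℝ → ℝ} (h : C2 f fx fy fxx fxy fyy)
    {x y : ℝ → ℝ} (hF : Flow fx fy x y) (s t : ℝ) : f (x s, y s) = f (x t, y t) := by
  have hd : ∀ t, HasDerivAt (fun t => f (x t, y t)) 0 t := by
    intro t
    have h1 := (h.d0 (x t, y t)).comp_hasDerivAt t ((hF.hx t).prodMk (hF.hy t))
    have e : (lin (fx (x t, y t)) (fy (x t, y t)))
        (-(mu fx fy (x t, y t) * fy (x t, y t)), mu fx fy (x t, y t) * fx (x t, y t)) = 0 := by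
      simp [lin]
      ring
    rw [e] at h1
    exact h1
  exact is_const_of_deriv_eq_zero (fun t => (hd t).differentiableAt) (fun t => (hd t).deriv) s t

private lemma per_int {g : ℝ × ℝ → ℝ} (pg : ∀ z : ℝ × ℝ, g (z.1, z.2 + 2 * Real.pi) = g z)
    (a b : ℝ) (k : ℤ) : g (a, b + 2 * Real.pi * k) = g (a, b) := by
  have hp : Function.Periodic (fun v => g (a, v)) (2 * Real.pi) := fun v => pg (a, v)
  have := hp.int_mul k b
  simpa [mul_comm] using this

theorem flow_shift {fx fy : ℝ × ℝ → ℝ}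
    (px : ∀ z : ℝ × ℝ, fx (z.1, z.2 + 2 * Real.pi) = fx z)
    (py : ∀ z : ℝ × ℝ, fy (z.1, z.2 + 2 * Real.pi) = fy z)
    {x y : ℝ → ℝ} (hF : Flow fx fy x y) (s : ℝ) (k : ℤ) :
    Flow fx fy (fun t => x (t + s)) (fun t => y (t + s) + 2 * Real.pi * k) := by
  constructor
  · intro t
    have h1 := (hF.hx (t + s)).comp_add_const t s
    simp only [mu, per_int px, per_int py] at h1 ⊢
    exact h1
  · intro t
    have h1 := ((hF.hy (t + s)).comp_add_const t s).add_const (2 * Real.pi * (k : ℝ))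
    simp only [mu, per_int px, per_int py] at h1 ⊢
    exact h1

private lemma core {f g g2 : ℝ × ℝ → ℝ} (hf : ∀ z, HasFDerivAt f (lin (g z) (g2 z)) z)
    (hg : Continuous g) {x y : ℝ → ℝ} (hx : Continuous x) (hy : Continuous y) (t0 c : ℝ)
    (hyc : HasDerivAt y c t0) (hc : c ≠ 0) (hg0 : g (x t0, y t0) ≠ 0)
    (hz : ∀ t, f (x t, y t) = 0) (δ : ℝ) (hδ : 0 < δ) :
    ∃ ρ : ℝ, 0 < ρ ∧ ∀ z : ℝ × ℝ, f z = 0 → |z.1 - x t0| < ρ → |z.2 - y t0| < ρ →
      ∃ t, |t - t0| < δ ∧ x t = z.1 ∧ y t = z.2 := by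
  -- the box
  obtain ⟨r, hr, hbox⟩ : ∃ r > 0, ∀ z : ℝ × ℝ, |z.1 - x t0| < r → |z.2 - y t0| < r → g z ≠ 0 := by
    have h1 : ∀ᶠ z in nhds (x t0, y t0), g z ≠ 0 := hg.continuousAt.eventually_ne hg0
    obtain ⟨r, hr, h2⟩ := Metric.eventually_nhds_iff.1 h1
    refine ⟨r, hr, fun z h3 h4 => h2 ?_⟩
    rw [Prod.dist_eq]
    exact max_lt (by simpa [Real.dist_eq] using h3) (by simpa [Real.dist_eq] using h4)
  -- injectivity in the first coordinate
  have hinj : ∀ a1 a2 b : ℝ, |a1 - x t0| < r → |a2 - x t0| < r → |b - y t0| < r →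
      f (a1, b) = f (a2, b) → a1 = a2 := by
    have hlt : ∀ a1 a2 b : ℝ, a1 < a2 → |a1 - x t0| < r → |a2 - x t0| < r → |b - y t0| < r →
        f (a1, b) ≠ f (a2, b) := by
      intro a1 a2 b h12 h1 h2 hb he
      have hd : ∀ a, HasDerivAt (fun a => f (a, b)) (g (a, b)) a := by
        intro a
        have h3 := (hf (a, b)).comp_hasDerivAt a ((hasDerivAt_id a).prodMk (hasDerivAt_const a b))
        have e : (lin (g (a, b)) (g2 (a, b))) (1, 0) = g (a, b) := by simp [lin]
        rw [e] at h3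
        exact h3
      obtain ⟨w, hw, hw0⟩ := exists_hasDerivAt_eq_zero h12
        (fun a _ => (hd a).continuousAt.continuousWithinAt) he (fun a _ => hd a)
      refine hbox (w, b) ?_ hb hw0
      rw [abs_lt] at h1 h2 ⊢
      exact ⟨by simp only; linarith [hw.1], by simp only; linarith [hw.2]⟩
    intro a1 a2 b h1 h2 hb he
    rcases lt_trichotomy a1 a2 with h | h | h
    · exact absurd he (hlt a1 a2 b h h1 h2 hb)
    · exact h
    · exact absurd he.symm (hlt a2 a1 b h h2 h1 hb)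
  -- the time window
  obtain ⟨η, hη, hwin⟩ : ∃ η > 0, ∀ t, |t - t0| < η → |x t - x t0| < r := by
    obtain ⟨η, hη, h1⟩ := Metric.continuousAt_iff.1 hx.continuousAt r hr
    exact ⟨η, hη, fun t ht => by simpa [Real.dist_eq] using h1 (by simpa [Real.dist_eq] using ht)⟩
  -- slopes
  obtain ⟨ε, hε, hsl⟩ : ∃ ε > 0, ∀ t, |t - t0| < ε → t ≠ t0 → 0 < slope y t0 t * c := by
    have h1 := (hasDerivAt_iff_tendsto_slope.1 hyc).mul_const c
    have h2 : ∀ᶠ t in nhdsWithin t0 {t0}ᶜ, 0 < slope y t0 t * c :=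
      h1.eventually (lt_mem_nhds (mul_self_pos.2 hc))
    rw [eventually_nhdsWithin_iff, Metric.eventually_nhds_iff] at h2
    obtain ⟨ε, hε, h3⟩ := h2
    exact ⟨ε, hε, fun t ht hne => h3 (by simpa [Real.dist_eq] using ht) hne⟩
  obtain ⟨e, he0, heδ, heη, heε⟩ : ∃ e : ℝ, 0 < e ∧ e < δ ∧ e < η ∧ e < ε := by
    refine ⟨min δ (min η ε) / 2, by positivity, ?_, ?_, ?_⟩
    · linarith [min_le_left δ (min η ε)]
    · linarith [min_le_right δ (min η ε), min_le_left η ε, (by positivity : 0 < min δ (min η ε))]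
    · linarith [min_le_right δ (min η ε), min_le_right η ε, (by positivity : 0 < min δ (min η ε))]
  have s1 := hsl (t0 - e) (by rw [abs_lt]; constructor <;> linarith) (by linarith)
  have s2 := hsl (t0 + e) (by rw [abs_lt]; constructor <;> linarith) (by linarith)
  rw [slope_def_field] at s1 s2
  have s1' : (y (t0 - e) - y t0) * c < 0 := by
    have h1 : (y (t0 - e) - y t0) / (t0 - e - t0) * c = -((y (t0 - e) - y t0) * c / e) := by
      have : t0 - e - t0 = -e := by ring
      rw [this]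
      field_simp
    rw [h1] at s1
    have h2 : (y (t0 - e) - y t0) * c / e < 0 := by linarith
    by_contra h3
    exact absurd (div_nonneg (not_lt.1 h3) he0.le) (by linarith)
  have s2' : 0 < (y (t0 + e) - y t0) * c := by
    have h1 : (y (t0 + e) - y t0) / (t0 + e - t0) * c = (y (t0 + e) - y t0) * c / e := by
      have : t0 + e - t0 = e := by ring
      rw [this]
      field_simp
    rw [h1] at s2
    by_contra h3
    exact absurd (div_nonpos_of_nonpos_of_nonneg (not_lt.1 h3) he0.le) (by linarith)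
  have n1 : y (t0 - e) - y t0 ≠ 0 := by
    intro h1; rw [h1] at s1'; simp at s1'
  have n2 : y (t0 + e) - y t0 ≠ 0 := by
    intro h1; rw [h1] at s2'; simp at s2'
  refine ⟨min r (min |y (t0 - e) - y t0| |y (t0 + e) - y t0|), ?_, ?_⟩
  · have := abs_pos.2 n1
    have := abs_pos.2 n2
    positivity
  intro z hz0 hz1 hz2
  have b1 : |z.1 - x t0| < r := lt_of_lt_of_le hz1 (min_le_left _ _)
  have b2 : |z.2 - y t0| < r := lt_of_lt_of_le hz2 (min_le_left _ _)
  have b3 : |z.2 - y t0| < |y (t0 - e) - y t0| :=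
    lt_of_lt_of_le hz2 ((min_le_right _ _).trans (min_le_left _ _))
  have b4 : |z.2 - y t0| < |y (t0 + e) - y t0| :=
    lt_of_lt_of_le hz2 ((min_le_right _ _).trans (min_le_right _ _))
  have hmem : z.2 ∈ Set.uIcc (y (t0 - e)) (y (t0 + e)) := by
    rw [Set.mem_uIcc]
    rcases lt_or_gt_of_ne hc with hc' | hc'
    · right
      have h1 : 0 < y (t0 - e) - y t0 := by
        by_contra h; nlinarith [mul_nonneg_of_nonpos_of_nonpos (not_lt.1 h) hc'.le]
      have h2 : y (t0 + e) - y t0 < 0 := by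
        by_contra h; nlinarith [mul_nonpos_of_nonneg_of_nonpos (not_lt.1 h) hc'.le]
      rw [abs_of_pos h1, abs_lt] at b3
      rw [abs_of_neg h2, abs_lt] at b4
      constructor <;> linarith [b3.1, b3.2, b4.1, b4.2]
    · left
      have h1 : y (t0 - e) - y t0 < 0 := by
        by_contra h; nlinarith [mul_nonneg (not_lt.1 h) hc'.le]
      have h2 : 0 < y (t0 + e) - y t0 := by
        by_contra h; nlinarith [mul_nonpos_of_nonpos_of_nonneg (not_lt.1 h) hc'.le]
      rw [abs_of_neg h1, abs_lt] at b3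
      rw [abs_of_pos h2, abs_lt] at b4
      constructor <;> linarith [b3.1, b3.2, b4.1, b4.2]
  obtain ⟨t, ht, hyt⟩ := intermediate_value_uIcc (a := t0 - e) (b := t0 + e) (f := y)
    hy.continuousOn hmem
  rw [Set.uIcc_of_le (by linarith)] at ht
  have hte : |t - t0| ≤ e := by
    rw [abs_le]; constructor <;> linarith [ht.1, ht.2]
  refine ⟨t, by linarith, ?_, hyt⟩
  refine hinj (x t) z.1 z.2 (hwin t (by linarith)) b1 b2 ?_
  rw [← hyt, hz t, hyt]
  exact hz0.symm

theorem flow_local {f fx fy fxx fxy fyy : ℝ × ℝ → ℝ} (h : C2 f fx fy fxx fxy fyy)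
    {x y : ℝ → ℝ} (hF : Flow fx fy x y) (t0 : ℝ) (hz : f (x t0, y t0) = 0)
    (hreg : fx (x t0, y t0) ≠ 0 ∨ fy (x t0, y t0) ≠ 0) (δ : ℝ) (hδ : 0 < δ) :
    ∃ ρ : ℝ, 0 < ρ ∧ ∀ z : ℝ × ℝ, f z = 0 → |z.1 - x t0| < ρ → |z.2 - y t0| < ρ →
      ∃ t, |t - t0| < δ ∧ x t = z.1 ∧ y t = z.2 := by
  have hall : ∀ t, f (x t, y t) = 0 := fun t => (flow_const h hF t t0).trans hz
  have cx : Continuous x := continuous_iff_continuousAt.2 fun t => (hF.hx t).continuousAt
  have cy : Continuous y := continuous_iff_continuousAt.2 fun t => (hF.hy t).continuousAt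
  have cfx : Continuous fx := continuous_iff_continuousAt.2 fun z => (h.dx z).continuousAt
  have cfy : Continuous fy := continuous_iff_continuousAt.2 fun z => (h.dy z).continuousAt
  rcases hreg with h1 | h1
  · exact core h.d0 cfx cx cy t0 _ (hF.hy t0) (mul_ne_zero (mu_pos fx fy _).ne' h1) h1 hall δ hδ
  · have hd : ∀ z : ℝ × ℝ, HasFDerivAt (fun z : ℝ × ℝ => f (z.2, z.1))
        (lin (fy (z.2, z.1)) (fx (z.2, z.1))) z := by
      intro z
      have h2 : HasFDerivAt (fun z : ℝ × ℝ => (z.2, z.1))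
          ((ContinuousLinearMap.snd ℝ ℝ ℝ).prod (ContinuousLinearMap.fst ℝ ℝ ℝ)) z :=
        ((ContinuousLinearMap.snd ℝ ℝ ℝ).prod (ContinuousLinearMap.fst ℝ ℝ ℝ)).hasFDerivAt
      have h3 := HasFDerivAt.comp z (h.d0 (z.2, z.1)) h2
      have e : (lin (fx (z.2, z.1)) (fy (z.2, z.1))).comp
          ((ContinuousLinearMap.snd ℝ ℝ ℝ).prod (ContinuousLinearMap.fst ℝ ℝ ℝ)) =
          lin (fy (z.2, z.1)) (fx (z.2, z.1)) := by
        ext <;> simp [lin]
      rw [e] at h3
      exact h3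
    have cg : Continuous (fun z : ℝ × ℝ => fy (z.2, z.1)) :=
      cfy.comp (continuous_snd.prodMk continuous_fst)
    obtain ⟨ρ, hρ, h4⟩ := core (f := fun z : ℝ × ℝ => f (z.2, z.1))
      (g := fun z : ℝ × ℝ => fy (z.2, z.1)) (g2 := fun z : ℝ × ℝ => fx (z.2, z.1)) hd cg cy cx t0 _
      (hF.hx t0) (neg_ne_zero.2 (mul_ne_zero (mu_pos fx fy _).ne' h1)) h1 hall δ hδ
    refine ⟨ρ, hρ, fun z hz0 hz1 hz2 => ?_⟩
    obtain ⟨t, ht, ht1, ht2⟩ := h4 (z.2, z.1) hz0 hz2 hz1
    exact ⟨t, ht, ht2, ht1⟩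

end Pool.Agent.OVL
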