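import Pool.Agent.OVL.Defs

/-!
# Project OVL, module Near: sign of `f_yy` near the extreme points of a nodal curve

PLAN. `Γ t = (x t, y t)`, `m t = mu fx fy (Γ t) > 0`, everything continuous along `Γ` (`HasFDerivAt.continuousAt`, `Flow` gives continuity of `x, y`).
Chain rule: `HasFDerivAt.comp_hasDerivAt` with `HasDerivAt.prodMk`: `(fy ∘ Γ)' = fxy x' + fyy y' = m (fyy fx - fxy fy)`,
`(fx ∘ Γ)' = fxx x' + fxy y' = m (fxy fx - fxx fy)`.
`nearX` (`s = ±1`, `s x` minimal at `n`): `x' n = 0`, so `fy (Γ n) = 0` and `fx (Γ n) ≠ 0` (`hreg`). Choose `η' ≤ η` such that `fx (Γ t)` has the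
sign of `fx (Γ n)` for `|t - n| < η'`. Suppose `s * (fx (Γ n) * fyy (Γ t)) ≥ 0` for all `|t - n| < η'`; then `s * fx (Γ t) * fyy (Γ t) ≥ 0`.
Put `A t = s * fy (Γ t)` and `B t = ∫ r in n..t, m r * fxy (Γ r)` (`B' = m fxy`, fundamental theorem `intervalIntegral.integral_hasDerivAt_right`
or `Continuous.deriv_integral`/`Continuous.integral_hasStrictDerivAt`); `(A e^B)' = e^B m s fx fyy ≥ 0` on `[n, n + η')`, `A n = 0`, so `A ≥ 0` there
(`monotoneOn_of_deriv_nonneg`), so `(s x)' = - m A ≤ 0`: `s x` is antitone on `[n, n + η')`, and `s x ≥ s x n`: `x = x n` on `[n, n + η')`.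
There `y' = m fx ≠ 0` has constant sign, so `y n ≠ y (n + η'/2)` and by the intermediate value theorem every value between them is `y t` for
some `t ∈ [n, n + η'/2]`, where `f (x n, y t) = f (Γ t) = 0`. This contradicts `harc` (with `a, b` = the two values).
`nearY` is the same with `A t = s * fx (Γ t)`: on the zero set `fxx = c fx - fyy`, so `(fx ∘ Γ)' = m (fyy fy + (fxy - c fy) fx)`. If
`s * (fy (Γ w) * fyy (Γ t)) ≤ 0` near `w` then with `B t = ∫ r in w..t, m r * (fxy - c fy) (Γ r)`: `(A e^{-B})' = e^{-B} m s fy fyy ≤ 0`, `A w = 0`, so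
`A ≤ 0` on `[w, w + η')`, `(s y)' = m A ≤ 0`, so `y = y w` there; `x' = - m fy ≠ 0`, and `hray` is violated.
-/

set_option autoImplicit false

namespace Pool.Agent.OVL

private theorem ode_nonneg {A A' p : ℝ → ℝ} {n δ : ℝ} (hA : ∀ t, HasDerivAt A (A' t) t)
    (hp : Continuous p) (hle : ∀ t ∈ Set.Icc n (n + δ), p t * A t ≤ A' t) (h0 : A n = 0) :
    ∀ t ∈ Set.Icc n (n + δ), 0 ≤ A t := by
  have hB : ∀ t, HasDerivAt (fun t => ∫ r in n..t, p r) (p t) t := fun t =>
    intervalIntegral.integral_hasDerivAt_right (hp.intervalIntegrable _ _)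
      (hp.stronglyMeasurableAtFilter _ _) hp.continuousAt
  have hF : ∀ t, HasDerivAt (fun t => A t * Real.exp (-∫ r in n..t, p r))
      ((A' t - p t * A t) * Real.exp (-∫ r in n..t, p r)) t := by
    intro t
    have h1 := (hA t).mul ((hB t).neg.exp)
    refine h1.congr_deriv ?_
    simp only [Pi.neg_apply]
    ring
  have hmono : MonotoneOn (fun t => A t * Real.exp (-∫ r in n..t, p r)) (Set.Icc n (n + δ)) := by
    refine monotoneOn_of_deriv_nonneg (convex_Icc _ _)
      (fun t _ => (hF t).continuousAt.continuousWithinAt)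
      (fun t _ => (hF t).differentiableAt.differentiableWithinAt) ?_
    intro t ht
    rw [(hF t).deriv]
    exact mul_nonneg (sub_nonneg.mpr (hle t (interior_subset ht))) (Real.exp_pos _).le
  intro t ht
  have hn : n ∈ Set.Icc n (n + δ) := ⟨le_rfl, ht.1.trans ht.2⟩
  have h1 := hmono hn ht ht.1
  simp only [h0, zero_mul] at h1
  exact nonneg_of_mul_nonneg_left h1 (Real.exp_pos _)

private theorem core {u v u' v' : ℝ → ℝ} (hu : ∀ t, HasDerivAt u (u' t) t)
    (hv : ∀ t, HasDerivAt v (v' t) t) {s n δ : ℝ} (hδ : 0 < δ) (hs : s ≠ 0)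
    (hmin : ∀ t, s * u n ≤ s * u t) (hneg : ∀ t ∈ Set.Icc n (n + δ), s * u' t ≤ 0)
    (hv0 : ∀ t ∈ Set.Icc n (n + δ), v' t ≠ 0) :
    ∃ a b : ℝ, a < b ∧ ∀ z ∈ Set.Ioo a b, ∃ t, u t = u n ∧ v t = z := by
  have hsu : ∀ t, HasDerivAt (fun t => s * u t) (s * u' t) t := fun t => (hu t).const_mul s
  have hanti : AntitoneOn (fun t => s * u t) (Set.Icc n (n + δ)) := by
    refine antitoneOn_of_deriv_nonpos (convex_Icc _ _)
      (fun t _ => (hsu t).continuousAt.continuousWithinAt)
      (fun t _ => (hsu t).differentiableAt.differentiableWithinAt) ?_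
    intro t ht
    rw [(hsu t).deriv]
    exact hneg t (interior_subset ht)
  have hn : n ∈ Set.Icc n (n + δ) := ⟨le_rfl, by linarith⟩
  have hconst : ∀ t ∈ Set.Icc n (n + δ), u t = u n := by
    intro t ht
    have h1 : s * u t ≤ s * u n := hanti hn ht ht.1
    exact mul_left_cancel₀ hs (le_antisymm h1 (hmin t))
  have hne : v n ≠ v (n + δ) := by
    intro h
    obtain ⟨c, hc, hc0⟩ := exists_hasDerivAt_eq_zero (f := v) (f' := v') (a := n) (b := n + δ)
      (by linarith) (fun t _ => (hv t).continuousAt.continuousWithinAt) h (fun t _ => hv t)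
    exact hv0 c (Set.Ioo_subset_Icc_self hc) hc0
  have hivt : Set.uIcc (v n) (v (n + δ)) ⊆ v '' Set.uIcc n (n + δ) :=
    intermediate_value_uIcc (fun t _ => (hv t).continuousAt.continuousWithinAt)
  rw [Set.uIcc_of_le (show n ≤ n + δ by linarith)] at hivt
  refine ⟨min (v n) (v (n + δ)), max (v n) (v (n + δ)), min_lt_max.mpr hne, ?_⟩
  intro z hz
  obtain ⟨t, ht, hzt⟩ := hivt (show z ∈ Set.uIcc (v n) (v (n + δ)) from
    Set.Ioo_subset_Icc_self hz)
  exact ⟨t, hconst t ht, hzt⟩

private theorem mu_pos (fx fy : ℝ × ℝ → ℝ) (z : ℝ × ℝ) : 0 < mu fx fy z := by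
  unfold mu
  positivity

private theorem lin_app (a b c d : ℝ) : lin a b (c, d) = a * c + b * d := by
  simp [lin]

private theorem same_sign {g : ℝ → ℝ} {n : ℝ} (hg : ContinuousAt g n) (h0 : g n ≠ 0) {η : ℝ}
    (hη : 0 < η) : ∃ δ, 0 < δ ∧ δ < η ∧ ∀ t ∈ Set.Icc n (n + δ), 0 < g n * g t := by
  have h1 : ContinuousAt (fun t => g n * g t) n := continuousAt_const.mul hg
  have h2 : 0 < g n * g n := mul_self_pos.mpr h0
  have h3 : ∀ᶠ t in nhds n, 0 < g n * g t := h1.eventually_const_lt h2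
  obtain ⟨ε, hε, hball⟩ := Metric.eventually_nhds_iff.mp h3
  refine ⟨min ε η / 2, by positivity, ?_, ?_⟩
  · have := min_le_right ε η
    have h4 : 0 < min ε η := lt_min hε hη
    linarith
  · intro t ht
    apply hball
    rw [Real.dist_eq, abs_of_nonneg (by linarith [ht.1])]
    have := min_le_left ε η
    have h4 : 0 < min ε η := lt_min hε hη
    linarith [ht.2]

private theorem s_ne {s : ℝ} (hs : s = 1 ∨ s = -1) : s ≠ 0 := by
  rcases hs with h | h <;> rw [h] <;> norm_num

private theorem crit {u u' : ℝ → ℝ} (hu : ∀ t, HasDerivAt u (u' t) t) {s n : ℝ} (hs : s ≠ 0)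
    (hmin : ∀ t, s * u n ≤ s * u t) : u' n = 0 := by
  have h1 : IsLocalMin (fun t => s * u t) n := Filter.Eventually.of_forall hmin
  have h2 := h1.hasDerivAt_eq_zero ((hu n).const_mul s)
  exact (mul_eq_zero.mp h2).resolve_left hs

theorem nearX {f fx fy fxx fxy fyy : ℝ × ℝ → ℝ} (h : C2 f fx fy fxx fxy fyy) {x y : ℝ → ℝ}
    (hF : Flow fx fy x y) (hz : ∀ t, f (x t, y t) = 0)
    (hreg : ∀ t, fx (x t, y t) ≠ 0 ∨ fy (x t, y t) ≠ 0)
    (harc : ∀ a b x : ℝ, a < b → ∃ y ∈ Set.Ioo a b, f (x, y) ≠ 0)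
    (s : ℝ) (hs : s = 1 ∨ s = -1) (n : ℝ) (hn : ∀ t, s * x n ≤ s * x t) (η : ℝ) (hη : 0 < η) :
    ∃ t, |t - n| < η ∧ s * (fx (x n, y n) * fyy (x t, y t)) < 0 := by
  by_contra hcon
  push Not at hcon
  have hs0 : s ≠ 0 := s_ne hs
  have hcx : Continuous x := continuous_iff_continuousAt.mpr (fun t => (hF.hx t).continuousAt)
  have hcy : Continuous y := continuous_iff_continuousAt.mpr (fun t => (hF.hy t).continuousAt)
  have hG : Continuous (fun t => (x t, y t)) := hcx.prodMk hcy
  have hcfx : Continuous fx := continuous_iff_continuousAt.mpr (fun z => (h.dx z).continuousAt)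
  have hcfy : Continuous fy := continuous_iff_continuousAt.mpr (fun z => (h.dy z).continuousAt)
  have hcmu : Continuous (mu fx fy) := by
    unfold mu
    refine continuous_const.div (by fun_prop) (fun z => ?_)
    positivity
  -- the derivative of `fy` along the curve
  have hd : ∀ t, HasDerivAt (fun t => s * fy (x t, y t))
      (s * (fxy (x t, y t) * (-(mu fx fy (x t, y t) * fy (x t, y t))) +
        fyy (x t, y t) * (mu fx fy (x t, y t) * fx (x t, y t)))) t := by
    intro t
    have h1 := (h.dy (x t, y t)).comp_hasDerivAt t ((hF.hx t).prodMk (hF.hy t))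
    rw [lin_app] at h1
    exact h1.const_mul s
  have hx0 := crit hF.hx hs0 hn
  have hfy0 : fy (x n, y n) = 0 := by
    have h1 : mu fx fy (x n, y n) * fy (x n, y n) = 0 := neg_eq_zero.mp hx0
    exact (mul_eq_zero.mp h1).resolve_left (mu_pos fx fy _).ne'
  have hfx0 : fx (x n, y n) ≠ 0 := (hreg n).resolve_right (fun h1 => h1 hfy0)
  obtain ⟨δ, hδ, hδη, hsign⟩ := same_sign (g := fun t => fx (x t, y t)) (n := n)
    (hcfx.comp hG).continuousAt hfx0 hη
  have hsg : ∀ t ∈ Set.Icc n (n + δ), 0 ≤ s * (fx (x t, y t) * fyy (x t, y t)) := by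
    intro t ht
    have h1 := hcon t (by rw [abs_of_nonneg (by linarith [ht.1])]; linarith [ht.2])
    have h2 := hsign t ht
    have h3 : 0 < fx (x n, y n) ^ 2 := by positivity
    have h4 : 0 ≤ fx (x n, y n) ^ 2 * (s * (fx (x t, y t) * fyy (x t, y t))) := by
      have h5 := mul_nonneg h2.le h1
      calc (0 : ℝ) ≤ _ := h5
        _ = _ := by ring
    exact nonneg_of_mul_nonneg_right h4 h3
  have hA := ode_nonneg (n := n) (δ := δ) hd
    (p := fun t => -(mu fx fy (x t, y t) * fxy (x t, y t)))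
    (((hcmu.comp hG).mul (h.cxy.comp hG)).neg) (by
      intro t ht
      have h1 := mul_nonneg (mu_pos fx fy (x t, y t)).le (hsg t ht)
      have h2 : s * (fxy (x t, y t) * (-(mu fx fy (x t, y t) * fy (x t, y t))) +
        fyy (x t, y t) * (mu fx fy (x t, y t) * fx (x t, y t))) -
        -(mu fx fy (x t, y t) * fxy (x t, y t)) * (s * fy (x t, y t)) =
        mu fx fy (x t, y t) * (s * (fx (x t, y t) * fyy (x t, y t))) := by ring
      linarith) (by simp only [hfy0, mul_zero])
  obtain ⟨a, b, hab, hall⟩ := core hF.hx hF.hy hδ hs0 hn (by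
    intro t ht
    have h1 := mul_nonneg (mu_pos fx fy (x t, y t)).le (hA t ht)
    have h2 : s * (-(mu fx fy (x t, y t) * fy (x t, y t))) =
      -(mu fx fy (x t, y t) * (s * fy (x t, y t))) := by ring
    rw [h2]
    linarith) (by
    intro t ht h1
    have h2 := hsign t ht
    rcases mul_eq_zero.mp h1 with h3 | h3
    · exact (mu_pos fx fy (x t, y t)).ne' h3
    · simp only [h3, mul_zero, lt_self_iff_false] at h2)
  obtain ⟨z, hz1, hz2⟩ := harc a b (x n) hab
  obtain ⟨t, ht1, ht2⟩ := hall z hz1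
  exact hz2 (by rw [← ht1, ← ht2]; exact hz t)

theorem nearY {f fx fy fxx fxy fyy : ℝ × ℝ → ℝ} (h : C2 f fx fy fxx fxy fyy) {x y : ℝ → ℝ}
    (hF : Flow fx fy x y) (hz : ∀ t, f (x t, y t) = 0)
    (hreg : ∀ t, fx (x t, y t) ≠ 0 ∨ fy (x t, y t) ≠ 0)
    (hray : ∀ a b y : ℝ, a < b → ∃ x ∈ Set.Ioo a b, f (x, y) ≠ 0)
    (c : ℝ × ℝ → ℝ) (hc : Continuous c) (hpde : ∀ z, f z = 0 → fxx z + fyy z = c z * fx z)
    (s : ℝ) (hs : s = 1 ∨ s = -1) (w : ℝ) (hw : ∀ t, s * y w ≤ s * y t) (η : ℝ) (hη : 0 < η) :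
    ∃ t, |t - w| < η ∧ 0 < s * (fy (x w, y w) * fyy (x t, y t)) := by
  by_contra hcon
  push Not at hcon
  have hs0 : s ≠ 0 := s_ne hs
  have hcx : Continuous x := continuous_iff_continuousAt.mpr (fun t => (hF.hx t).continuousAt)
  have hcy : Continuous y := continuous_iff_continuousAt.mpr (fun t => (hF.hy t).continuousAt)
  have hG : Continuous (fun t => (x t, y t)) := hcx.prodMk hcy
  have hcfx : Continuous fx := continuous_iff_continuousAt.mpr (fun z => (h.dx z).continuousAt)
  have hcfy : Continuous fy := continuous_iff_continuousAt.mpr (fun z => (h.dy z).continuousAt)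
  have hcmu : Continuous (mu fx fy) := by
    unfold mu
    refine continuous_const.div (by fun_prop) (fun z => ?_)
    positivity
  -- the derivative of `fx` along the curve
  have hd : ∀ t, HasDerivAt (fun t => -(s * fx (x t, y t)))
      (-(s * (fxx (x t, y t) * (-(mu fx fy (x t, y t) * fy (x t, y t))) +
        fxy (x t, y t) * (mu fx fy (x t, y t) * fx (x t, y t))))) t := by
    intro t
    have h1 := (h.dx (x t, y t)).comp_hasDerivAt t ((hF.hx t).prodMk (hF.hy t))
    rw [lin_app] at h1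
    exact (h1.const_mul s).neg
  have hy0 := crit hF.hy hs0 hw
  have hfx0 : fx (x w, y w) = 0 := (mul_eq_zero.mp hy0).resolve_left (mu_pos fx fy _).ne'
  have hfy0 : fy (x w, y w) ≠ 0 := (hreg w).resolve_left (fun h1 => h1 hfx0)
  obtain ⟨δ, hδ, hδη, hsign⟩ := same_sign (g := fun t => fy (x t, y t)) (n := w)
    (hcfy.comp hG).continuousAt hfy0 hη
  have hsg : ∀ t ∈ Set.Icc w (w + δ), s * (fy (x t, y t) * fyy (x t, y t)) ≤ 0 := by
    intro t ht
    have h1 := hcon t (by rw [abs_of_nonneg (by linarith [ht.1])]; linarith [ht.2])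
    have h2 := hsign t ht
    have h3 : 0 < fy (x w, y w) ^ 2 := by positivity
    have h4 : 0 ≤ fy (x w, y w) ^ 2 * (-(s * (fy (x t, y t) * fyy (x t, y t)))) := by
      have h5 := mul_nonneg h2.le (neg_nonneg.mpr h1)
      calc (0 : ℝ) ≤ _ := h5
        _ = _ := by ring
    have h5 := nonneg_of_mul_nonneg_right h4 h3
    linarith
  have hA := ode_nonneg (n := w) (δ := δ) hd
    (p := fun t => mu fx fy (x t, y t) * (fxy (x t, y t) - c (x t, y t) * fy (x t, y t)))
    ((hcmu.comp hG).mul ((h.cxy.comp hG).sub ((hc.comp hG).mul (hcfy.comp hG)))) (by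
      intro t ht
      have h1 := mul_nonneg (mu_pos fx fy (x t, y t)).le (neg_nonneg.mpr (hsg t ht))
      have h3 : fxx (x t, y t) = c (x t, y t) * fx (x t, y t) - fyy (x t, y t) := by
        have := hpde (x t, y t) (hz t)
        linarith
      have h2 : -(s * (fxx (x t, y t) * (-(mu fx fy (x t, y t) * fy (x t, y t))) +
        fxy (x t, y t) * (mu fx fy (x t, y t) * fx (x t, y t)))) -
        mu fx fy (x t, y t) * (fxy (x t, y t) - c (x t, y t) * fy (x t, y t)) *
          (-(s * fx (x t, y t))) =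
        mu fx fy (x t, y t) * (-(s * (fy (x t, y t) * fyy (x t, y t)))) := by
        rw [h3]
        ring
      linarith) (by simp only [hfx0, mul_zero, neg_zero])
  obtain ⟨a, b, hab, hall⟩ := core hF.hy hF.hx hδ hs0 hw (by
    intro t ht
    have h1 := mul_nonneg (mu_pos fx fy (x t, y t)).le (hA t ht)
    have h2 : s * (mu fx fy (x t, y t) * fx (x t, y t)) =
      -(mu fx fy (x t, y t) * (-(s * fx (x t, y t)))) := by ring
    rw [h2]
    linarith) (by
    intro t ht h1
    have h2 := hsign t ht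
    rcases mul_eq_zero.mp (neg_eq_zero.mp h1) with h3 | h3
    · exact (mu_pos fx fy (x t, y t)).ne' h3
    · simp only [h3, mul_zero, lt_self_iff_false] at h2)
  obtain ⟨z, hz1, hz2⟩ := hray a b (y w) hab
  obtain ⟨t, ht1, ht2⟩ := hall z hz1
  exact hz2 (by rw [← ht1, ← ht2]; exact hz t)

end Pool.Agent.OVL
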