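import Pool.Agent.OVL.Defs

/-!
# Project OVL, module Ode: global trajectories

The field `G z = (-(mu z * fy z), mu z * fx z)` on `ℝ × ℝ` is `C^1` and bounded by `1`; its trajectories exist for all times and are unique.
-/

set_option autoImplicit false

namespace Pool.Agent.OVL

open Set Metric

private noncomputable def Gf (fx fy : ℝ × ℝ → ℝ) (z : ℝ × ℝ) : ℝ × ℝ :=
  (-(mu fx fy z * fy z), mu fx fy z * fx z)

private theorem cd_of_hasFDeriv {g a b : ℝ × ℝ → ℝ} (hg : ∀ z, HasFDerivAt g (lin (a z) (b z)) z)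
    (ha : Continuous a) (hb : Continuous b) : ContDiff ℝ 1 g := by
  rw [contDiff_one_iff_hasFDerivAt]
  refine ⟨fun z => lin (a z) (b z), ?_, hg⟩
  unfold lin
  fun_prop

private theorem G_contDiff {f fx fy fxx fxy fyy : ℝ × ℝ → ℝ} (h : C2 f fx fy fxx fxy fyy) :
    ContDiff ℝ 1 (Gf fx fy) := by
  have h1 : ContDiff ℝ 1 fx := cd_of_hasFDeriv h.dx h.cxx h.cxy
  have h2 : ContDiff ℝ 1 fy := cd_of_hasFDeriv h.dy h.cxy h.cyy
  have hm : ContDiff ℝ 1 (mu fx fy) := by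
    unfold mu
    refine ContDiff.div contDiff_const ?_ ?_
    · exact (contDiff_const.add (h1.pow 2)).add (h2.pow 2)
    · intro z
      positivity
  exact ((hm.mul h2).neg).prodMk (hm.mul h1)

private theorem G_norm (fx fy : ℝ × ℝ → ℝ) (z : ℝ × ℝ) : ‖Gf fx fy z‖ ≤ 1 := by
  have hpos : (0 : ℝ) < 1 + fx z ^ 2 + fy z ^ 2 := by positivity
  have key : ∀ a b : ℝ, |a| ≤ 1 + a ^ 2 + b ^ 2 := by
    intro a b
    rw [abs_le]
    constructor <;> nlinarith [sq_nonneg (a - 1), sq_nonneg (a + 1), sq_nonneg b]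
  unfold Gf mu
  rw [Prod.norm_def]
  refine max_le ?_ ?_
  · rw [Real.norm_eq_abs, abs_neg, abs_mul, abs_of_pos (by positivity), one_div,
      inv_mul_le_iff₀ hpos]
    have := key (fy z) (fx z)
    linarith
  · rw [Real.norm_eq_abs, abs_mul, abs_of_pos (by positivity), one_div,
      inv_mul_le_iff₀ hpos]
    have := key (fx z) (fy z)
    linarith

private theorem G_lip {f fx fy fxx fxy fyy : ℝ × ℝ → ℝ} (h : C2 f fx fy fxx fxy fyy) (z : ℝ × ℝ)
    (R : ℝ) : ∃ K : NNReal, LipschitzOnWith K (Gf fx fy) (closedBall z R) :=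
  ((G_contDiff h).locallyLipschitz.locallyLipschitzOn).exists_lipschitzOnWith_of_compact
    (isCompact_closedBall z R)

/-- uniqueness on an open interval, for curves in the plane -/
private theorem uniq {f fx fy fxx fxy fyy : ℝ × ℝ → ℝ} (h : C2 f fx fy fxx fxy fyy)
    {p q : ℝ → ℝ × ℝ} {a b t0 : ℝ} (ht : t0 ∈ Ioo a b)
    (hp : ∀ t ∈ Icc a b, HasDerivWithinAt p (Gf fx fy (p t)) (Icc a b) t)
    (hq : ∀ t ∈ Icc a b, HasDerivWithinAt q (Gf fx fy (q t)) (Icc a b) t)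
    (h0 : p t0 = q t0) : EqOn p q (Icc a b) := by
  have cp : ContinuousOn p (Icc a b) := fun t ht => (hp t ht).continuousWithinAt
  have cq : ContinuousOn q (Icc a b) := fun t ht => (hq t ht).continuousWithinAt
  obtain ⟨R1, hR1⟩ := (isCompact_Icc.image_of_continuousOn cp).isBounded.subset_closedBall (0 : ℝ × ℝ)
  obtain ⟨R2, hR2⟩ := (isCompact_Icc.image_of_continuousOn cq).isBounded.subset_closedBall (0 : ℝ × ℝ)
  obtain ⟨K, hK⟩ := G_lip h 0 (max R1 R2)
  refine ODE_solution_unique_of_mem_Icc (v := fun _ => Gf fx fy)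
    (s := fun _ => closedBall 0 (max R1 R2)) (K := K) (fun _ _ => hK) ht cp ?_ ?_ cq ?_ ?_ h0
  · intro t ht
    exact (hp t (Ioo_subset_Icc_self ht)).hasDerivAt (Icc_mem_nhds ht.1 ht.2)
  · intro t ht
    exact closedBall_subset_closedBall (le_max_left _ _) (hR1 ⟨t, Ioo_subset_Icc_self ht, rfl⟩)
  · intro t ht
    exact (hq t (Ioo_subset_Icc_self ht)).hasDerivAt (Icc_mem_nhds ht.1 ht.2)
  · intro t ht
    exact closedBall_subset_closedBall (le_max_right _ _) (hR2 ⟨t, Ioo_subset_Icc_self ht, rfl⟩)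

private theorem exists_local {f fx fy fxx fxy fyy : ℝ × ℝ → ℝ} (h : C2 f fx fy fxx fxy fyy)
    (z : ℝ × ℝ) (N : ℕ) : ∃ α : ℝ → ℝ × ℝ, α 0 = z ∧
      ∀ t ∈ Icc (-(N : ℝ)) N, HasDerivWithinAt α (Gf fx fy (α t)) (Icc (-(N : ℝ)) N) t := by
  obtain ⟨K, hK⟩ := G_lip h z ((N : ℝ) + 1)
  have h0 : (0 : ℝ) ∈ Icc (-(N : ℝ)) N := ⟨by simp, by simp⟩
  have hP : IsPicardLindelof (fun _ => Gf fx fy) (⟨0, h0⟩ : Icc (-(N : ℝ)) N) z
      ((N : NNReal) + 1) 0 1 K := by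
    refine ⟨fun _ _ => ?_, fun _ _ => continuousOn_const, fun _ _ x _ => ?_, ?_⟩
    · simpa using hK
    · simpa using G_norm fx fy x
    · simp
  obtain ⟨α, h1, h2⟩ := hP.exists_eq_forall_mem_Icc_hasDerivWithinAt₀
  exact ⟨α, h1, h2⟩

theorem exists_flow {f fx fy fxx fxy fyy : ℝ × ℝ → ℝ} (h : C2 f fx fy fxx fxy fyy) (z : ℝ × ℝ) :
    ∃ x y : ℝ → ℝ, Flow fx fy x y ∧ x 0 = z.1 ∧ y 0 = z.2 := by
  choose α hα0 hα using exists_local h z
  -- compatibility
  have hcomp : ∀ M N : ℕ, 0 < M → M ≤ N → EqOn (α M) (α N) (Icc (-(M : ℝ)) M) := by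
    intro M N hM hMN
    have hMN' : (M : ℝ) ≤ N := by exact_mod_cast hMN
    have hM' : (0 : ℝ) < M := by exact_mod_cast hM
    have hsub : Icc (-(M : ℝ)) M ⊆ Icc (-(N : ℝ)) N := Icc_subset_Icc (by linarith) hMN'
    refine uniq h (t0 := 0) ⟨by linarith, hM'⟩ (hα M) ?_ (by rw [hα0, hα0])
    intro t ht
    exact (hα N t (hsub ht)).mono hsub
  -- the solution
  let N : ℝ → ℕ := fun t => ⌈|t|⌉₊ + 1
  have hN : ∀ t, |t| < N t := by
    intro t
    have := Nat.le_ceil |t|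
    simp only [N]
    push_cast
    linarith
  let β : ℝ → ℝ × ℝ := fun t => α (N t) t
  have hβ : ∀ (M : ℕ) (t : ℝ), |t| ≤ M → 0 < M → β t = α M t := by
    intro M t ht hM
    have ht' := abs_le.mp ht
    have hs' := abs_le.mp (hN t).le
    rcases le_total M (N t) with hle | hle
    · exact (hcomp M (N t) hM hle ⟨ht'.1, ht'.2⟩).symm
    · exact hcomp (N t) M (Nat.succ_pos _) hle ⟨hs'.1, hs'.2⟩
  have hder : ∀ t, HasDerivAt β (Gf fx fy (β t)) t := by
    intro t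
    have h1 := hN t
    have h2 := abs_lt.mp h1
    have h3 : HasDerivAt (α (N t)) (Gf fx fy (α (N t) t)) t :=
      (hα (N t) t ⟨h2.1.le, h2.2.le⟩).hasDerivAt (Icc_mem_nhds h2.1 h2.2)
    have h4 : β =ᶠ[nhds t] α (N t) := by
      have : Ioo (-(N t : ℝ)) (N t) ∈ nhds t := Ioo_mem_nhds h2.1 h2.2
      filter_upwards [this] with s hs
      exact hβ (N t) s (abs_le.mpr ⟨hs.1.le, hs.2.le⟩) (Nat.succ_pos _)
    exact h3.congr_of_eventuallyEq h4
  have h00 : β 0 = z := hα0 _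
  refine ⟨fun t => (β t).1, fun t => (β t).2, ⟨fun t => ?_, fun t => ?_⟩, ?_, ?_⟩
  · exact (hder t).fst
  · exact (hder t).snd
  · simp only [h00]
  · simp only [h00]

private theorem flow_curve {fx fy : ℝ × ℝ → ℝ} {x y : ℝ → ℝ} (hF : Flow fx fy x y) (t : ℝ) :
    HasDerivAt (fun s => (x s, y s)) (Gf fx fy (x t, y t)) t :=
  (hF.hx t).prodMk (hF.hy t)

theorem flow_unique {f fx fy fxx fxy fyy : ℝ × ℝ → ℝ} (h : C2 f fx fy fxx fxy fyy)
    {x1 y1 x2 y2 : ℝ → ℝ} (h1 : Flow fx fy x1 y1) (h2 : Flow fx fy x2 y2) (t0 : ℝ)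
    (hx : x1 t0 = x2 t0) (hy : y1 t0 = y2 t0) : x1 = x2 ∧ y1 = y2 := by
  have key : ∀ t, (x1 t, y1 t) = (x2 t, y2 t) := by
    intro t
    have ht0 : t0 ∈ Ioo (min t t0 - 1) (max t t0 + 1) :=
      ⟨by linarith [min_le_right t t0], by linarith [le_max_right t t0]⟩
    have ht : t ∈ Icc (min t t0 - 1) (max t t0 + 1) :=
      ⟨by linarith [min_le_left t t0], by linarith [le_max_left t t0]⟩
    exact uniq h ht0 (p := fun s => (x1 s, y1 s)) (q := fun s => (x2 s, y2 s))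
      (fun s _ => (flow_curve h1 s).hasDerivWithinAt)
      (fun s _ => (flow_curve h2 s).hasDerivWithinAt) (by simp [hx, hy]) ht
  constructor
  · funext t
    exact congrArg Prod.fst (key t)
  · funext t
    exact congrArg Prod.snd (key t)

end Pool.Agent.OVL
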