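import Pool.Agent.OVL.Ode
import Pool.Agent.OVL.LocE

/-!
# Project OVL, module Orb: the orbit is the component of the nodal set

The orbit through a point of a component of the nodal set all of whose points are regular is relatively
open in the nodal set, and so is its complement in the component (orbits are equal or disjoint); as the
component is preconnected, the orbit is the whole component.
-/

set_option autoImplicit false

namespace Pool.Agent.OVL

theorem orbit_eq {V : ℂ → ℝ} {f fx fy fxx fxy fyy : ℝ × ℝ → ℝ} (h : Cyl V f fx fy fxx fxy fyy)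
    (p : ℂ) (hp : V p = 0)
    (hreg : ∀ z, E z ∈ comp V p → fx z ≠ 0 ∨ fy z ≠ 0)
    {x y : ℝ → ℝ} (hF : Flow fx fy x y) (h0 : E (x 0, y 0) = p) :
    comp V p = Set.range (fun t => E (x t, y t)) := by
  have hV0 : ∀ {x' y' : ℝ → ℝ}, Flow fx fy x' y' → V (E (x' 0, y' 0)) = 0 →
      ∀ t, f (x' t, y' t) = 0 := by
    intro x' y' hF' h1 t
    rw [flow_const h.toC2 hF' t 0, ← h.V_exp]
    exact h1
  have hcont : ∀ {x' y' : ℝ → ℝ}, Flow fx fy x' y' → Continuous fun t => E (x' t, y' t) := by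
    intro x' y' hF'
    have hx : Continuous x' := continuous_iff_continuousAt.2 fun t => (hF'.hx t).continuousAt
    have hy : Continuous y' := continuous_iff_continuousAt.2 fun t => (hF'.hy t).continuousAt
    exact E_continuous.comp (hx.prodMk hy)
  have hKN : comp V p ⊆ {w | V w = 0} := connectedComponentIn_subset _ _
  have hp0 : V (E (x 0, y 0)) = 0 := by rw [h0]; exact hp
  have hRK : Set.range (fun t => E (x t, y t)) ⊆ comp V p := by
    refine IsPreconnected.subset_connectedComponentIn (isPreconnected_range (hcont hF))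
      ⟨0, h0⟩ ?_
    rintro _ ⟨t, rfl⟩
    change V (E (x t, y t)) = 0
    rw [h.V_exp]
    exact hV0 hF hp0 t
  refine Set.Subset.antisymm ?_ hRK
  set R : Set ℂ := Set.range (fun t => E (x t, y t)) with hR
  let U1 : Set ℂ := ⋃₀ {O | IsOpen O ∧ ∀ w ∈ O, V w = 0 → w ∈ R}
  let U2 : Set ℂ := ⋃₀ {O | IsOpen O ∧ ∀ w ∈ O, V w = 0 → w ∉ R}
  have hU1 : IsOpen U1 := isOpen_sUnion fun O hO => hO.1
  have hU2 : IsOpen U2 := isOpen_sUnion fun O hO => hO.1
  have hR1 : R ⊆ U1 := by
    rintro _ ⟨t, rfl⟩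
    obtain ⟨O, hO, hm, hw⟩ := local_E h hF t (hV0 hF hp0 t) (hreg _ (hRK ⟨t, rfl⟩)) 1 one_pos
    refine ⟨O, ⟨hO, fun w hwO hwV => ?_⟩, hm⟩
    obtain ⟨s, -, hs⟩ := hw w hwO hwV
    exact ⟨s, hs⟩
  have hcover : comp V p ⊆ U1 ∪ U2 := by
    intro q hq
    by_cases hqR : q ∈ R
    · exact Or.inl (hR1 hqR)
    · right
      have hq0 : q ≠ 0 := by
        rintro rfl
        exact h.V_zero (hKN hq)
      obtain ⟨z, rfl⟩ := E_surj q hq0
      obtain ⟨x', y', hF', hx0, hy0⟩ := exists_flow h.toC2 z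
      have hz : (x' 0, y' 0) = z := by rw [hx0, hy0]
      have hVz : V (E (x' 0, y' 0)) = 0 := by rw [hz]; exact hKN hq
      obtain ⟨O, hO, hm, hw⟩ := local_E h hF' 0 (hV0 hF' hVz 0)
        (hreg _ (by rw [hz]; exact hq)) 1 one_pos
      rw [hz] at hm
      refine ⟨O, ⟨hO, fun w hwO hwV hwR => hqR ?_⟩, hm⟩
      obtain ⟨t, -, ht⟩ := hw w hwO hwV
      obtain ⟨s, hs⟩ := hwR
      have h1 : E (x' t, y' t) = E (x s, y s) := by rw [ht, ← hs]
      obtain ⟨h2, n, h3⟩ := (E_eq_iff _ _).1 h1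
      have hF1 := flow_shift h.px h.py hF (s - t) n
      obtain ⟨h4, h5⟩ := flow_unique h.toC2 hF' hF1 t
        (by simpa using h2) (by simpa using h3)
      refine ⟨s - t, ?_⟩
      rw [← hz]
      refine (E_eq_iff _ _).2 ⟨?_, -n, ?_⟩
      · rw [h4]
        simp
      · rw [h5]
        push_cast
        simp only [zero_add]
        ring
  have hpre : IsPreconnected (comp V p) := isPreconnected_connectedComponentIn
  have hpK : p ∈ comp V p := mem_connectedComponentIn hp
  have hdisj : ¬ (comp V p ∩ U2).Nonempty := by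
    intro hne
    obtain ⟨w, hwK, ⟨O1, hO1, hw1⟩, ⟨O2, hO2, hw2⟩⟩ := hpre U1 U2 hU1 hU2 hcover
      ⟨p, hpK, hR1 ⟨0, h0⟩⟩ hne
    exact hO2.2 w hw2 (hKN hwK) (hO1.2 w hw1 (hKN hwK))
  intro q hq
  rcases hcover hq with ⟨O, hO, hqO⟩ | h2
  · exact hO.2 q hqO (hKN hq)
  · exact absurd ⟨q, hq, h2⟩ hdisj

end Pool.Agent.OVL
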