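import Pool.Agent.OVL.Fn
set_option autoImplicit false

namespace Pool.Agent.OVL

open MvPolynomial Pool.Agent.SHB

theorem coeff_Dx (i j : ℕ) (P : P2) : coeff (ex i j) (Dx P) = ((i : ℂ) + j) * coeff (ex i j) P := by
  rw [Dx, coeff_add, coeff_X0_pderiv, coeff_X1_pderiv]
  ring

theorem coeff_Dy (i j : ℕ) (P : P2) :
    coeff (ex i j) (Dy P) = Complex.I * ((i : ℂ) - j) * coeff (ex i j) P := by
  rw [Dy, coeff_C_mul, coeff_rotW]
  ring

theorem Dx_Dy (P : P2) : Dx (Dy P) = Dy (Dx P) := by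
  apply ext_coeff
  intro i j
  rw [coeff_Dx, coeff_Dy, coeff_Dy, coeff_Dx]
  ring

theorem realP_Dx {P : P2} (h : RealP P) : RealP (Dx P) := by
  intro i j
  rw [coeff_Dx, coeff_Dx, map_mul, h i j, map_add, Complex.conj_natCast, Complex.conj_natCast]
  ring

theorem realP_Dy {P : P2} (h : RealP P) : RealP (Dy P) := by
  intro i j
  rw [coeff_Dy, coeff_Dy, map_mul, map_mul, h i j, map_sub, Complex.conj_natCast,
    Complex.conj_natCast, Complex.conj_I]
  ring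

theorem deg_Dy {P : P2} {l : ℕ} (h0 : degreeOf 0 P ≤ l) (h1 : degreeOf 1 P ≤ l) :
    degreeOf 0 (Dy P) ≤ l ∧ degreeOf 1 (Dy P) ≤ l := by
  rw [deg0_le_iff] at h0
  rw [deg1_le_iff] at h1
  rw [deg0_le_iff, deg1_le_iff]
  constructor
  · intro i j hi
    rw [coeff_Dy, h0 i j hi, mul_zero]
  · intro i j hi
    rw [coeff_Dy, h1 i j hi, mul_zero]

theorem c2 (U : P2) : C2 (fn U) (fn (Dx U)) (fn (Dy U)) (fn (Dx (Dx U))) (fn (Dy (Dx U)))
    (fn (Dy (Dy U))) where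
  d0 := hasF U
  dx := hasF (Dx U)
  dy := by
    intro z
    have := hasF (Dy U) z
    rw [Dx_Dy] at this
    exact this
  cxx := fn_cont _
  cxy := fn_cont _
  cyy := fn_cont _

theorem pde_U {l : ℕ} {U : P2} (hU : Spin l U) (z : ℝ × ℝ) (hz : fn U z = 0) :
    fn (Dx (Dx U)) z + fn (Dy (Dy U)) z =
      (4 * l * ‖E z‖ ^ 2 / (1 + ‖E z‖ ^ 2)) * fn (Dx U) z := by
  have key : (1 + X 0 * X 1) * (Dx (Dx U) + Dy (Dy U)) =
      C 4 * (X 0 * X 1) * (C (l : ℂ) * (Dx U - C (l : ℂ) * U)) := by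
    have h1 : Dx (Dx U) + Dy (Dy U) = C 4 * (X 0 * X 1) * pderiv 0 (pderiv 1 U) := by
      apply ext_coeff
      intro i j
      have h2 : (C 4 * (X 0 * X 1) * pderiv 0 (pderiv 1 U) : P2) =
          C 4 * (X 0 * X 1 * pderiv 0 (pderiv 1 U)) := by ring
      rw [h2, coeff_C_mul, coeff_XX_pderiv01, coeff_add, coeff_Dx, coeff_Dx, coeff_Dy, coeff_Dy]
      have hI : Complex.I ^ 2 = -1 := Complex.I_sq
      linear_combination ((i : ℂ) - j) ^ 2 * coeff (ex i j) U * hI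
    have h3 := hU.pde
    rw [h1]
    have h4 : Dx U = X 0 * pderiv 0 U + X 1 * pderiv 1 U := rfl
    rw [h4]
    linear_combination (C 4 * (X 0 * X 1) : P2) * h3
  have hw : ∀ P : P2, fn P z = (eval ![E z, (starRingEnd ℂ) (E z)] P).re := fun P => rfl
  have hr : E z * (starRingEnd ℂ) (E z) = ((‖E z‖ ^ 2 : ℝ) : ℂ) := by
    rw [Complex.mul_conj, Complex.normSq_eq_norm_sq]
  have h5 := congrArg (eval ![E z, (starRingEnd ℂ) (E z)]) key
  simp only [map_mul, map_add, map_sub, map_one, eval_X, eval_C, Matrix.cons_val_zero,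
    Matrix.cons_val_one] at h5
  rw [hr] at h5
  have h6 := congrArg Complex.re h5
  set r := ‖E z‖ ^ 2 with hrdef
  have e1 : ((1 + (r : ℂ)) * (eval ![E z, (starRingEnd ℂ) (E z)] (Dx (Dx U)) +
      eval ![E z, (starRingEnd ℂ) (E z)] (Dy (Dy U)))).re =
      (1 + r) * (fn (Dx (Dx U)) z + fn (Dy (Dy U)) z) := by
    rw [hw, hw]
    have : (1 + (r : ℂ)) = ((1 + r : ℝ) : ℂ) := by push_cast; ring
    rw [this, Complex.re_ofReal_mul, Complex.add_re]
  have e2 : (4 * (r : ℂ) * ((l : ℂ) * (eval ![E z, (starRingEnd ℂ) (E z)] (Dx U) -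
      (l : ℂ) * eval ![E z, (starRingEnd ℂ) (E z)] U))).re =
      4 * r * (l * (fn (Dx U) z - l * fn U z)) := by
    rw [hw, hw]
    have : (4 * (r : ℂ) * ((l : ℂ) * (eval ![E z, (starRingEnd ℂ) (E z)] (Dx U) -
      (l : ℂ) * eval ![E z, (starRingEnd ℂ) (E z)] U))) =
      ((4 * r * l : ℝ) : ℂ) * (eval ![E z, (starRingEnd ℂ) (E z)] (Dx U) -
      ((l : ℝ) : ℂ) * eval ![E z, (starRingEnd ℂ) (E z)] U) := by push_cast; ring
    rw [this, Complex.re_ofReal_mul, Complex.sub_re, Complex.re_ofReal_mul]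
    ring
  rw [e1, e2, hz] at h6
  have hpos : (0 : ℝ) < 1 + r := by positivity
  field_simp
  linarith

end Pool.Agent.OVL
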