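import Pool.Agent.OVL.Four
import Pool.Agent.OVL.Two
import Pool.Agent.OVL.RobM
import Pool.Agent.OVL.Par
import Pool.Agent.OVL.CylU
import Pool.Agent.OVL.Side
import Pool.Agent.OVL.Gr
import Pool.Agent.OVL.Cnt

/-!
# Project OVL, module Plane: the theorem in the plane

PLAN. `V = Vf U`, `h = cyl hU hl hR h0 h1 : Cyl V (fn U) ...`. Finiteness of `Cc V`: first component of `Pool.Agent.SHB.planar hU hl hR h0 h1 ∅ (fun _ => 0) (by simp) ∅ (fun _ => 0) (by simp) (by simp)` (`Cc (Vf U)` and `ConnectedComponents (PlaneC U)` are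
the same). Regular zero: `R w : eval ![w, conj w] (pderiv 0 U) ≠ 0`; `good`: `vf_strict`, `good_of_strict` give `Good V w` for regular zeros.
`curve`: let `p` be a zero such that all points of `comp V p` are regular. By `reg_iff` the hypothesis of `param` holds, so `comp V p = range (E ∘ Γ)` with a `Loop` (`T`, `k`). If `k = 0`: `four`, `rob4` with `V2 = Vf (Dy (Dy U))` (`Vf_cont`, `V2 (E z) = fn .. z` by `rfl`)
give `Rob 4 (comp V p) V2`. If `k ≠ 0`: `two`, `rob2`, `rays`.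
`comps_card`: every finset `𝒦` of sets of the form `comp V p`, `V p = 0`, all points regular, satisfies `2 * 𝒦.card ≤ l * (l + 1)`: `count` with `V1 = Vf (Dy U)`; disjointness of different components (`connectedComponentIn_eq`), `comp V p ⊆ {V = 0}`
(`connectedComponentIn_subset`), `pert`, `line_card` with `c = 1`. So the set `𝒞` of these components is finite (`Set.infinite` would give a finset with `l (l + 1) + 1` elements: `Set.Infinite.exists_subset_card_eq`), `2 * 𝒞.ncard ≤ l (l + 1)`.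
MAIN: `𝒟` = the set in the statement, `𝒦 = 𝒞.toFinset`. `graph_count`: for `D ∈ 𝒟` and a zero `w ∈ closure (cset V D)` the component `comp V w` lies in `closure (cset V D)` (`comp_subset`, all zeros of the closure are regular, so good), so all its points are regular, so
`comp V w ∈ 𝒦`, and `w ∈ comp V w` (`mem_connectedComponentIn`). So `𝒟.ncard ≤ 𝒦.card + 1 ≤ l (l + 1) / 2 + 1`.
-/

set_option autoImplicit false

namespace Pool.Agent.OVL

open MvPolynomial Pool.Agent.SHB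

private lemma comp_zero (V : ℂ → ℝ) (p q : ℂ) (h : q ∈ comp V p) : V q = 0 := by
  have h2 : q ∈ {w | V w = 0} := connectedComponentIn_subset {w | V w = 0} p h
  exact h2

private lemma curve {l : ℕ} {U : P2} (hU : Spin l U) (hl : 1 ≤ l) (hR : RealP U)
    (h0 : coeff (ex 0 0) U ≠ 0) (h1 : coeff (ex 1 0) U ≠ 0) (p : ℂ) (hp : Vf U p = 0)
    (hreg : ∀ q ∈ comp (Vf U) p, eval ![q, (starRingEnd ℂ) q] (pderiv 0 U) ≠ 0) :
    Rob 4 (comp (Vf U) p) (Vf (Dy (Dy U))) ∨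
      (Rob 2 (comp (Vf U) p) (Vf (Dy (Dy U))) ∧ (∃ t : ℝ, 0 < t ∧ (t : ℂ) ∈ comp (Vf U) p) ∧
        (∃ t : ℝ, t < 0 ∧ (t : ℂ) ∈ comp (Vf U) p)) := by
  have h := cyl hU hl hR h0 h1
  obtain ⟨x, y, T, k, hL, hc⟩ := param h p hp (fun z hz => (reg_iff U hR z).2 (hreg _ hz))
  rw [hc]
  by_cases hk : k = 0
  · subst hk
    left
    obtain ⟨t0, t1, t2, t3, σ, a1, a2, a3, a4, b0, b1, b2, b3⟩ := four h hL
    exact rob4 hL _ (Vf_cont _) (fun _ => rfl) t0 t1 t2 t3 σ a1 a2 a3 a4 b0 b1 b2 b3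
  · right
    obtain ⟨t0, t1, σ, a1, a2, b0, b1⟩ := two h hk hL
    exact ⟨rob2 hL _ (Vf_cont _) (fun _ => rfl) t0 t1 σ a1 a2 b0 b1, rays hk hL⟩

private lemma comps_card {l : ℕ} {U : P2} (hU : Spin l U) (hl : 1 ≤ l) (hR : RealP U)
    (h0 : coeff (ex 0 0) U ≠ 0) (h1 : coeff (ex 1 0) U ≠ 0) (𝒦 : Finset (Set ℂ))
    (h𝒦 : ∀ K ∈ 𝒦, ∃ p, Vf U p = 0 ∧ K = comp (Vf U) p ∧
      ∀ q ∈ K, eval ![q, (starRingEnd ℂ) q] (pderiv 0 U) ≠ 0) :
    2 * 𝒦.card ≤ l * (l + 1) := by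
  refine count l (Vf U) (Vf (Dy U)) (Vf (Dy (Dy U))) (Vf_cont _) 𝒦 ?_ ?_ ?_
    (pert hU hl hR h0 h1) ?_
  · intro K hK K' hK' hne
    obtain ⟨p, -, rfl, -⟩ := h𝒦 K hK
    obtain ⟨p', -, rfl, -⟩ := h𝒦 K' hK'
    rw [Set.disjoint_left]
    intro q hq hq'
    exact hne ((connectedComponentIn_eq hq).trans (connectedComponentIn_eq hq').symm)
  · intro K hK w hw
    obtain ⟨p, -, rfl, -⟩ := h𝒦 K hK
    exact comp_zero _ _ _ hw
  · intro K hK
    obtain ⟨p, hp, rfl, hr⟩ := h𝒦 K hK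
    exact curve hU hl hR h0 h1 p hp hr
  · intro S hS
    refine line_card hU hR h0 1 S ?_
    intro t ht
    rw [mul_one]
    exact hS t ht

theorem plane_bound {l : ℕ} {U : P2} (hU : Spin l U) (hl : 1 ≤ l) (hR : RealP U)
    (h0 : coeff (ex 0 0) U ≠ 0) (h1 : coeff (ex 1 0) U ≠ 0) :
    Finite (Cc (Vf U)) ∧
    {D : Cc (Vf U) | ∀ w ∈ closure (cset (Vf U) D), Vf U w = 0 →
      eval ![w, (starRingEnd ℂ) w] (pderiv 0 U) ≠ 0}.ncard ≤ l * (l + 1) / 2 + 1 := by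
  classical
  have hfin : Finite (Cc (Vf U)) :=
    (Pool.Agent.SHB.planar hU hl hR h0 h1 ∅ (fun _ => 0) (by simp) ∅ (fun _ => 0) (by simp)
      (by simp)).1
  refine ⟨hfin, ?_⟩
  have good : ∀ q, Vf U q = 0 → eval ![q, (starRingEnd ℂ) q] (pderiv 0 U) ≠ 0 →
      Good (Vf U) q := by
    intro q hq hr
    obtain ⟨L, hL0, hL⟩ := vf_strict U hR q hr
    exact good_of_strict (Vf U) (Vf_cont U) q hq L hL0 hL
  set 𝒞 : Set (Set ℂ) := {K | ∃ p, Vf U p = 0 ∧ K = comp (Vf U) p ∧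
      ∀ q ∈ K, eval ![q, (starRingEnd ℂ) q] (pderiv 0 U) ≠ 0} with h𝒞
  have hCfin : 𝒞.Finite := by
    by_contra hinf
    obtain ⟨t, ht, hc⟩ := Set.Infinite.exists_subset_card_eq hinf (l * (l + 1) + 1)
    have := comps_card hU hl hR h0 h1 t (fun K hK => ht hK)
    omega
  have hcard := comps_card hU hl hR h0 h1 hCfin.toFinset (fun K hK => hCfin.mem_toFinset.1 hK)
  refine (graph_count (Vf U) (Vf_cont U) hfin hCfin.toFinset ?_ _ ?_).trans ?_
  · intro K hK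
    obtain ⟨p, hp, rfl, hr⟩ := hCfin.mem_toFinset.1 hK
    refine ⟨isPreconnected_connectedComponentIn, ⟨p, mem_connectedComponentIn hp⟩, ?_⟩
    intro q hq
    have hq0 : Vf U q = 0 := comp_zero _ _ _ hq
    exact ⟨hq0, good q hq0 (hr q hq)⟩
  · intro D hD w hw hw0
    refine ⟨comp (Vf U) w, ?_, mem_connectedComponentIn hw0⟩
    rw [hCfin.mem_toFinset]
    refine ⟨w, hw0, rfl, ?_⟩
    intro q hq
    have hsub := comp_subset (Vf U) (Vf_cont U) D (fun q hq hq0 => good q hq0 (hD q hq hq0)) w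
      hw hw0
    exact hD q (hsub hq) (comp_zero _ _ _ hq)
  · omega

end Pool.Agent.OVL
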