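import Pool.Agent.OVL.Cross
import Pool.Agent.OVL.Left

/-!
# Project OVL, module SenA: the turning sense at the leftmost and at the lowest point, main case

PLAN. (Two disjoint paths in a box whose ends alternate.) Suppose `y' n < 0` (moving down at the leftmost point) and `x' w < 0` (moving left
at the lowest point). Replace `w` by a translate so that `n < w < n + T` (`w ≢ n mod T`: at `n` `x' = 0`, at `w` `x' < 0`; use periodicity of
`x, y, x'`; `x'` is periodic because it is the derivative of `x`, `HasDerivAt.unique`). Also `x n < x w` (otherwise `w` is a minimum of `x` and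
`x' w = 0`) and `y w < y n`. Choose `η > 0` smaller than `(w - n)/4, (n + T - w)/4, (x w - x n)/4, (y n - y w)/4, 1/8`. From `JC.left` at
`n` get `ε`, from `JC.bottom` at `w` get `ε'`. Let `a = Γ (n + ε)` (below `Γ n`), `c = Γ (n - ε)` (above), `b = Γ (w - ε')` (right of `Γ w`),
`d = Γ (w + ε')` (left of `Γ w`), `Γ = (x, y)`. Let `x1 = max x`, `y1 = max y` (bounds of the periodic functions). Paths:
`α : (x n - 1, y_a) → a → (Γ on [n + ε, w - ε']) → b → (x_b, y w - 1/2) → (x1 + 1, y w - 1/2)`,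
`β : (x_d, y w - 1) → d → (Γ on [w + ε', n + T - ε]) → c → (x n - 1/2, y_c) → (x n - 1/2, y1 + 1)`.
`A = s1 ∪ A1 ∪ s2 ∪ s3`, `B = r1 ∪ A2 ∪ r2 ∪ r3` (segments and arcs; `joined_hseg`, `joined_vseg`, `joined_arc`, `JoinedIn.trans`, `JoinedIn.mono`).
`cross_joined` gives a point of `A ∩ B`. 16 cases, all impossible:
`s1 = {y = y_a, x ≤ x_a}`, `s2 = {x = x_b, y w - 1/2 ≤ y ≤ y_b}`, `s3 = {y = y w - 1/2, x ≥ x_b}`,
`r1 = {x = x_d, y ≤ y_d}`, `r2 = {y = y_c, x n - 1/2 ≤ x ≤ x_c}`, `r3 = {x = x n - 1/2, y ≥ y_c}`: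
s1∩r1: `x_d ≤ x_a` false; s1∩A2: by `JC.left` the time is `n + ε` mod `T`, impossible for times in `[w + ε', n + T - ε]`; s1∩r2: `y_a ≠ y_c`;
s1∩r3: `y_a < y_c`; A1∩r1: by `JC.bottom` the time is `w + ε'` mod `T`, impossible in `[n + ε, w - ε']`; A1∩A2: `inj` and `0 < t - s < T`;
A1∩r2: time `n - ε` mod `T`; A1∩r3: `x ≥ x n`; s2∩r1: `x_b ≠ x_d`; s2∩A2: time `w - ε'` mod `T`; s2∩r2: `x_b ≤ x_c` false; s2∩r3: `x_b > x n - 1/2`;
s3∩r1: `x_d < x_b`; s3∩A2: `y ≥ y w`; s3∩r2, s3∩r3: `y_c > y w - 1/2`.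
-/

set_option autoImplicit false

namespace Pool.Agent.OVL

private theorem sen_int {T a b : ℝ} (hT : 0 < T) {k : ℤ} (h : a = b + k * T) (hab : b < a) :
    b + T ≤ a := by
  have h1 : (0 : ℝ) < k * T := by linarith
  have h2 : (0 : ℝ) < k := by
    by_contra h3
    push Not at h3
    nlinarith
  have h4 : (1 : ℤ) ≤ k := by
    have : (0 : ℤ) < k := by exact_mod_cast h2
    omega
  have h5 : (1 : ℝ) ≤ k := by exact_mod_cast h4
  nlinarith

private theorem sen_int' {T a b : ℝ} (hT : 0 < T) {k : ℤ} (h : a = b + k * T) (hab : a < b) :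
    a ≤ b - T := by
  have h1 : b = a + ((-k : ℤ) : ℝ) * T := by
    push_cast
    linarith
  have := sen_int hT h1 hab
  linarith

private theorem sen_bdd {f : ℝ → ℝ} {T : ℝ} (hT : 0 < T) (hf : Continuous f)
    (hp : ∀ t, f (t + T) = f t) : ∃ M : ℝ, ∀ t, f t ≤ M := by
  obtain ⟨M, hM⟩ := (isCompact_Icc (a := (0 : ℝ)) (b := T)).exists_bound_of_continuousOn
    hf.continuousOn
  refine ⟨M, fun t => ?_⟩
  have hp' : Function.Periodic f T := hp
  obtain ⟨s, hs, hst⟩ := hp'.exists_mem_Ico₀ hT t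
  rw [hst]
  have := hM s ⟨hs.1, hs.2.le⟩
  rw [Real.norm_eq_abs] at this
  exact (le_abs_self _).trans this

private theorem sen_der_per {f f' : ℝ → ℝ} {T : ℝ} (hf : ∀ t, HasDerivAt f (f' t) t)
    (hp : ∀ t, f (t + T) = f t) (t : ℝ) : f' (t + T) = f' t := by
  have h1 : HasDerivAt (fun s => f (s + T)) (f' (t + T)) t :=
    (hf (t + T)).comp_add_const t T
  have h2 : (fun s => f (s + T)) = f := funext hp
  rw [h2] at h1
  exact h1.unique (hf t)

private theorem sen_main {x y x' y' : ℝ → ℝ} {T : ℝ} (h : JC x y x' y' T) (n w : ℝ)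
    (hn : ∀ t, x n ≤ x t) (hw : ∀ t, y w ≤ y t) (h1 : y' n < 0) (h2 : x' w < 0)
    (hnw : n < w) (hwT : w < n + T) : False := by
  have hT := h.T_pos
  have hcx : Continuous x := continuous_iff_continuousAt.2 fun t => (h.hx t).continuousAt
  have hcy : Continuous y := continuous_iff_continuousAt.2 fun t => (h.hy t).continuousAt
  -- strict inequalities
  have hxnw : x n < x w := by
    refine lt_of_le_of_ne (hn w) fun he => ?_
    have hmin : IsLocalMin x w := Filter.Eventually.of_forall fun t => by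
      rw [← he]
      exact hn t
    have := hmin.hasDerivAt_eq_zero (h.hx w)
    linarith
  have hywn : y w < y n := by
    refine lt_of_le_of_ne (hw n) fun he => ?_
    have hmin : IsLocalMin y n := Filter.Eventually.of_forall fun t => by
      rw [← he]
      exact hw t
    have := hmin.hasDerivAt_eq_zero (h.hy n)
    linarith
  obtain ⟨x1, hx1⟩ := sen_bdd hT hcx h.perx
  obtain ⟨y1, hy1⟩ := sen_bdd hT hcy h.pery
  obtain ⟨η, hη, e1, e2, e3, e4, e5⟩ : ∃ η : ℝ, 0 < η ∧ 4 * η ≤ w - n ∧ 4 * η ≤ n + T - w ∧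
      4 * η ≤ x w - x n ∧ 4 * η ≤ y n - y w ∧ 8 * η ≤ 1 := by
    refine ⟨min (min ((w - n) / 4) ((n + T - w) / 4))
      (min (min ((x w - x n) / 4) ((y n - y w) / 4)) (1 / 8)), ?_, ?_, ?_, ?_, ?_, ?_⟩
    · refine lt_min (lt_min ?_ ?_) (lt_min (lt_min ?_ ?_) ?_) <;> linarith
    · have := (min_le_left (min ((w - n) / 4) ((n + T - w) / 4))
        (min (min ((x w - x n) / 4) ((y n - y w) / 4)) (1 / 8))).trans (min_le_left _ _)
      linarith
    · have := (min_le_left (min ((w - n) / 4) ((n + T - w) / 4))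
        (min (min ((x w - x n) / 4) ((y n - y w) / 4)) (1 / 8))).trans (min_le_right _ _)
      linarith
    · have := (min_le_right (min ((w - n) / 4) ((n + T - w) / 4))
        (min (min ((x w - x n) / 4) ((y n - y w) / 4)) (1 / 8))).trans
          ((min_le_left _ _).trans (min_le_left _ _))
      linarith
    · have := (min_le_right (min ((w - n) / 4) ((n + T - w) / 4))
        (min (min ((x w - x n) / 4) ((y n - y w) / 4)) (1 / 8))).trans
          ((min_le_left _ _).trans (min_le_right _ _))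
      linarith
    · have := (min_le_right (min ((w - n) / 4) ((n + T - w) / 4))
        (min (min ((x w - x n) / 4) ((y n - y w) / 4)) (1 / 8))).trans (min_le_right _ _)
      linarith
  obtain ⟨ε, hε, hεη, l1, l2, l3, l4, L1, L2, -, hl⟩ := h.left n hn η hη
  obtain ⟨δ, hδ, hδη, b1, b2, b3, b4, B1, B2, -, hb⟩ := h.bottom w hw η hη
  obtain ⟨ya, yc⟩ := hl h1
  obtain ⟨xd, xb⟩ := hb h2
  rw [abs_lt] at l1 l2 l3 l4 b1 b2 b3 b4
  obtain ⟨A, hA⟩ : ∃ A : Set (ℝ × ℝ), A = {p | (p.2 = y (n + ε) ∧ p.1 ≤ x (n + ε)) ∨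
      (∃ s, n + ε ≤ s ∧ s ≤ w - δ ∧ p = (x s, y s)) ∨
      (p.1 = x (w - δ) ∧ y w - 1 / 2 ≤ p.2 ∧ p.2 ≤ y (w - δ)) ∨
      (p.2 = y w - 1 / 2 ∧ x (w - δ) ≤ p.1)} := ⟨_, rfl⟩
  obtain ⟨B, hB⟩ : ∃ B : Set (ℝ × ℝ), B = {p | (p.1 = x (w + δ) ∧ p.2 ≤ y (w + δ)) ∨
      (∃ s, w + δ ≤ s ∧ s ≤ n + T - ε ∧ p = (x s, y s)) ∨
      (p.2 = y (n - ε) ∧ x n - 1 / 2 ≤ p.1 ∧ p.1 ≤ x (n - ε)) ∨
      (p.1 = x n - 1 / 2 ∧ y (n - ε) ≤ p.2)} := ⟨_, rfl⟩
  have hjA : JoinedIn A (x n - 1, y (n + ε)) (x1 + 1, y w - 1 / 2) := by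
    have j1 : JoinedIn A (x n - 1, y (n + ε)) (x (n + ε), y (n + ε)) := by
      refine joined_hseg A _ _ _ fun a ha => ?_
      rw [Set.uIcc_of_le (by linarith)] at ha
      rw [hA]
      exact Or.inl ⟨rfl, ha.2⟩
    have j2 : JoinedIn A (x (n + ε), y (n + ε)) (x (w - δ), y (w - δ)) := by
      refine joined_arc A x y hcx hcy _ _ (by linarith) fun r hr => ?_
      rw [hA]
      exact Or.inr (Or.inl ⟨r, hr.1, hr.2, rfl⟩)
    have j3 : JoinedIn A (x (w - δ), y (w - δ)) (x (w - δ), y w - 1 / 2) := by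
      refine joined_vseg A _ _ _ fun a ha => ?_
      rw [Set.uIcc_of_ge (by linarith)] at ha
      rw [hA]
      exact Or.inr (Or.inr (Or.inl ⟨rfl, ha.1, ha.2⟩))
    have j4 : JoinedIn A (x (w - δ), y w - 1 / 2) (x1 + 1, y w - 1 / 2) := by
      refine joined_hseg A _ _ _ fun a ha => ?_
      rw [Set.uIcc_of_le (by linarith [hx1 (w - δ)])] at ha
      rw [hA]
      exact Or.inr (Or.inr (Or.inr ⟨rfl, ha.1⟩))
    exact ((j1.trans j2).trans j3).trans j4
  have hjB : JoinedIn B (x (w + δ), y w - 1) (x n - 1 / 2, y1 + 1) := by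
    have j1 : JoinedIn B (x (w + δ), y w - 1) (x (w + δ), y (w + δ)) := by
      refine joined_vseg B _ _ _ fun a ha => ?_
      rw [Set.uIcc_of_le (by linarith)] at ha
      rw [hB]
      exact Or.inl ⟨rfl, ha.2⟩
    have j2 : JoinedIn B (x (w + δ), y (w + δ)) (x (n + T - ε), y (n + T - ε)) := by
      refine joined_arc B x y hcx hcy _ _ (by linarith) fun r hr => ?_
      rw [hB]
      exact Or.inr (Or.inl ⟨r, hr.1, hr.2, rfl⟩)
    have j2' : JoinedIn B (x (w + δ), y (w + δ)) (x (n - ε), y (n - ε)) := by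
      have q1 : x (n + T - ε) = x (n - ε) := by
        rw [← h.perx (n - ε)]
        congr 1
        ring
      have q2 : y (n + T - ε) = y (n - ε) := by
        rw [← h.pery (n - ε)]
        congr 1
        ring
      rw [q1, q2] at j2
      exact j2
    have j3 : JoinedIn B (x (n - ε), y (n - ε)) (x n - 1 / 2, y (n - ε)) := by
      refine joined_hseg B _ _ _ fun a ha => ?_
      rw [Set.uIcc_of_ge (by linarith)] at ha
      rw [hB]
      exact Or.inr (Or.inr (Or.inl ⟨rfl, ha.1, ha.2⟩))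
    have j4 : JoinedIn B (x n - 1 / 2, y (n - ε)) (x n - 1 / 2, y1 + 1) := by
      refine joined_vseg B _ _ _ fun a ha => ?_
      rw [Set.uIcc_of_le (by linarith [hy1 (n - ε)])] at ha
      rw [hB]
      exact Or.inr (Or.inr (Or.inr ⟨rfl, ha.1⟩))
    exact ((j1.trans j2').trans j3).trans j4
  have hAy : ∀ p ∈ A, y w - 1 ≤ p.2 ∧ p.2 ≤ y1 + 1 := by
    rintro ⟨p, q⟩ hp
    rw [hA] at hp
    rcases hp with ⟨g1, -⟩ | ⟨s, -, -, g3⟩ | ⟨-, g2, g3⟩ | ⟨g1, -⟩
    · dsimp only at g1 ⊢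
      rw [g1]
      constructor
      · linarith [hw (n + ε)]
      · linarith [hy1 (n + ε)]
    · rw [g3]
      dsimp only
      constructor
      · linarith [hw s]
      · linarith [hy1 s]
    · dsimp only at g2 g3 ⊢
      constructor
      · linarith
      · linarith [hy1 (w - δ)]
    · dsimp only at g1 ⊢
      rw [g1]
      constructor
      · linarith
      · linarith [hy1 w]
  have hBx : ∀ p ∈ B, x n - 1 ≤ p.1 ∧ p.1 ≤ x1 + 1 := by
    rintro ⟨p, q⟩ hp
    rw [hB] at hp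
    rcases hp with ⟨g1, -⟩ | ⟨s, -, -, g3⟩ | ⟨-, g2, g3⟩ | ⟨g1, -⟩
    · dsimp only at g1 ⊢
      rw [g1]
      constructor
      · linarith [hn (w + δ)]
      · linarith [hx1 (w + δ)]
    · rw [g3]
      dsimp only
      constructor
      · linarith [hn s]
      · linarith [hx1 s]
    · dsimp only at g2 g3 ⊢
      constructor
      · linarith
      · linarith [hx1 (n - ε)]
    · dsimp only at g1 ⊢
      rw [g1]
      constructor
      · linarith
      · linarith [hx1 n]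
  obtain ⟨⟨p, q⟩, hpA, hpB⟩ := cross_joined A B _ _ _ _ hjA hjB hAy hBx
  rw [hA] at hpA
  rw [hB] at hpB
  rcases hpA with ⟨g1, g2⟩ | ⟨s, g1, g2, g3⟩ | ⟨g1, g2, g3⟩ | ⟨g1, g2⟩
  · dsimp only at g1 g2
    rcases hpB with ⟨f1, f2⟩ | ⟨t, f1, f2, f3⟩ | ⟨f1, f2, f3⟩ | ⟨f1, f2⟩
    · dsimp only at f1 f2
      linarith
    · rw [Prod.mk.injEq] at f3
      obtain ⟨k, hk⟩ := L1 t (by rw [← f3.2]; exact g1) (by rw [← f3.1]; exact g2)
      have := sen_int hT hk (by linarith)
      linarith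
    · dsimp only at f1 f2 f3
      linarith
    · dsimp only at f1 f2
      linarith
  · rw [Prod.mk.injEq] at g3
    rcases hpB with ⟨f1, f2⟩ | ⟨t, f1, f2, f3⟩ | ⟨f1, f2, f3⟩ | ⟨f1, f2⟩
    · dsimp only at f1 f2
      obtain ⟨k, hk⟩ := B1 s (by rw [← g3.1]; exact f1) (by rw [← g3.2]; exact f2)
      have := sen_int' hT hk (by linarith)
      linarith
    · rw [Prod.mk.injEq] at f3
      obtain ⟨k, hk⟩ := h.inj s t (g3.1.symm.trans f3.1) (g3.2.symm.trans f3.2)
      have hk' : s = t + k * T := by linarith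
      have := sen_int' hT hk' (by linarith)
      linarith
    · dsimp only at f1 f2 f3
      obtain ⟨k, hk⟩ := L2 s (by rw [← g3.2]; exact f1) (by rw [← g3.1]; exact f3)
      have := sen_int hT hk (by linarith)
      linarith
    · dsimp only at f1 f2
      have := hn s
      linarith [g3.1]
  · dsimp only at g1 g2 g3
    rcases hpB with ⟨f1, f2⟩ | ⟨t, f1, f2, f3⟩ | ⟨f1, f2, f3⟩ | ⟨f1, f2⟩
    · dsimp only at f1 f2
      linarith
    · rw [Prod.mk.injEq] at f3
      obtain ⟨k, hk⟩ := B2 t (by rw [← f3.1]; exact g1) (by rw [← f3.2]; exact g3)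
      have := sen_int hT hk (by linarith)
      linarith
    · dsimp only at f1 f2 f3
      linarith
    · dsimp only at f1 f2
      linarith
  · dsimp only at g1 g2
    rcases hpB with ⟨f1, f2⟩ | ⟨t, f1, f2, f3⟩ | ⟨f1, f2, f3⟩ | ⟨f1, f2⟩
    · dsimp only at f1 f2
      linarith
    · rw [Prod.mk.injEq] at f3
      have := hw t
      linarith [f3.2]
    · dsimp only at f1 f2 f3
      linarith
    · dsimp only at f1 f2
      linarith

theorem JC.sense_neg {x y x' y' : ℝ → ℝ} {T : ℝ} (h : JC x y x' y' T) (n w : ℝ)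
    (hn : ∀ t, x n ≤ x t) (hw : ∀ t, y w ≤ y t) (h1 : y' n < 0) (h2 : x' w < 0) : False := by
  have hT := h.T_pos
  have px : Function.Periodic x T := h.perx
  have py : Function.Periodic y T := h.pery
  have px' : Function.Periodic x' T := sen_der_per h.hx h.perx
  obtain ⟨w0, hw0, hw1⟩ : ∃ w0 ∈ Set.Ico n (n + T), ∃ k : ℤ, w = w0 + k * T := by
    refine ⟨w - ⌊(w - n) / T⌋ * T, ⟨?_, ?_⟩, ⌊(w - n) / T⌋, by ring⟩
    · have h3 := Int.floor_le ((w - n) / T)
      rw [le_div_iff₀ hT] at h3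
      linarith
    · have h3 := Int.lt_floor_add_one ((w - n) / T)
      rw [div_lt_iff₀ hT] at h3
      linarith
  obtain ⟨k, hk⟩ := hw1
  have e1 : x' w0 = x' w := by
    rw [hk]
    exact (px'.int_mul k w0).symm
  have e2 : y w0 = y w := by
    rw [hk]
    exact (py.int_mul k w0).symm
  have e3 : n ≠ w0 := by
    intro he
    have hmin : IsLocalMin x n := Filter.Eventually.of_forall hn
    have h3 := hmin.hasDerivAt_eq_zero (h.hx n)
    rw [he, e1] at h3
    linarith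
  exact sen_main h n w0 hn (fun t => by rw [e2]; exact hw t) h1 (by rw [e1]; exact h2)
    (lt_of_le_of_ne hw0.1 e3) hw0.2

end Pool.Agent.OVL
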